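import Pool.Agent.Y817.ISO.Stm
import Pool.Agent.H665Simp.DefsU

/-!
Part CODE of project ISO (frozen statement S14615).
-/

set_option autoImplicit false

namespace Pool.Agent.T2H50.ISO

open Pool.Agent.Y817.ISO

theorem prim_rep {α : Type} [Primcodable α] (a : α) : Primrec fun n : ℕ => List.replicate n a := by
  have h : Primrec fun n : ℕ => (List.range n).map (fun _ => a) :=
    Primrec.list_map Primrec.list_range (Primrec.const a).to₂
  refine h.of_eq fun n => ?_
  rw [List.map_const', List.length_range]

theorem prim_cons {α : Type} [Primcodable α] (a : α) {f : ℕ → List α} (hf : Primrec f) :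
    Primrec fun n => a :: f n :=
  Primrec.list_cons.comp (Primrec.const a) hf

theorem prim_app {α : Type} [Primcodable α] (a : α) {f : ℕ → List α} (hf : Primrec f) :
    Primrec fun n => List.replicate n a ++ f n :=
  Primrec.list_append.comp (prim_rep a) hf

theorem prim_W (c x t τ : ℕ) : Primrec fun n => W c x t τ n := by
  unfold W
  exact prim_cons _ (prim_app _ (prim_cons _ (prim_app _ (prim_cons _ (prim_app _ (prim_cons _
    (prim_app _ (prim_cons _ (prim_app _ (prim_cons _ (prim_app _ (prim_cons _ (prim_app _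
      (prim_cons _ (prim_rep _)))))))))))))))

/-- renaming of the letters -/
def ren {A C : Type} (ε : A → C) (w : List (A × Bool)) : List (C × Bool) :=
  w.map fun q => (ε q.1, q.2)

theorem ren_W {A C : Type} (ε : A → C) (c x t τ : A) (n : ℕ) :
    ren ε (W c x t τ n) = W (ε c) (ε x) (ε t) (ε τ) n := by
  simp [ren, W]

theorem mk_ren {A C : Type} (ε : A ≃ C) (w : List (A × Bool)) :
    FreeGroup.freeGroupCongr ε (FreeGroup.mk w) = FreeGroup.mk (ren ε w) := by
  rw [FreeGroup.freeGroupCongr_apply, FreeGroup.map.mk]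
  rfl

theorem filterMap_ren {A : Type} (N : ℕ) (ε : A ≃ Fin N) (w : List (A × Bool)) :
    (ren (fun a => (ε a).val) w).filterMap
      (fun q => if h : q.1 < N then some ((⟨q.1, h⟩ : Fin N), q.2) else none) = ren ε w := by
  induction w with
  | nil => rfl
  | cons q w ih =>
    have h1 : ren (fun a => (ε a).val) (q :: w) =
      ((ε q.1).val, q.2) :: ren (fun a => (ε a).val) w := rfl
    have h2 : ren ε (q :: w) = (ε q.1, q.2) :: ren ε w := rfl
    rw [h1, h2, List.filterMap_cons, ih]
    simp

theorem code : StmCode := by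
  intro A _ c x t τ L
  obtain ⟨N, ⟨ε⟩⟩ : ∃ N, Nonempty (A ≃ Fin N) := ⟨_, ⟨Fintype.equivFin A⟩⟩
  refine ⟨fun n => (N, (W (ε c).val (ε x).val (ε t).val (ε τ).val n) ::
    L.map (ren (fun a => (ε a).val))), ?_, fun n => ?_⟩
  · exact (Primrec.pair (Primrec.const N) (Primrec.list_cons.comp (prim_W _ _ _ _)
      (Primrec.const _))).to_comp
  · have e := PresentedGroup.equivPresentedGroup
      {g : FreeGroup A | ∃ w ∈ W c x t τ n :: L, g = FreeGroup.mk w} ε
    have h : (FreeGroup.freeGroupCongr ε) '' {g : FreeGroup A | ∃ w ∈ W c x t τ n :: L,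
        g = FreeGroup.mk w} = relSet (N, (W (ε c).val (ε x).val (ε t).val (ε τ).val n) ::
        L.map (ren (fun a => (ε a).val))) := by
      have h1 : (W (ε c).val (ε x).val (ε t).val (ε τ).val n) ::
        L.map (ren (fun a => (ε a).val)) = (W c x t τ n :: L).map (ren (fun a => (ε a).val)) := by
        rw [List.map_cons, ren_W]
      rw [h1]
      ext g
      constructor
      · rintro ⟨y, ⟨w, hw, rfl⟩, rfl⟩
        refine ⟨ren (fun a => (ε a).val) w, List.mem_map_of_mem hw, ?_⟩
        rw [mk_ren]
        show _ = FreeGroup.mk ((ren (fun a => (ε a).val) w).filterMap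
          (fun q => if h : q.1 < N then some ((⟨q.1, h⟩ : Fin N), q.2) else none))
        rw [filterMap_ren]
      · rintro ⟨w', hw', rfl⟩
        obtain ⟨w, hw, rfl⟩ := List.mem_map.1 hw'
        refine ⟨FreeGroup.mk w, ⟨w, hw, rfl⟩, ?_⟩
        rw [mk_ren]
        show _ = FreeGroup.mk ((ren (fun a => (ε a).val) w).filterMap
          (fun q => if h : q.1 < N then some ((⟨q.1, h⟩ : Fin N), q.2) else none))
        rw [filterMap_ren]
    rw [h] at e
    exact ⟨e.symm⟩

end Pool.Agent.T2H50.ISO
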