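import Pool.Agent.Y817.ISO.Stm

/-!
Part GRAPH of project ISO (frozen statement S14615).
-/

set_option autoImplicit false

namespace Pool.Agent.T2H50.ISO

open Pool.Agent.Y817.ISO Pool.Agent.Helper844.Sys

/-- a rule with an arbitrary finite index set for the parameters -/
structure RD (P J : Type) where
  A : Type
  fin : Fintype A
  src : P
  tgt : P
  μ : (A → ℤ) →+ (J → ℤ)
  ν : (A → ℤ) →+ (J → ℤ)
  hμ : Function.Injective μ
  hν : Function.Injective ν
  a : J → ℤ
  b : J → ℤ

/-- reindexing -/
noncomputable def re (A : Type) [Fintype A] : (Fin (Fintype.card A) → ℤ) ≃+ (A → ℤ) where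
  toFun w := w ∘ Fintype.equivFin A
  invFun w := w ∘ (Fintype.equivFin A).symm
  left_inv w := by funext x; simp
  right_inv w := by funext x; simp
  map_add' v w := rfl

/-- the rules -/
noncomputable def toRules {P ι J : Type} (F : ι → RD P J) : Rules P ι J where
  dim i := @Fintype.card (F i).A (F i).fin
  src i := (F i).src
  tgt i := (F i).tgt
  μ i := (F i).μ.comp (@re (F i).A (F i).fin).toAddMonoidHom
  ν i := (F i).ν.comp (@re (F i).A (F i).fin).toAddMonoidHom
  a i := (F i).a
  b i := (F i).b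
  μ_inj i := (F i).hμ.comp (@re (F i).A (F i).fin).injective
  ν_inj i := (F i).hν.comp (@re (F i).A (F i).fin).injective

theorem step_iff {P ι J : Type} (F : ι → RD P J) (x y : P × (J → ℤ)) :
    Step (toRules F) x y ↔ ∃ (i : ι) (w : (F i).A → ℤ), x = ((F i).src, (F i).μ w + (F i).a) ∧
      y = ((F i).tgt, (F i).ν w + (F i).b) := by
  constructor
  · rintro ⟨i, w⟩
    exact ⟨i, @re (F i).A (F i).fin w, rfl, rfl⟩
  · rintro ⟨i, w, rfl, rfl⟩
    have h := Step.mk (D := toRules F) i ((@re (F i).A (F i).fin).symm w)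
    have e : (@re (F i).A (F i).fin) ((@re (F i).A (F i).fin).symm w) = w :=
      (@re (F i).A (F i).fin).apply_symm_apply w
    have e1 : (toRules F).μ i ((@re (F i).A (F i).fin).symm w) = (F i).μ w := by
      show (F i).μ (@re (F i).A (F i).fin ((@re (F i).A (F i).fin).symm w)) = _
      rw [e]
    have e2 : (toRules F).ν i ((@re (F i).A (F i).fin).symm w) = (F i).ν w := by
      show (F i).ν (@re (F i).A (F i).fin ((@re (F i).A (F i).fin).symm w)) = _
      rw [e]
    rw [e1, e2] at h
    exact h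

theorem eqv_inv {P ι J : Type} (F : ι → RD P J) (C : P × (J → ℤ) → Prop)
    (hC : ∀ i w, C ((F i).src, (F i).μ w + (F i).a) ↔ C ((F i).tgt, (F i).ν w + (F i).b))
    (x y : P × (J → ℤ)) (h : Relation.EqvGen (Step (toRules F)) x y) : C x ↔ C y := by
  induction h with
  | rel x y hs =>
    rw [step_iff] at hs
    obtain ⟨i, w, rfl, rfl⟩ := hs
    exact hC i w
  | refl x => exact Iff.rfl
  | symm x y _ ih => exact ih.symm
  | trans x y z _ _ ih1 ih2 => exact ih1.trans ih2

section
variable {X : Type}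

/-- the vectors -/
def vec (v : X → ℤ) (a c : ℤ) : X ⊕ Bool → ℤ := Sum.elim v (fun b => cond b c a)

theorem vec_self (x : X ⊕ Bool → ℤ) :
    vec (fun j => x (Sum.inl j)) (x (Sum.inr false)) (x (Sum.inr true)) = x := by
  funext j
  rcases j with j | b
  · rfl
  · cases b <;> rfl

theorem vec_add (v v' : X → ℤ) (a a' c c' : ℤ) :
    vec v a c + vec v' a' c' = vec (v + v') (a + a') (c + c') := by
  funext j
  rcases j with j | b
  · rfl
  · cases b <;> rfl

/-- the vectors with zero auxiliary part -/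
def hX : (X → ℤ) →+ (X ⊕ Bool → ℤ) where
  toFun v := vec v 0 0
  map_zero' := by
    funext j
    rcases j with j | b
    · rfl
    · cases b <;> rfl
  map_add' v w := by rw [vec_add]; rfl

theorem hX_inj : Function.Injective (hX : (X → ℤ) →+ (X ⊕ Bool → ℤ)) := by
  intro v w h
  funext j
  exact congrFun h (Sum.inl j)

/-- the entrance of the check of an equation -/
def hE (q : Eqn X) : (X → ℤ) →+ (X ⊕ Bool → ℤ) where
  toFun v := vec v (q.a * v q.k + q.b * v q.l + q.c * v q.m) (v q.j)
  map_zero' := by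
    funext j
    rcases j with j | b
    · rfl
    · cases b <;> simp [vec]
  map_add' v w := by
    rw [vec_add]
    congr 1
    simp only [Pi.add_apply]
    ring

theorem hE_inj (q : Eqn X) : Function.Injective (hE q) := by
  intro v w h
  funext j
  exact congrFun h (Sum.inl j)

/-- the loop of the check of an equation -/
def hL (q : Eqn X) : (X ⊕ Bool → ℤ) →+ (X ⊕ Bool → ℤ) where
  toFun x := vec (fun j => x (Sum.inl j)) (x (Sum.inr false) + q.e * x (Sum.inl q.i))
    (x (Sum.inr true))
  map_zero' := by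
    funext j
    rcases j with j | b
    · rfl
    · cases b <;> simp [vec]
  map_add' v w := by
    rw [vec_add]
    congr 1
    simp only [Pi.add_apply]
    ring

theorem hL_inj (q : Eqn X) : Function.Injective (hL q) := by
  intro v w h
  have h1 : ∀ j, v (Sum.inl j) = w (Sum.inl j) := fun j => congrFun h (Sum.inl j)
  have h2 : v (Sum.inr true) = w (Sum.inr true) := congrFun h (Sum.inr true)
  have h3 : v (Sum.inr false) + q.e * v (Sum.inl q.i) = w (Sum.inr false) + q.e * w (Sum.inl q.i) :=
    congrFun h (Sum.inr false)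
  rw [h1] at h3
  have h4 := add_right_cancel h3
  funext j
  rcases j with j | b
  · exact h1 j
  · cases b
    · exact h4
    · exact h2

variable [DecidableEq X]

/-- the multiples of a basis vector -/
def hS (n : X) : (Unit → ℤ) →+ (X ⊕ Bool → ℤ) where
  toFun w := Pi.single (Sum.inl n) (w ())
  map_zero' := by simp
  map_add' v w := by
    rw [← Pi.single_add]; rfl

theorem hS_inj (n : X) : Function.Injective (hS n) := by
  intro v w h
  funext u
  have := congrFun h (Sum.inl n)
  simpa [hS] using this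

theorem single_vec (n : X) (k : ℤ) :
    (Pi.single (Sum.inl n) k : X ⊕ Bool → ℤ) = vec (Pi.single n k) 0 0 := by
  funext j
  rcases j with j | b
  · by_cases h : j = n
    · subst h; simp [vec]
    · have : (Sum.inl j : X ⊕ Bool) ≠ Sum.inl n := fun h' => h (Sum.inl_injective h')
      rw [Pi.single_eq_of_ne this]
      simp [vec, h]
  · cases b <;> simp [vec]

/-- the states -/
abbrev St (N : ℕ) : Type := Fin 3 ⊕ (Fin (N + 1) ⊕ Fin N)

/-- the start state -/
abbrev sB {N : ℕ} : St N := Sum.inl 0
/-- the guess with `n` fixed -/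
abbrev sn {N : ℕ} : St N := Sum.inl 1
/-- the guess with `m` fixed -/
abbrev sm {N : ℕ} : St N := Sum.inl 2
/-- the states of the check -/
abbrev sc {N : ℕ} (s : Fin (N + 1)) : St N := Sum.inr (Sum.inl s)
/-- the loop of the check -/
abbrev sl {N : ℕ} (s : Fin N) : St N := Sum.inr (Sum.inr s)

/-- the index set of the rules -/
abbrev RI (X : Type) (N : ℕ) : Type := (Fin 4 ⊕ (X ⊕ X)) ⊕ (Fin 3 × Fin N)

/-- the rules -/
def FF [Fintype X] (n m : X) (L : List (Eqn X)) : RI X L.length → RD (St L.length) (X ⊕ Bool)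
  | Sum.inl (Sum.inl 0) => ⟨Unit, inferInstance, sB, sn, hS n, hS n, hS_inj n, hS_inj n, 0, 0⟩
  | Sum.inl (Sum.inl 1) => ⟨X ⊕ Bool, inferInstance, sn, sc 0, AddMonoidHom.id _,
      AddMonoidHom.id _, Function.injective_id, Function.injective_id, 0, 0⟩
  | Sum.inl (Sum.inl 2) => ⟨X ⊕ Bool, inferInstance, sc (Fin.last _), sm, AddMonoidHom.id _,
      AddMonoidHom.id _, Function.injective_id, Function.injective_id, 0, 0⟩
  | Sum.inl (Sum.inl 3) => ⟨Unit, inferInstance, sm, sB, hS m, hS n, hS_inj m, hS_inj n, 0, 0⟩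
  | Sum.inl (Sum.inr (Sum.inl j)) => ⟨X ⊕ Bool, inferInstance, sn, sn, AddMonoidHom.id _,
      AddMonoidHom.id _, Function.injective_id, Function.injective_id, 0,
      if j = n then 0 else Pi.single (Sum.inl j) 1⟩
  | Sum.inl (Sum.inr (Sum.inr j)) => ⟨X ⊕ Bool, inferInstance, sm, sm, AddMonoidHom.id _,
      AddMonoidHom.id _, Function.injective_id, Function.injective_id, 0,
      if j = m then 0 else Pi.single (Sum.inl j) 1⟩
  | Sum.inr (0, s) => ⟨X, inferInstance, sc s.castSucc, sl s, hX, hE (L.get s), hX_inj,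
      hE_inj _, 0, vec 0 (L.get s).d 0⟩
  | Sum.inr (1, s) => ⟨X ⊕ Bool, inferInstance, sl s, sl s, AddMonoidHom.id _, hL (L.get s),
      Function.injective_id, hL_inj _, 0, vec 0 0 (-1)⟩
  | Sum.inr (2, s) => ⟨X, inferInstance, sl s, sc s.succ, hX, hX, hX_inj, hX_inj, 0, 0⟩

/-- the first `s` equations hold -/
def Fst (L : List (Eqn X)) (s : ℕ) (v : X → ℤ) : Prop :=
  ∀ t : Fin L.length, t.val < s → (L.get t).Holds v

/-- the equations from the number `s` on hold -/
def Lst (L : List (Eqn X)) (s : ℕ) (v : X → ℤ) : Prop :=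
  ∀ t : Fin L.length, s ≤ t.val → (L.get t).Holds v

/-- the invariant -/
def Inv (n m : X) (L : List (Eqn X)) (S : ℤ → Prop) : St L.length × (X ⊕ Bool → ℤ) → Prop
  | (Sum.inl 0, x) => ∃ k, S k ∧ x = Pi.single (Sum.inl n) k
  | (Sum.inl 1, x) => S (x (Sum.inl n)) ∧ x (Sum.inr false) = 0 ∧ x (Sum.inr true) = 0
  | (Sum.inl 2, x) => S (x (Sum.inl m)) ∧ x (Sum.inr false) = 0 ∧ x (Sum.inr true) = 0
  | (Sum.inr (Sum.inl s), x) => x (Sum.inr false) = 0 ∧ x (Sum.inr true) = 0 ∧
      ((Fst L s.val (fun j => x (Sum.inl j)) ∧ S (x (Sum.inl n))) ∨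
        (Lst L s.val (fun j => x (Sum.inl j)) ∧ S (x (Sum.inl m))))
  | (Sum.inr (Sum.inr s), x) =>
      (Fst L s.val (fun j => x (Sum.inl j)) ∧ S (x (Sum.inl n)) ∧
        x (Sum.inr false) + (L.get s).e * x (Sum.inl (L.get s).i) * x (Sum.inr true) =
          (L.get s).e * (x (Sum.inl (L.get s).i) * x (Sum.inl (L.get s).j)) +
          (L.get s).a * x (Sum.inl (L.get s).k) + (L.get s).b * x (Sum.inl (L.get s).l) +
          (L.get s).c * x (Sum.inl (L.get s).m) + (L.get s).d) ∨
        (Lst L (s.val + 1) (fun j => x (Sum.inl j)) ∧ S (x (Sum.inl m)) ∧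
          x (Sum.inr false) + (L.get s).e * x (Sum.inl (L.get s).i) * x (Sum.inr true) = 0)

theorem fst_succ (L : List (Eqn X)) (s : Fin L.length) (v : X → ℤ) :
    Fst L (s.val + 1) v ↔ Fst L s.val v ∧ (L.get s).Holds v := by
  constructor
  · intro h
    exact ⟨fun t ht => h t (by omega), h s (by omega)⟩
  · rintro ⟨h1, h2⟩ t ht
    rcases Nat.lt_succ_iff_lt_or_eq.1 ht with h | h
    · exact h1 t h
    · have : t = s := Fin.ext h
      rw [this]; exact h2

theorem lst_succ (L : List (Eqn X)) (s : Fin L.length) (v : X → ℤ) :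
    Lst L s.val v ↔ Lst L (s.val + 1) v ∧ (L.get s).Holds v := by
  constructor
  · intro h
    exact ⟨fun t ht => h t (by omega), h s le_rfl⟩
  · rintro ⟨h1, h2⟩ t ht
    rcases Nat.lt_or_eq_of_le ht with h | h
    · exact h1 t h
    · have : t = s := Fin.ext h.symm
      rw [this]; exact h2

theorem inv_step [Fintype X] (n m : X) (L : List (Eqn X)) (S : ℤ → Prop)
    (hS' : ∀ v : X → ℤ, (∀ q ∈ L, q.Holds v) → (S (v n) ↔ S (v m)))
    (i : RI X L.length) (w : (FF n m L i).A → ℤ) :
    Inv n m L S ((FF n m L i).src, (FF n m L i).μ w + (FF n m L i).a) ↔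
      Inv n m L S ((FF n m L i).tgt, (FF n m L i).ν w + (FF n m L i).b) := by
  have hall : ∀ v : X → ℤ, Fst L L.length v → ∀ q ∈ L, q.Holds v := by
    intro v h q hq
    obtain ⟨t, rfl⟩ := List.get_of_mem hq
    exact h t t.2
  have hall' : ∀ v : X → ℤ, Lst L 0 v → ∀ q ∈ L, q.Holds v := by
    intro v h q hq
    obtain ⟨t, rfl⟩ := List.get_of_mem hq
    exact h t (Nat.zero_le _)
  match i, w with
  | Sum.inl (Sum.inl 0), w =>
    suffices hh : ∀ w : Unit → ℤ, (Inv n m L S (sB, hS n w + 0) ↔ Inv n m L S (sn, hS n w + 0)) from hh w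
    intro w
    rw [add_zero]
    simp only [Inv, hS]
    constructor
    · rintro ⟨k, hk, h⟩
      have := congrFun h (Sum.inl n)
      simp only [AddMonoidHom.coe_mk, ZeroHom.coe_mk, Pi.single_eq_same] at this
      refine ⟨by simpa [this] using hk, by simp, by simp⟩
    · rintro ⟨h, -, -⟩
      exact ⟨w (), by simpa using h, rfl⟩
  | Sum.inl (Sum.inl 1), w =>
    suffices hh : ∀ w : X ⊕ Bool → ℤ, (Inv n m L S (sn, w + 0) ↔ Inv n m L S (sc 0, w + 0)) from hh w
    intro w
    rw [add_zero]
    simp only [Inv]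
    constructor
    · rintro ⟨h1, h2, h3⟩
      exact ⟨h2, h3, Or.inl ⟨fun t ht => absurd ht (by simp), h1⟩⟩
    · rintro ⟨h2, h3, (⟨-, h1⟩ | ⟨h4, h5⟩)⟩
      · exact ⟨h1, h2, h3⟩
      · exact ⟨(hS' _ (hall' _ h4)).2 h5, h2, h3⟩
  | Sum.inl (Sum.inl 2), w =>
    suffices hh : ∀ w : X ⊕ Bool → ℤ, (Inv n m L S (sc (Fin.last _), w + 0) ↔ Inv n m L S (sm, w + 0)) from hh w
    intro w
    rw [add_zero]
    simp only [Inv]
    constructor
    · rintro ⟨h2, h3, (⟨h4, h1⟩ | ⟨h4, h5⟩)⟩
      · exact ⟨(hS' _ (hall _ h4)).1 h1, h2, h3⟩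
      · exact ⟨h5, h2, h3⟩
    · rintro ⟨h1, h2, h3⟩
      refine ⟨h2, h3, Or.inr ⟨fun t ht => ?_, h1⟩⟩
      have := t.2
      simp only [Fin.val_last] at ht
      omega
  | Sum.inl (Sum.inl 3), w =>
    suffices hh : ∀ w : Unit → ℤ, (Inv n m L S (sm, hS m w + 0) ↔ Inv n m L S (sB, hS n w + 0)) from hh w
    intro w
    rw [add_zero, add_zero]
    simp only [Inv, hS]
    constructor
    · rintro ⟨h, -, -⟩
      exact ⟨w (), by simpa using h, rfl⟩
    · rintro ⟨k, hk, h⟩
      have := congrFun h (Sum.inl n)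
      simp only [AddMonoidHom.coe_mk, ZeroHom.coe_mk, Pi.single_eq_same] at this
      refine ⟨by simpa [this] using hk, by simp, by simp⟩
  | Sum.inl (Sum.inr (Sum.inl j)), w =>
    suffices hh : ∀ w : X ⊕ Bool → ℤ, (Inv n m L S (sn, w + 0) ↔
      Inv n m L S (sn, w + (if j = n then 0 else Pi.single (Sum.inl j) 1))) from hh w
    intro w
    rw [add_zero]
    by_cases h : j = n
    · rw [if_pos h, add_zero]
    · rw [if_neg h]
      have h1 : (Sum.inl n : X ⊕ Bool) ≠ Sum.inl j := fun h' => h (Sum.inl_injective h').symm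
      simp only [Inv, Pi.add_apply, Pi.single_eq_of_ne h1, add_zero]
      simp
  | Sum.inl (Sum.inr (Sum.inr j)), w =>
    suffices hh : ∀ w : X ⊕ Bool → ℤ, (Inv n m L S (sm, w + 0) ↔
      Inv n m L S (sm, w + (if j = m then 0 else Pi.single (Sum.inl j) 1))) from hh w
    intro w
    rw [add_zero]
    by_cases h : j = m
    · rw [if_pos h, add_zero]
    · rw [if_neg h]
      have h1 : (Sum.inl m : X ⊕ Bool) ≠ Sum.inl j := fun h' => h (Sum.inl_injective h').symm
      simp only [Inv, Pi.add_apply, Pi.single_eq_of_ne h1, add_zero]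
      simp
  | Sum.inr (0, s), w =>
    suffices hh : ∀ w : X → ℤ, (Inv n m L S (sc s.castSucc, vec w 0 0 + 0) ↔ Inv n m L S (sl s,
      vec w ((L.get s).a * w (L.get s).k + (L.get s).b * w (L.get s).l +
        (L.get s).c * w (L.get s).m) (w (L.get s).j) + vec 0 (L.get s).d 0)) from hh w
    intro w
    rw [add_zero, vec_add, add_zero]
    simp only [Inv, vec, Sum.elim_inl, Sum.elim_inr, cond_true, cond_false, add_zero, true_and,
      Fin.val_castSucc]
    rw [lst_succ]
    constructor
    · rintro (⟨h1, h2⟩ | ⟨⟨h1, h2⟩, h3⟩)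
      · exact Or.inl ⟨h1, h2, by ring⟩
      · refine Or.inr ⟨h1, h3, ?_⟩
        unfold Eqn.Holds at h2
        linarith
    · rintro (⟨h1, h2, -⟩ | ⟨h1, h3, h2⟩)
      · exact Or.inl ⟨h1, h2⟩
      · refine Or.inr ⟨⟨h1, ?_⟩, h3⟩
        unfold Eqn.Holds
        linarith
  | Sum.inr (1, s), w =>
    suffices hh : ∀ w : X ⊕ Bool → ℤ, (Inv n m L S (sl s, w + 0) ↔ Inv n m L S (sl s,
      vec (fun j => w (Sum.inl j)) (w (Sum.inr false) + (L.get s).e * w (Sum.inl (L.get s).i))
        (w (Sum.inr true)) + vec 0 0 (-1))) from hh w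
    intro w
    rw [add_zero, vec_add, add_zero, add_zero]
    simp only [Inv, vec, Sum.elim_inl, Sum.elim_inr, cond_true, cond_false]
    have e : w (Sum.inr false) + (L.get s).e * w (Sum.inl (L.get s).i) +
        (L.get s).e * w (Sum.inl (L.get s).i) * (w (Sum.inr true) + -1) =
        w (Sum.inr false) + (L.get s).e * w (Sum.inl (L.get s).i) * w (Sum.inr true) := by ring
    rw [e]
  | Sum.inr (2, s), w =>
    suffices hh : ∀ w : X → ℤ, (Inv n m L S (sl s, vec w 0 0 + 0) ↔ Inv n m L S (sc s.succ, vec w 0 0 + 0)) from hh w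
    intro w
    rw [add_zero]
    simp only [Inv, vec, Sum.elim_inl, Sum.elim_inr, cond_true, cond_false, true_and,
      Fin.val_succ]
    rw [fst_succ]
    constructor
    · rintro (⟨h1, h2, h3⟩ | ⟨h1, h2, -⟩)
      · refine Or.inl ⟨⟨h1, ?_⟩, h2⟩
        unfold Eqn.Holds
        linarith
      · exact Or.inr ⟨h1, h2⟩
    · rintro (⟨⟨h1, h3⟩, h2⟩ | ⟨h1, h2⟩)
      · refine Or.inl ⟨h1, h2, ?_⟩
        unfold Eqn.Holds at h3
        linarith
      · exact Or.inr ⟨h1, h2, by ring⟩

/-- connectedness -/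
abbrev EE [Fintype X] (n m : X) (L : List (Eqn X)) (x y : St L.length × (X ⊕ Bool → ℤ)) : Prop :=
  Relation.EqvGen (Step (toRules (FF n m L))) x y

theorem ee_step [Fintype X] (n m : X) (L : List (Eqn X)) (i : RI X L.length)
    (w : (FF n m L i).A → ℤ) : EE n m L ((FF n m L i).src, (FF n m L i).μ w + (FF n m L i).a)
      ((FF n m L i).tgt, (FF n m L i).ν w + (FF n m L i).b) :=
  Relation.EqvGen.rel _ _ ((step_iff _ _ _).2 ⟨i, w, rfl, rfl⟩)

/-- a relation which is an equivalence and invariant under the translation by one is invariant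
under all translations -/
theorem int_chain {α : Type} (E : α → α → Prop) (hE : Equivalence E) (f : ℤ → α)
    (h : ∀ k, E (f k) (f (k + 1))) (a b : ℤ) : E (f a) (f b) := by
  have h0 : ∀ a, E (f 0) (f a) := by
    intro a
    induction a using Int.induction_on with
    | zero => exact hE.refl _
    | succ k ih => exact hE.trans ih (h _)
    | pred k ih =>
      refine hE.trans ih (hE.symm ?_)
      have := h (-(k : ℤ) - 1)
      rw [sub_add_cancel] at this
      exact this
  exact hE.trans (hE.symm (h0 a)) (h0 b)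

theorem ee_equiv [Fintype X] (n m : X) (L : List (Eqn X)) : Equivalence (EE n m L) :=
  Relation.EqvGen.is_equivalence _

theorem guess [Fintype X] (n m : X) (L : List (Eqn X)) (σ : St L.length) (o : X)
    (hσ : ∀ (j : X) (x : X ⊕ Bool → ℤ), j ≠ o → EE n m L (σ, x) (σ, x + Pi.single (Sum.inl j) 1))
    (v v' : X → ℤ) (h : v o = v' o) : EE n m L (σ, vec v 0 0) (σ, vec v' 0 0) := by
  have h1 : ∀ (j : X) (x : X ⊕ Bool → ℤ) (k k' : ℤ), j ≠ o →
      EE n m L (σ, x + Pi.single (Sum.inl j) k) (σ, x + Pi.single (Sum.inl j) k') := by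
    intro j x k k' hj
    refine int_chain (EE n m L) (ee_equiv n m L) (fun k => (σ, x + Pi.single (Sum.inl j) k)) ?_ k k'
    intro k
    have := hσ j (x + Pi.single (Sum.inl j) k) hj
    rw [add_assoc, ← Pi.single_add] at this
    exact this
  -- change the coordinates in a finset
  have h2 : ∀ (T : Finset X), EE n m L (σ, vec v 0 0)
      (σ, vec (fun j => if j ∈ T then v' j else v j) 0 0) := by
    intro T
    induction T using Finset.induction_on with
    | empty => simpa using (ee_equiv n m L).refl _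
    | insert a T ha ih =>
      refine (ee_equiv n m L).trans ih ?_
      by_cases hao : a = o
      · have e : (fun j => if j ∈ insert a T then v' j else v j) =
            fun j => if j ∈ T then v' j else v j := by
          funext j
          by_cases hj : j = a
          · subst hj
            rw [if_pos (Finset.mem_insert_self _ _), if_neg ha, hao, h]
          · simp [Finset.mem_insert, hj]
        rw [e]
        exact (ee_equiv n m L).refl _
      · have := h1 a (vec (fun j => if j = a then 0 else if j ∈ T then v' j else v j) 0 0)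
          (v a) (v' a) hao
        have e1 : (vec (fun j => if j = a then 0 else if j ∈ T then v' j else v j) 0 0 +
            Pi.single (Sum.inl a) (v a) : X ⊕ Bool → ℤ) =
            vec (fun j => if j ∈ T then v' j else v j) 0 0 := by
          rw [single_vec, vec_add, add_zero]
          congr 1
          funext j
          by_cases hj : j = a
          · subst hj; simp [ha]
          · simp [hj]
        have e2 : (vec (fun j => if j = a then 0 else if j ∈ T then v' j else v j) 0 0 +
            Pi.single (Sum.inl a) (v' a) : X ⊕ Bool → ℤ) =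
            vec (fun j => if j ∈ insert a T then v' j else v j) 0 0 := by
          rw [single_vec, vec_add, add_zero]
          congr 1
          funext j
          by_cases hj : j = a
          · subst hj; simp
          · simp [hj]
        rw [e1, e2] at this
        exact this
  have := h2 Finset.univ
  simpa using this

theorem check [Fintype X] (n m : X) (L : List (Eqn X)) (v : X → ℤ) (hv : ∀ q ∈ L, q.Holds v) :
    EE n m L (sc 0, vec v 0 0) (sc (Fin.last _), vec v 0 0) := by
  have h1 : ∀ s : Fin L.length, EE n m L (sc s.castSucc, vec v 0 0) (sc s.succ, vec v 0 0) := by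
    intro s
    have h2 : EE n m L (sc s.castSucc, vec v 0 0 + 0) (sl s,
      vec v ((L.get s).a * v (L.get s).k + (L.get s).b * v (L.get s).l +
        (L.get s).c * v (L.get s).m) (v (L.get s).j) + vec 0 (L.get s).d 0) :=
      ee_step n m L (Sum.inr (0, s)) v
    rw [add_zero, vec_add, add_zero, add_zero] at h2
    have h3 : EE n m L (sl s, vec v 0 0 + 0) (sc s.succ, vec v 0 0 + 0) :=
      ee_step n m L (Sum.inr (2, s)) v
    rw [add_zero] at h3
    refine (ee_equiv n m L).trans h2 ((ee_equiv n m L).trans ?_ h3)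
    have h4 : ∀ a c : ℤ, EE n m L (sl s, vec v a c)
        (sl s, vec v (a + (L.get s).e * v (L.get s).i) (c - 1)) := by
      intro a c
      have h5 : EE n m L (sl s, vec v a c + 0) (sl s,
          vec v (a + (L.get s).e * v (L.get s).i) c + vec 0 0 (-1)) :=
        ee_step n m L (Sum.inr (1, s)) (vec v a c)
      rw [add_zero, vec_add, add_zero, add_zero, ← sub_eq_add_neg] at h5
      exact h5
    have h6 := int_chain (EE n m L) (ee_equiv n m L)
      (fun c => (sl s, vec v (-((L.get s).e * v (L.get s).i * c)) c)) (by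
        intro c
        have := h4 (-((L.get s).e * v (L.get s).i * (c + 1))) (c + 1)
        rw [add_sub_cancel_right] at this
        have e : -((L.get s).e * v (L.get s).i * (c + 1)) + (L.get s).e * v (L.get s).i =
            -((L.get s).e * v (L.get s).i * c) := by ring
        rw [e] at this
        exact (ee_equiv n m L).symm this) (v (L.get s).j) 0
    have e1 : (L.get s).a * v (L.get s).k + (L.get s).b * v (L.get s).l +
        (L.get s).c * v (L.get s).m + (L.get s).d = -((L.get s).e * v (L.get s).i * v (L.get s).j) := by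
      have := hv (L.get s) (List.get_mem _ _)
      unfold Eqn.Holds at this
      linarith
    have e2 : -((L.get s).e * v (L.get s).i * 0) = 0 := by ring
    simp only [e2] at h6
    rw [e1]
    exact h6
  have h2 : ∀ s : Fin (L.length + 1), EE n m L (sc 0, vec v 0 0) (sc s, vec v 0 0) := by
    intro s
    induction s using Fin.induction with
    | zero => exact (ee_equiv n m L).refl _
    | succ s ih => exact (ee_equiv n m L).trans ih (h1 s)
  exact h2 _

end

theorem graph : StmGraph := by
  classical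
  intro R hR X _ n m L hnm hdef
  refine ⟨St L.length, RI X L.length, X ⊕ Bool, inferInstance, inferInstance, inferInstance,
    inferInstance, toRules (FF n m L), sB, Sum.inl n, ?_⟩
  let E : ℤ → ℤ → Prop := fun k k' => k = k' ∨ ∃ a b : ℕ, k = a ∧ k' = b ∧ R a b
  have hEtr : ∀ a b c, E a b → E b c → E a c := by
    rintro a b c (rfl | ⟨x, y, rfl, rfl, h1⟩) (rfl | ⟨z, w, h2, rfl, h3⟩)
    · exact Or.inl rfl
    · exact Or.inr ⟨z, w, h2, rfl, h3⟩
    · exact Or.inr ⟨x, y, rfl, rfl, h1⟩
    · have h4 : y = z := by exact_mod_cast h2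
      subst h4
      exact Or.inr ⟨x, w, rfl, rfl, hR.trans h1 h3⟩
  have hEsy : ∀ a b, E a b → E b a := by
    rintro a b (rfl | ⟨x, y, rfl, rfl, h1⟩)
    · exact Or.inl rfl
    · exact Or.inr ⟨y, x, rfl, rfl, hR.symm h1⟩
  intro k k'
  constructor
  · intro h
    have h1 := eqv_inv (FF n m L) (Inv n m L (fun z => E k z)) (inv_step n m L _ (by
      intro v hv
      obtain ⟨a', b', h2, h3, h4⟩ := (hdef (v n) (v m)).1 ⟨v, rfl, rfl, hv⟩
      have h5 : E (v n) (v m) := Or.inr ⟨a', b', h2, h3, h4⟩
      exact ⟨fun h6 => hEtr _ _ _ h6 h5, fun h6 => hEtr _ _ _ h6 (hEsy _ _ h5)⟩)) _ _ h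
    obtain ⟨z, hz, h2⟩ := h1.1 ⟨k, Or.inl rfl, rfl⟩
    have h3 := congrFun h2 (Sum.inl n)
    simp only [Pi.single_eq_same] at h3
    rw [h3]
    exact hz
  · rintro (rfl | ⟨a, b, rfl, rfl, h⟩)
    · exact Relation.EqvGen.refl _
    · obtain ⟨v, hn, hm, hv⟩ := (hdef a b).2 ⟨a, b, rfl, rfl, h⟩
      have eq := ee_equiv n m L
      have s1 : EE n m L (sB, hS n (fun _ => (a : ℤ)) + 0) (sn, hS n (fun _ => (a : ℤ)) + 0) :=
        ee_step n m L (Sum.inl (Sum.inl 0)) (fun _ => (a : ℤ))
      rw [add_zero] at s1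
      have s2 : EE n m L (sn, vec (Pi.single n (a : ℤ)) 0 0) (sn, vec v 0 0) := by
        refine guess n m L sn n ?_ _ _ ?_
        · intro j x hj
          have : EE n m L (sn, x + 0) (sn, x + (if j = n then 0 else Pi.single (Sum.inl j) 1)) :=
            ee_step n m L (Sum.inl (Sum.inr (Sum.inl j))) x
          rw [add_zero, if_neg hj] at this
          exact this
        · rw [Pi.single_eq_same, hn]
      have s3 : EE n m L (sn, vec v 0 0 + 0) (sc 0, vec v 0 0 + 0) :=
        ee_step n m L (Sum.inl (Sum.inl 1)) (vec v 0 0)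
      rw [add_zero] at s3
      have s4 := check n m L v hv
      have s5 : EE n m L (sc (Fin.last _), vec v 0 0 + 0) (sm, vec v 0 0 + 0) :=
        ee_step n m L (Sum.inl (Sum.inl 2)) (vec v 0 0)
      rw [add_zero] at s5
      have s6 : EE n m L (sm, vec v 0 0) (sm, vec (Pi.single m (b : ℤ)) 0 0) := by
        refine guess n m L sm m ?_ _ _ ?_
        · intro j x hj
          have : EE n m L (sm, x + 0) (sm, x + (if j = m then 0 else Pi.single (Sum.inl j) 1)) :=
            ee_step n m L (Sum.inl (Sum.inr (Sum.inr j))) x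
          rw [add_zero, if_neg hj] at this
          exact this
        · rw [Pi.single_eq_same, hm]
      have s7 : EE n m L (sm, hS m (fun _ => (b : ℤ)) + 0) (sB, hS n (fun _ => (b : ℤ)) + 0) :=
        ee_step n m L (Sum.inl (Sum.inl 3)) (fun _ => (b : ℤ))
      rw [add_zero, add_zero] at s7
      rw [← single_vec] at s2 s6
      exact eq.trans s1 (eq.trans s2 (eq.trans s3 (eq.trans s4 (eq.trans s5 (eq.trans s6 s7)))))

end Pool.Agent.T2H50.ISO
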