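import Pool.Agent.T2H50.ISO.Hnn
import Pool.Agent.Y43.CH.Syll

/-!
Parts AMUP and INV of project ISO (frozen statement S14615).
-/

set_option autoImplicit false

namespace Pool.Agent.T2H50.ISO

open Pool.Agent.Y817.ISO Monoid

/-- the cyclic group of order five -/
abbrev C5 : Type := Multiplicative (ZMod 5)

/-- the generator -/
def c5 : C5 := Multiplicative.ofAdd 1

theorem c5_pow : c5 ^ 5 = 1 := by decide

theorem c5_gen (k : C5) : ∃ n : ℕ, k = c5 ^ n := by
  refine ⟨(Multiplicative.toAdd k).val, ?_⟩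
  apply Multiplicative.toAdd.injective
  rw [toAdd_pow]
  show Multiplicative.toAdd k = _ • (1 : ZMod 5)
  rw [nsmul_one, ZMod.natCast_val, ZMod.cast_id]

/-- the homomorphism given by an element `c` with `c ^ 5 = 1` -/
def c5Hom {H : Type} [Group H] (c : H) (hc : c ^ 5 = 1) : C5 →* H where
  toFun k := c ^ (Multiplicative.toAdd k).val
  map_one' := by
    show c ^ (0 : ZMod 5).val = 1
    simp
  map_mul' a b := by
    show c ^ (Multiplicative.toAdd a + Multiplicative.toAdd b).val = _
    rw [ZMod.val_add, ← pow_add]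
    conv_rhs => rw [← Nat.mod_add_div ((Multiplicative.toAdd a).val + (Multiplicative.toAdd b).val) 5,
      pow_add, pow_mul, hc, one_pow, mul_one]

theorem c5Hom_gen {H : Type} [Group H] (c : H) (hc : c ^ 5 = 1) : c5Hom c hc c5 = c := by
  show c ^ (1 : ZMod 5).val = c
  have : (1 : ZMod 5).val = 1 := rfl
  rw [this, pow_one]

theorem c5Hom_ext {H : Type} [Group H] {f g : C5 →* H} (h : f c5 = g c5) : f = g := by
  apply MonoidHom.ext
  intro k
  obtain ⟨n, rfl⟩ := c5_gen k
  rw [map_pow, map_pow, h]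

section
variable {E U : Type} [Group E] [Group U] (β : E →* U)

/-- the embedding of `U` -/
def amU : U →* Amal β := PushoutI.of (φ := famHom β) false

/-- the other factor -/
def amE : E × C5 →* Amal β := PushoutI.of (φ := famHom β) true

theorem amE_inl (e : E) : amE β (e, 1) = amU β (β e) := by
  have h1 := PushoutI.of_apply_eq_base (famHom β) false e
  have h2 := PushoutI.of_apply_eq_base (famHom β) true e
  exact h2.trans h1.symm

theorem amUP : StmAmUP := by
  intro E U _ _ β
  refine ⟨amU β, amE β (1, c5), ?_, ?_, ?_, ?_⟩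
  · rw [← map_pow]
    have : ((1 : E), c5) ^ 5 = 1 := by
      rw [Prod.pow_mk, one_pow, c5_pow]; rfl
    rw [this, map_one]
  · intro e
    rw [← amE_inl]
    refine Commute.map ?_ (amE β)
    show ((1 : E), c5) * (e, 1) = (e, 1) * (1, c5)
    rw [Prod.mk_mul_mk, Prod.mk_mul_mk, one_mul, mul_one, mul_one, one_mul]
  · rw [eq_top_iff]
    intro x _
    have hU : ∀ u : U, amU β u ∈ Subgroup.closure (Set.range (amU β) ∪ {amE β (1, c5)}) :=
      fun u => Subgroup.subset_closure (Or.inl ⟨u, rfl⟩)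
    have hcm : amE β (1, c5) ∈ Subgroup.closure (Set.range (amU β) ∪ {amE β (1, c5)}) :=
      Subgroup.subset_closure (Or.inr rfl)
    have hE : ∀ y : E × C5, amE β y ∈ Subgroup.closure (Set.range (amU β) ∪ {amE β (1, c5)}) := by
      rintro ⟨e, k⟩
      obtain ⟨n, rfl⟩ := c5_gen k
      have : (e, c5 ^ n) = (e, 1) * ((1 : E), c5) ^ n := by
        rw [Prod.pow_mk, one_pow, Prod.mk_mul_mk, mul_one, one_mul]
      rw [this, map_mul, map_pow, amE_inl]
      exact Subgroup.mul_mem _ (hU _) (Subgroup.pow_mem _ hcm n)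
    induction x using PushoutI.induction_on with
    | of i g =>
      cases i with
      | false => exact hU g
      | true => exact hE g
    | base e =>
      have := PushoutI.of_apply_eq_base (famHom β) false e
      rw [← this]
      exact hU _
    | mul x y hx hy => exact Subgroup.mul_mem _ (hx trivial) (hy trivial)
  · intro H _ φ c' hc' hcomm
    let fE : E × C5 →* H := MonoidHom.noncommCoprod (φ.comp β) (c5Hom c' hc') (by
      intro e k
      obtain ⟨n, rfl⟩ := c5_gen k
      rw [map_pow, c5Hom_gen]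
      exact ((hcomm e).symm.pow_right n))
    let ff : ∀ b : Bool, Fam E U b →* H := fun b => match b with
      | false => φ
      | true => fE
    have hff : ∀ b, (ff b).comp (famHom β b) = φ.comp β := by
      intro b
      cases b with
      | false => rfl
      | true =>
        ext e
        show fE (e, 1) = φ (β e)
        simp [fE]
    refine ⟨PushoutI.lift ff (φ.comp β) hff, ?_, ?_⟩
    · intro x
      exact PushoutI.lift_of ff (φ.comp β) hff (i := false) x
    · have h1 : PushoutI.lift ff (φ.comp β) hff (amE β (1, c5)) = fE (1, c5) :=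
        PushoutI.lift_of ff (φ.comp β) hff (i := true) _
      rw [h1]
      simp [fE, c5Hom_gen]

end

section
variable {E U : Type} [Group E] [Group U] (β : E →* U)

theorem fam_inj (hβ : Function.Injective β) : ∀ b, Function.Injective (famHom β b) := by
  intro b
  cases b with
  | false => exact hβ
  | true =>
    intro x y h
    have : ((x, (1 : C5)) : E × C5) = (y, 1) := h
    exact (Prod.mk.inj this).1

theorem not_base (hβ : Function.Injective β) (k : C5) (hk : k ≠ 1) :
    ∀ u : Fam E U true, u⁻¹ * (show Fam E U true from ((1 : E), k)) * u ∉ (famHom β true).range := by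
  rintro ⟨e, k'⟩ ⟨e', he'⟩
  have h1 : ((e', (1 : C5)) : E × C5) = (e, k')⁻¹ * ((1 : E), k) * (e, k') := he'
  rw [Prod.inv_mk, Prod.mk_mul_mk, Prod.mk_mul_mk] at h1
  have h2 := (Prod.mk.inj h1).2
  apply hk
  have h3 : k'⁻¹ * k * k' = k := by
    rw [mul_comm k'⁻¹ k, inv_mul_cancel_right]
  rw [h3] at h2
  exact h2.symm

/-- the centraliser of a nontrivial element of `C₅` -/
theorem cent (hβ : Function.Injective β) (k : C5) (hk : k ≠ 1) (g : Amal β) :
    Commute g (amE β (1, k)) ↔ g ∈ (amE β).range := by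
  constructor
  · intro h
    refine Pool.Agent.Y43.CH.conj_factor (fam_inj β hβ) (i := true) (x := (show Fam E U true from ((1 : E), k)))
      (not_base β hβ k hk) (b := true) ?_
    refine ⟨(show Fam E U true from ((1 : E), k)), ?_⟩
    show amE β (1, k) = g⁻¹ * amE β (1, k) * g
    rw [mul_assoc, ← h.eq]
    group
  · rintro ⟨⟨e, k'⟩, rfl⟩
    refine Commute.map ?_ (amE β)
    show (e, k') * ((1 : E), k) = (1, k) * (e, k')
    rw [Prod.mk_mul_mk, Prod.mk_mul_mk, one_mul, mul_one, mul_comm]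

/-- an isomorphism of amalgams gives an isomorphism of factors -/
theorem factor_iso {E' U' : Type} [Group E'] [Group U'] (β' : E' →* U') (hU' : TF U')
    (hβ : Function.Injective β) (hβ' : Function.Injective β') (Φ : Amal β ≃* Amal β') :
    Nonempty (E × C5 ≃* E' × C5) := by
  have hc5 : (c5 : C5) ≠ 1 := by decide
  have hinj : Function.Injective (amE β) := PushoutI.of_injective (fam_inj β hβ) true
  have hinj' : Function.Injective (amE β') := PushoutI.of_injective (fam_inj β' hβ') true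
  have h5 : (Φ (amE β (1, c5))) ^ 5 = 1 := by
    rw [← map_pow, ← map_pow]
    have : ((1 : E), c5) ^ 5 = 1 := by
      rw [Prod.pow_mk, one_pow, c5_pow]; rfl
    rw [this, map_one, map_one]
  have hne : Φ (amE β (1, c5)) ≠ 1 := by
    intro h
    have h1 : amE β (1, c5) = 1 := Φ.injective (h.trans (map_one Φ).symm)
    have h2 := hinj (h1.trans (map_one _).symm)
    exact hc5 (Prod.mk.inj h2).2
  obtain ⟨d, b, x, hx, hx5⟩ := Pool.Agent.Y43.CH.amalg_torsion (fam_inj β' hβ') _ 5
    (by norm_num) h5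
  cases b with
  | false =>
    exfalso
    have h1 : x = 1 := hU' x (isOfFinOrder_iff_pow_eq_one.2 ⟨5, by norm_num, hx5⟩)
    apply hne
    rw [hx, h1, map_one]
    group
  | true =>
    obtain ⟨e, k⟩ := x
    have he5 : e ^ 5 = 1 := by
      have h1 : ((e, k) : E' × C5) ^ 5 = 1 := hx5
      rw [Prod.pow_mk] at h1
      exact (Prod.mk.inj h1).1
    have he : e = 1 := by
      apply hβ'
      rw [map_one]
      refine hU' _ (isOfFinOrder_iff_pow_eq_one.2 ⟨5, by norm_num, ?_⟩)
      rw [← map_pow, he5, map_one]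
    subst he
    have hx' : Φ (amE β (1, c5)) = d * amE β' (1, k) * d⁻¹ := hx
    have hk : k ≠ 1 := by
      rintro rfl
      apply hne
      rw [hx']
      have : amE β' (1, 1) = 1 := map_one (amE β')
      rw [this]
      group
    let Φ' : Amal β ≃* Amal β' := Φ.trans (MulAut.conj d⁻¹)
    have hΦ' : Φ' (amE β (1, c5)) = amE β' (1, k) := by
      show d⁻¹ * Φ (amE β (1, c5)) * d⁻¹⁻¹ = _
      rw [hx']
      group
    have hmap : (amE β).range.map Φ'.toMonoidHom = (amE β').range := by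
      ext y
      constructor
      · rintro ⟨g, hg, rfl⟩
        rw [← cent β' hβ' k hk, ← hΦ']
        exact ((cent β hβ c5 hc5 g).2 hg).map Φ'
      · intro hy
        refine ⟨Φ'.symm y, ?_, Φ'.apply_symm_apply y⟩
        rw [SetLike.mem_coe, ← cent β hβ c5 hc5]
        have h1 := (cent β' hβ' k hk y).2 hy
        have h2 := h1.map Φ'.symm
        rw [← hΦ', Φ'.symm_apply_apply] at h2
        exact h2
    exact ⟨(MonoidHom.ofInjective hinj).trans ((Φ'.subgroupMap _).trans
      ((MulEquiv.subgroupCongr hmap).trans (MonoidHom.ofInjective hinj').symm))⟩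

end

/-! ### The groups `B_g` -/

/-- the element `z` -/
def bz (g : ℤ) : Bg g := HNNExtension.of (Multiplicative.ofAdd 1)

/-- the element `t` -/
def bt (g : ℤ) : Bg g := HNNExtension.t

theorem of_eq_bz (g : ℤ) (a : Multiplicative ℤ) : (HNNExtension.of a : Bg g) = bz g ^ a.toAdd := by
  unfold bz
  rw [← map_zpow, ← ofAdd_zsmul]
  congr 1
  apply Multiplicative.toAdd.injective
  simp

theorem b_rel (g : ℤ) : Commute (bt g) (bz g ^ g) := by
  have h := t_comm (S := Subgroup.zpowers (Multiplicative.ofAdd g)) (Multiplicative.ofAdd g)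
    (Subgroup.mem_zpowers _)
  rw [of_eq_bz] at h
  exact h

/-- homomorphisms on `B_g` -/
theorem b_lift (g : ℤ) {H : Type} [Group H] (t z : H) (h : Commute t (z ^ g)) :
    ∃ f : Bg g →* H, f (bt g) = t ∧ f (bz g) = z := by
  refine ⟨HNNExtension.lift (zpowersHom H z) t ?_, HNNExtension.lift_t _ _ _, ?_⟩
  · intro a
    obtain ⟨k, hk⟩ := Subgroup.mem_zpowers_iff.1 a.2
    show t * zpowersHom H z a = zpowersHom H z a * t
    rw [← hk, map_zpow, zpowersHom_apply, toAdd_ofAdd]
    exact (h.zpow_right k).eq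
  · show HNNExtension.lift _ _ _ (HNNExtension.of _) = _
    rw [HNNExtension.lift_of, zpowersHom_apply, toAdd_ofAdd, zpow_one]

theorem b_ext {g : ℤ} {H : Type} [Group H] {f f' : Bg g →* H} (h1 : f (bt g) = f' (bt g))
    (h2 : f (bz g) = f' (bz g)) : f = f' := by
  apply HNNExtension.hom_ext
  · ext
    exact h2
  · exact h1

theorem bc_ext {g : ℤ} {H : Type} [Group H] {f f' : Bg g × C5 →* H}
    (h1 : f (bt g, 1) = f' (bt g, 1)) (h2 : f (bz g, 1) = f' (bz g, 1))
    (h3 : f (1, c5) = f' (1, c5)) : f = f' := by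
  have e1 : f.comp (MonoidHom.inl _ _) = f'.comp (MonoidHom.inl _ _) := b_ext h1 h2
  have e2 : f.comp (MonoidHom.inr _ _) = f'.comp (MonoidHom.inr _ _) := c5Hom_ext h3
  ext ⟨x, y⟩
  have h4 : (x, y) = (x, 1) * (1, y) := by simp
  rw [h4, map_mul, map_mul]
  congr 1
  · exact DFunLike.congr_fun e1 x
  · exact DFunLike.congr_fun e2 y

theorem hom_finite (g : ℤ) (F : Type) [Group F] [Finite F] : Finite (Bg g × C5 →* F) := by
  refine Finite.of_injective (β := F × F × F)
    (fun f => (f (bt g, 1), f (bz g, 1), f (1, c5))) ?_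
  intro f f' h
  simp only [Prod.mk.injEq] at h
  exact bc_ext h.1 h.2.1 h.2.2

theorem b_surj {g g' : ℤ} (p : Bg g' →* Bg g) (h1 : p (bt g') = bt g) (h2 : p (bz g') = bz g) :
    Function.Surjective p := by
  rw [← MonoidHom.range_eq_top, eq_top_iff]
  intro x _
  induction x using HNNExtension.induction_on with
  | of a =>
    rw [of_eq_bz, ← h2]
    exact Subgroup.zpow_mem _ (MonoidHom.mem_range.2 ⟨bz g', rfl⟩) _
  | t => exact MonoidHom.mem_range.2 ⟨bt g', h1⟩
  | mul x y hx hy => exact Subgroup.mul_mem _ (hx trivial) (hy trivial)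
  | inv x hx => exact Subgroup.inv_mem _ (hx trivial)

theorem b_inv {a b : ℕ} (hab : a < b)
    (Θ : Bg (2 ^ (a + 1)) × C5 ≃* Bg (2 ^ (b + 1)) × C5) : False := by
  obtain ⟨c, rfl⟩ : ∃ c, b = a + c := ⟨b - a, by omega⟩
  -- the natural map
  obtain ⟨p, hp1, hp2⟩ := b_lift (2 ^ (a + c + 1)) (bt (2 ^ (a + 1))) (bz (2 ^ (a + 1))) (by
    have : (2 : ℤ) ^ (a + c + 1) = 2 ^ (a + 1) * 2 ^ c := by ring
    rw [this, zpow_mul]
    exact (b_rel _).zpow_right _)
  have hps := b_surj p hp1 hp2
  let P : Bg (2 ^ (a + c + 1)) × C5 →* Bg (2 ^ (a + 1)) × C5 := p.prodMap (MonoidHom.id C5)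
  have hPs : Function.Surjective P := by
    rintro ⟨x, y⟩
    obtain ⟨x', rfl⟩ := hps x
    exact ⟨(x', y), rfl⟩
  -- the finite group
  let N : ℕ := 2 ^ (a + c + 1)
  have : NeZero N := ⟨by positivity⟩
  let F : Type := Equiv.Perm (ZMod N)
  let zz : F := Equiv.addRight (1 : ZMod N)
  have hzz : ∀ (k : ℕ) (x : ZMod N), (zz ^ k) x = x + k := by
    intro k
    induction k with
    | zero => intro x; rw [pow_zero, Nat.cast_zero, add_zero]; rfl
    | succ k ih =>
      intro x
      rw [pow_succ, Equiv.Perm.mul_apply, ih]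
      show x + 1 + (k : ZMod N) = x + ((k + 1 : ℕ) : ZMod N)
      push_cast
      ring
  let tt : F := Equiv.swap 0 1
  have hgo : (zz ^ (2 ^ (a + c + 1) : ℤ)) = 1 := by
    have : ((2 : ℤ) ^ (a + c + 1)) = (N : ℤ) := by simp [N]
    rw [this, zpow_natCast]
    ext x : 1
    rw [hzz]
    simp
  obtain ⟨h0, h01, h02⟩ := b_lift (2 ^ (a + c + 1)) tt zz (by rw [hgo]; exact Commute.one_right _)
  let H0 : Bg (2 ^ (a + c + 1)) × C5 →* F := h0.comp (MonoidHom.fst _ _)
  have := hom_finite (2 ^ (a + c + 1)) F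
  let T : (Bg (2 ^ (a + c + 1)) × C5 →* F) → (Bg (2 ^ (a + c + 1)) × C5 →* F) :=
    fun h => (h.comp Θ.toMonoidHom).comp P
  have hTi : Function.Injective T := by
    intro h h' hh
    apply MonoidHom.ext
    intro x
    obtain ⟨y, rfl⟩ := Θ.surjective x
    obtain ⟨w, rfl⟩ := hPs y
    exact DFunLike.congr_fun hh w
  have hTs : Function.Surjective T := Finite.surjective_of_injective hTi
  obtain ⟨h, hh⟩ := hTs H0
  -- the commutator
  have h3 : Commute (P (bt _, 1)) (P (bz _, 1) ^ ((2 : ℤ) ^ (a + 1))) := by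
    show (p (bt _), (1 : C5)) * (p (bz _), (1 : C5)) ^ ((2 : ℤ) ^ (a + 1)) =
      (p (bz _), (1 : C5)) ^ ((2 : ℤ) ^ (a + 1)) * (p (bt _), (1 : C5))
    have e : (p (bz (2 ^ (a + c + 1))), (1 : C5)) ^ ((2 : ℤ) ^ (a + 1)) =
        (bz (2 ^ (a + 1)) ^ ((2 : ℤ) ^ (a + 1)), 1) := by
      rw [hp2, Prod.pow_mk, one_zpow]
    rw [e, hp1, Prod.mk_mul_mk, Prod.mk_mul_mk, (b_rel _).eq]
  have h4 := h3.map (h.comp Θ.toMonoidHom)
  have h5 : Commute tt (zz ^ ((2 : ℤ) ^ (a + 1))) := by
    rw [map_zpow] at h4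
    have e1 : (h.comp Θ.toMonoidHom) (P (bt _, 1)) = tt := by
      have := DFunLike.congr_fun hh (bt _, 1)
      exact this.trans h01
    have e2 : (h.comp Θ.toMonoidHom) (P (bz _, 1)) = zz := by
      have := DFunLike.congr_fun hh (bz _, 1)
      exact this.trans h02
    rw [e1, e2] at h4
    exact h4
  have hz2 : (zz ^ ((2 : ℤ) ^ (a + 1))) = zz ^ (2 ^ (a + 1)) := by
    have : ((2 : ℤ) ^ (a + 1)) = ((2 ^ (a + 1) : ℕ) : ℤ) := by simp
    rw [this, zpow_natCast]
  rw [hz2] at h5
  have h6 := DFunLike.congr_fun h5.eq (0 : ZMod N)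
  rw [Equiv.Perm.mul_apply, Equiv.Perm.mul_apply, hzz, hzz] at h6
  have hlt : 2 ^ (a + 1) < N := by
    show 2 ^ (a + 1) < 2 ^ (a + c + 1)
    exact Nat.pow_lt_pow_right (by norm_num) (by omega)
  have h2le : 2 ≤ 2 ^ (a + 1) := by
    calc 2 = 2 ^ 1 := rfl
      _ ≤ 2 ^ (a + 1) := Nat.pow_le_pow_right (by norm_num) (by omega)
  have hv : ((2 ^ (a + 1) : ℕ) : ZMod N).val = 2 ^ (a + 1) := ZMod.val_natCast_of_lt hlt
  have hn0 : (0 : ZMod N) + ((2 ^ (a + 1) : ℕ) : ZMod N) ≠ 0 := by
    rw [zero_add]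
    intro h
    rw [h, ZMod.val_zero] at hv
    omega
  have hn1 : (0 : ZMod N) + ((2 ^ (a + 1) : ℕ) : ZMod N) ≠ 1 := by
    rw [zero_add]
    intro h
    rw [h, ZMod.val_one'' (by omega)] at hv
    omega
  have e1 : tt (0 + ((2 ^ (a + 1) : ℕ) : ZMod N)) = 0 + ((2 ^ (a + 1) : ℕ) : ZMod N) :=
    Equiv.swap_apply_of_ne_of_ne hn0 hn1
  have e2 : tt (0 : ZMod N) = 1 := Equiv.swap_apply_left 0 1
  rw [e1, e2] at h6
  have h7 : (0 : ZMod N) = 1 := add_right_cancel h6
  have h8 := congrArg ZMod.val h7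
  rw [ZMod.val_zero, ZMod.val_one'' (by omega)] at h8
  omega

theorem inv : StmInv := by
  intro U _ a b β β' hU hβ hβ' ⟨Φ⟩
  obtain ⟨Θ⟩ := factor_iso β β' hU hβ hβ' Φ
  rcases lt_trichotomy a b with h | h | h
  · exact (b_inv h Θ).elim
  · exact h
  · exact (b_inv h Θ.symm).elim

end Pool.Agent.T2H50.ISO
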