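import Pool.Agent.T2H50.ISO.Hnn
import Pool.Agent.Helper270.WPA

/-!
Parts BASE and MODEL of project ISO (frozen statement S14615). The model is a variant of the one of
Pool.Agent.Helper270.WP.
-/

set_option autoImplicit false

namespace Pool.Agent.T2H50.ISO

open Pool.Agent.Y817.ISO Pool.Agent.Helper270.WPA

section
variable {P J : Type}

theorem act_of (v : Multiplicative (J → ℤ)) (p : P) (n : J → ℤ) :
    act P J v (FreeGroup.of (p, n)) = FreeGroup.of (p, n - v.toAdd) := by
  simp [act, tr]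

/-- `T p v` in `G0` -/
theorem T_G0 (p : P) (v : J → ℤ) :
    T (X0 P J) t0 p v = SemidirectProduct.inl (FreeGroup.of (p, v)) := by
  unfold T X0 t0
  have := SemidirectProduct.inl_aut (φ := act P J) (Multiplicative.ofAdd (-v))
    (FreeGroup.of (p, 0))
  rw [act_of] at this
  rw [toAdd_ofAdd, sub_neg_eq_add, zero_add, ofAdd_neg, map_inv, inv_inv] at this
  exact this.symm

theorem G0_closure :
    Subgroup.closure (Set.range (X0 P J) ∪ Set.range (t0 : P → G0 P J)) = ⊤ := by
  rw [eq_top_iff]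
  intro x _
  have hX : ∀ v, X0 P J v ∈ Subgroup.closure (Set.range (X0 P J) ∪ Set.range (t0 : P → G0 P J)) :=
    fun v => Subgroup.subset_closure (Or.inl ⟨v, rfl⟩)
  have ht : ∀ p, (t0 p : G0 P J) ∈ Subgroup.closure (Set.range (X0 P J) ∪ Set.range (t0 : P → G0 P J)) :=
    fun v => Subgroup.subset_closure (Or.inr ⟨v, rfl⟩)
  have hl : ∀ w : FreeGroup (P × (J → ℤ)), (SemidirectProduct.inl w : G0 P J) ∈
      Subgroup.closure (Set.range (X0 P J) ∪ Set.range (t0 : P → G0 P J)) := by
    intro w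
    induction w using FreeGroup.induction_on with
    | C1 => rw [map_one]; exact one_mem _
    | of y =>
      obtain ⟨p, v⟩ := y
      rw [← T_G0]
      exact Subgroup.mul_mem _ (Subgroup.mul_mem _ (Subgroup.inv_mem _ (hX _)) (ht p)) (hX _)
    | inv_of y ih => rw [map_inv]; exact Subgroup.inv_mem _ ih
    | mul a b ha hb => rw [map_mul]; exact Subgroup.mul_mem _ ha hb
  rw [← SemidirectProduct.inl_left_mul_inr_right x]
  exact Subgroup.mul_mem _ (hl _) (hX _)

/-- the universal property -/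
theorem G0_lift (H : Type) [Group H] (X : Multiplicative (J → ℤ) →* H) (t : P → H) :
    ∃ Φ : G0 P J →* H, (∀ v, Φ (X0 P J v) = X v) ∧ ∀ p, Φ (t0 p) = t p := by
  refine ⟨SemidirectProduct.lift (FreeGroup.lift (fun x : P × (J → ℤ) => T X t x.1 x.2)) X ?_,
    ?_, ?_⟩
  · intro v
    apply FreeGroup.ext_hom
    rintro ⟨p, n⟩
    simp only [MonoidHom.comp_apply, MulEquiv.coe_toMonoidHom, act_of, FreeGroup.lift_apply_of,
      MulAut.conj_apply]
    unfold T
    have e : X (Multiplicative.ofAdd (n - v.toAdd)) = X (Multiplicative.ofAdd n) * (X v)⁻¹ := by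
      rw [← map_inv, ← map_mul]
      rfl
    rw [e]
    group
  · intro v
    unfold X0
    simp
  · intro p
    unfold t0
    simp [T]

/-- the homomorphism -/
def jj (d : ℕ) (μ : (Fin d → ℤ) →+ (J → ℤ)) (p : P) (a : J → ℤ) :
    G0 Unit (Fin d) →* G0 P J :=
  SemidirectProduct.map (FreeGroup.map (fun x : Unit × (Fin d → ℤ) => (p, μ x.2 + a)))
    (AddMonoidHom.toMultiplicative μ) (by
      intro v
      apply FreeGroup.ext_hom
      rintro ⟨⟨⟩, u⟩
      simp only [MonoidHom.comp_apply, MulEquiv.coe_toMonoidHom, act_of, FreeGroup.map.of]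
      congr 2
      simp
      abel)

theorem jj_inl (d : ℕ) (μ : (Fin d → ℤ) →+ (J → ℤ)) (p : P) (a : J → ℤ) (u : Fin d → ℤ) :
    jj d μ p a (SemidirectProduct.inl (FreeGroup.of ((), u))) =
    SemidirectProduct.inl (FreeGroup.of (p, μ u + a)) := by
  simp [jj]

theorem jj_inr (d : ℕ) (μ : (Fin d → ℤ) →+ (J → ℤ)) (p : P) (a : J → ℤ) (v : Fin d → ℤ) :
    jj d μ p a (SemidirectProduct.inr (Multiplicative.ofAdd v)) =
    SemidirectProduct.inr (Multiplicative.ofAdd (μ v)) := by
  simp [jj]

theorem jj_injective (d : ℕ) (μ : (Fin d → ℤ) →+ (J → ℤ)) (hμ : Function.Injective μ)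
    (p : P) (a : J → ℤ) : Function.Injective (jj d μ p a) := by
  intro x y hxy
  have h1 := congrArg SemidirectProduct.left hxy
  have h2 := congrArg SemidirectProduct.right hxy
  simp only [jj, SemidirectProduct.map_left, SemidirectProduct.map_right] at h1 h2
  have h3 : x.left = y.left := by
    refine FreeGroup.map_injective ?_ h1
    rintro ⟨⟨⟩, u⟩ ⟨⟨⟩, v⟩ huv
    have h5 : u = v := hμ (add_right_cancel (Prod.mk.inj huv).2)
    rw [h5]
  have h4 : x.right = y.right := hμ h2
  exact SemidirectProduct.ext h3 h4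

end

theorem G0_tf (P J : Type) : TF (G0 P J) := by
  intro x hx
  have h1 : x.right = 1 := by
    have h2 := MonoidHom.isOfFinOrder (SemidirectProduct.rightHom (φ := act P J)) hx
    rw [isOfFinOrder_iff_zpow_eq_one] at h2
    obtain ⟨n, hn, h3⟩ := h2
    apply Multiplicative.toAdd.injective
    funext j
    have h4 := congrFun (congrArg Multiplicative.toAdd h3) j
    rw [toAdd_zpow] at h4
    simp only [SemidirectProduct.rightHom_eq_right, Pi.smul_apply, smul_eq_mul, toAdd_one,
      Pi.zero_apply, mul_eq_zero] at h4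
    exact h4.resolve_left hn
  have h2 : x = SemidirectProduct.inl x.left := by
    apply SemidirectProduct.ext
    · simp
    · simpa using h1
  rw [h2] at hx
  have h3 : IsOfFinOrder x.left :=
    (Function.Injective.isOfFinOrder_iff (SemidirectProduct.inl_injective (φ := act P J))).1 hx
  have h4 : x.left = 1 := by
    by_contra hne
    exact not_isOfFinOrder_of_isMulTorsionFree hne h3
  rw [h2, h4, map_one]

theorem base : StmBase := by
  intro P J _
  refine ⟨G0_tf P J, G0_closure, fun H _ X t => G0_lift H X t, ?_⟩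
  intro d μ hμ p a
  refine ⟨jj d μ p a, jj_injective d μ hμ p a, ?_, ?_⟩
  · intro w
    exact jj_inr d μ p a w
  · rw [T_G0]
    have := jj_inl d μ p a 0
    rw [map_zero, zero_add] at this
    exact this

/-! ### The model -/

section Model
variable {P J : Type}

/-- Translations. -/
def trans (J : Type) : Multiplicative (J → ℤ) →* Equiv.Perm ((J → ℤ) × Bool) where
  toFun v := Equiv.prodCongr (Equiv.addRight v.toAdd) (Equiv.refl _)
  map_one' := by ext x <;> simp
  map_mul' v w := by
    apply Equiv.ext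
    rintro ⟨u, ε⟩
    simp only [Equiv.prodCongr_apply, Equiv.coe_addRight, Prod.map_apply, Equiv.refl_apply,
      Equiv.Perm.mul_apply, toAdd_mul, Prod.mk.injEq, and_true]
    rw [add_assoc, add_comm w.toAdd]

theorem trans_apply (v : Multiplicative (J → ℤ)) (u : J → ℤ) (ε : Bool) :
    trans J v (u, ε) = (u + v.toAdd, ε) := rfl

open Classical in
/-- Swap the sheets away from the set. -/
noncomputable def tog (H : P → (J → ℤ) → Prop) (x : P × (J → ℤ)) :
    Equiv.Perm ((J → ℤ) × Bool) :=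
  Function.Involutive.toPerm (fun y => (y.1, if H x.1 (y.1 + x.2) then y.2 else !y.2)) (by
    rintro ⟨u, ε⟩
    simp only
    split_ifs <;> simp)

open Classical in
theorem tog_apply (H : P → (J → ℤ) → Prop) (p : P) (n u : J → ℤ) (ε : Bool) :
    tog H (p, n) (u, ε) = (u, if H p (u + n) then ε else !ε) := rfl

/-- The action on two sheets. -/
noncomputable def act0 (H : P → (J → ℤ) → Prop) : G0 P J →* Equiv.Perm ((J → ℤ) × Bool) :=
  SemidirectProduct.lift (FreeGroup.lift (tog H)) (trans J) (by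
    intro v
    apply FreeGroup.ext_hom
    rintro ⟨p, n⟩
    simp only [MonoidHom.comp_apply, MulEquiv.coe_toMonoidHom, act_of, FreeGroup.lift_apply_of,
      MulAut.conj_apply]
    apply Equiv.ext
    rintro ⟨u, ε⟩
    have h1 : (trans J v)⁻¹ (u, ε) = (u - v.toAdd, ε) := by
      rw [← map_inv, trans_apply, toAdd_inv, sub_eq_add_neg]
    rw [Equiv.Perm.mul_apply, Equiv.Perm.mul_apply, h1, tog_apply, tog_apply, trans_apply]
    simp only [sub_add_cancel]
    rw [show u + (n - v.toAdd) = u - v.toAdd + n from by abel])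

theorem act0_inr (H : P → (J → ℤ) → Prop) (v : Multiplicative (J → ℤ)) :
    act0 H (SemidirectProduct.inr v) = trans J v := by simp [act0]

theorem act0_inl (H : P → (J → ℤ) → Prop) (x : P × (J → ℤ)) :
    act0 H (SemidirectProduct.inl (FreeGroup.of x)) = tog H x := by simp [act0]

/-- Restriction of the action to a sublattice. -/
theorem act0_jj (H : P → (J → ℤ) → Prop) (d : ℕ) (μ : (Fin d → ℤ) →+ (J → ℤ)) (p : P)
    (ρ : J → ℤ) (s : G0 Unit (Fin d)) (u : Fin d → ℤ) (ε : Bool) :
    act0 H (jj d μ p ρ s) (μ u, ε) =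
      ((μ (act0 (fun (_ : Unit) u => H p (μ u + ρ)) s (u, ε)).1),
        (act0 (fun (_ : Unit) u => H p (μ u + ρ)) s (u, ε)).2) := by
  set Hu : Unit → (Fin d → ℤ) → Prop := fun _ u => H p (μ u + ρ) with hHu
  let θ : (Fin d → ℤ) × Bool → (J → ℤ) × Bool := fun x => (μ x.1, x.2)
  suffices h : ∀ (s : G0 Unit (Fin d)) (x : (Fin d → ℤ) × Bool),
      act0 H (jj d μ p ρ s) (θ x) = θ (act0 Hu s x) from
    h s (u, ε)
  have hmul : ∀ s t : G0 Unit (Fin d), (∀ x, act0 H (jj d μ p ρ s) (θ x) = θ (act0 Hu s x)) →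
      (∀ x, act0 H (jj d μ p ρ t) (θ x) = θ (act0 Hu t x)) →
      ∀ x, act0 H (jj d μ p ρ (s * t)) (θ x) = θ (act0 Hu (s * t) x) := by
    intro s t hs ht x
    rw [map_mul, map_mul, map_mul, Equiv.Perm.mul_apply, Equiv.Perm.mul_apply, ht, hs]
  have hinv : ∀ s : G0 Unit (Fin d), (∀ x, act0 H (jj d μ p ρ s) (θ x) = θ (act0 Hu s x)) →
      ∀ x, act0 H (jj d μ p ρ s⁻¹) (θ x) = θ (act0 Hu s⁻¹ x) := by
    intro s hs x
    have := hs (act0 Hu s⁻¹ x)
    rw [← Equiv.Perm.mul_apply (act0 Hu s), ← map_mul, mul_inv_cancel, map_one,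
      Equiv.Perm.one_apply] at this
    rw [← this, ← Equiv.Perm.mul_apply, ← map_mul, ← map_mul, inv_mul_cancel, map_one, map_one,
      Equiv.Perm.one_apply]
  have hgen : ∀ (n : Fin d → ℤ) x,
      act0 H (jj d μ p ρ (SemidirectProduct.inl (FreeGroup.of ((), n)))) (θ x)
      = θ (act0 Hu (SemidirectProduct.inl (FreeGroup.of ((), n))) x) := by
    rintro n ⟨u, ε⟩
    rw [jj_inl, act0_inl, act0_inl]
    simp only [θ, tog_apply, hHu]
    rw [show μ u + (μ n + ρ) = μ (u + n) + ρ from by rw [map_add]; abel]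
  have hl : ∀ (w : FreeGroup (Unit × (Fin d → ℤ))) x,
      act0 H (jj d μ p ρ (SemidirectProduct.inl w)) (θ x) =
      θ (act0 Hu (SemidirectProduct.inl w) x) := by
    intro w
    induction w using FreeGroup.induction_on with
    | C1 => intro x; simp
    | of y => obtain ⟨⟨⟩, n⟩ := y; exact hgen n
    | inv_of y ih => rw [map_inv]; exact hinv _ ih
    | mul a b ha hb => rw [map_mul]; exact hmul _ _ ha hb
  have hr : ∀ (v : Multiplicative (Fin d → ℤ)) x,
      act0 H (jj d μ p ρ (SemidirectProduct.inr v)) (θ x) =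
      θ (act0 Hu (SemidirectProduct.inr v) x) := by
    rintro v ⟨u, ε⟩
    have e1 := jj_inr d μ p ρ v.toAdd
    rw [ofAdd_toAdd] at e1
    rw [e1, act0_inr, act0_inr]
    simp only [θ, trans_apply, toAdd_ofAdd]
    rw [map_add]
  intro s
  rw [← SemidirectProduct.inl_left_mul_inr_right s]
  exact hmul _ _ (hl _) (hr _)

theorem stab_iff (H : P → (J → ℤ) → Prop) (d : ℕ) (μ ν : (Fin d → ℤ) →+ (J → ℤ))
    (hμ : Function.Injective μ) (hν : Function.Injective ν) (p p' : P) (a b : J → ℤ)
    (h : ∀ u, H p (μ u + a) ↔ H p' (ν u + b)) (s : G0 Unit (Fin d)) :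
    act0 H (jj d μ p a s) (0, false) = (0, false) ↔
      act0 H (jj d ν p' b s) (0, false) = (0, false) := by
  have hHu : (fun (_ : Unit) u => H p (μ u + a)) = fun (_ : Unit) u => H p' (ν u + b) := by
    funext _ u; exact propext (h u)
  have h1 := act0_jj H d μ p a s 0 false
  have h2 := act0_jj H d ν p' b s 0 false
  rw [map_zero] at h1 h2
  rw [hHu] at h1
  rw [h1, h2]
  have key : ∀ c : (Fin d → ℤ) →+ (J → ℤ), Function.Injective c → ∀ y : (Fin d → ℤ) × Bool,
      (c y.1, y.2) = ((0 : J → ℤ), false) ↔ y = (0, false) := by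
    rintro c hc ⟨u, ε⟩
    simp only [Prod.mk.injEq]
    constructor
    · rintro ⟨h1, h2⟩
      exact ⟨hc (h1.trans (map_zero c).symm), h2⟩
    · rintro ⟨rfl, rfl⟩; simp
  rw [key μ hμ, key ν hν]

end Model

theorem model : StmModel := by
  classical
  intro P ι J _ D C hC
  obtain ⟨K, κ, hκ⟩ := exists_kappa ((J → ℤ) × Bool) (Set (G0 P J))
  have hR := fun i => exists_conj (act0 C) κ hκ (0, false)
    (jj (D.dim i) (D.μ i) (D.src i) (D.a i)) (jj (D.dim i) (D.ν i) (D.tgt i) (D.b i))
    (jj_injective _ _ (D.μ_inj i) _ _) (jj_injective _ _ (D.ν_inj i) _ _)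
    (stab_iff C _ _ _ (D.μ_inj i) (D.ν_inj i) _ _ _ _ (hC i))
  choose R hR1 hR2 using hR
  let A := big K (act0 C)
  refine ⟨Equiv.Perm (((J → ℤ) × Bool) ⊕ (Set (G0 P J) × K)), inferInstance,
    A.comp (X0 P J), fun p => A (t0 p), R, ?_, ?_⟩
  · refine ⟨?_, ?_⟩
    · intro i w
      have := hR2 i (SemidirectProduct.inr (Multiplicative.ofAdd w))
      rw [jj_inr, jj_inr] at this
      exact this
    · intro i
      have := hR2 i (SemidirectProduct.inl (FreeGroup.of ((), 0)))
      rw [jj_inl, jj_inl, map_zero, map_zero, zero_add, zero_add, ← T_G0, ← T_G0] at this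
      have e : ∀ p v, T (A.comp (X0 P J)) (fun p => A (t0 p)) p v = A (T (X0 P J) t0 p v) := by
        intro p v
        simp [T]
      rw [e, e]
      exact this
  · refine ⟨MulAction.stabilizer (Equiv.Perm (((J → ℤ) × Bool) ⊕ (Set (G0 P J) × K)))
      (Sum.inl ((0 : J → ℤ), false) : ((J → ℤ) × Bool) ⊕ (Set (G0 P J) × K)), ?_, ?_⟩
    · intro i
      rw [MulAction.mem_stabilizer_iff]
      exact hR1 i
    · intro p v
      have e : T (A.comp (X0 P J)) (fun p => A (t0 p)) p v = A (T (X0 P J) t0 p v) := by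
        simp [T]
      rw [e, T_G0, MulAction.mem_stabilizer_iff]
      change Sum.inl (act0 C (SemidirectProduct.inl (FreeGroup.of (p, v))) (0, false)) =
        Sum.inl (0, false) ↔ _
      rw [act0_inl, tog_apply, zero_add, Sum.inl.injEq, Prod.mk.injEq]
      by_cases h : C p v <;> simp [h]

end Pool.Agent.T2H50.ISO
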