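import Pool.Agent.T2H50.ISO.Mhnn
import Pool.Agent.T2H50.ISO.Base

/-!
Part KK of project ISO (frozen statement S14615).
-/

set_option autoImplicit false

namespace Pool.Agent.T2H50.ISO

open Pool.Agent.Y817.ISO

theorem T_map {P J H H' : Type} [Group H] [Group H'] (f : H →* H')
    (X : Multiplicative (J → ℤ) →* H) (t : P → H) (p : P) (v : J → ℤ) :
    f (T X t p v) = T (f.comp X) (fun p => f (t p)) p v := by
  simp [T]

theorem T_add {P J H : Type} [Group H] (X : Multiplicative (J → ℤ) →* H) (t : P → H) (p : P)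
    (v w : J → ℤ) : T X t p (w + v) =
      (X (Multiplicative.ofAdd w))⁻¹ * T X t p v * X (Multiplicative.ofAdd w) := by
  unfold T
  rw [add_comm, ofAdd_add, map_mul]
  group

theorem rel_step {P ι J H : Type} [Group H] (D : Rules P ι J) (X : Multiplicative (J → ℤ) →* H)
    (t : P → H) (r : ι → H) (h : Rel D H X t r) (i : ι) (w : Fin (D.dim i) → ℤ) :
    r i * T X t (D.src i) (D.μ i w + D.a i) = T X t (D.tgt i) (D.ν i w + D.b i) * r i := by
  rw [T_add, T_add]
  have h1 := h.shift i w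
  have h2 := h.rule i
  have h3 : r i * (X (Multiplicative.ofAdd (D.μ i w)))⁻¹ =
      (X (Multiplicative.ofAdd (D.ν i w)))⁻¹ * r i := by
    rw [mul_inv_eq_iff_eq_mul, mul_assoc, h1, ← mul_assoc, inv_mul_cancel, one_mul]
  calc r i * ((X (Multiplicative.ofAdd (D.μ i w)))⁻¹ * T X t (D.src i) (D.a i) *
        X (Multiplicative.ofAdd (D.μ i w)))
      = (r i * (X (Multiplicative.ofAdd (D.μ i w)))⁻¹) * T X t (D.src i) (D.a i) *
        X (Multiplicative.ofAdd (D.μ i w)) := by group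
    _ = (X (Multiplicative.ofAdd (D.ν i w)))⁻¹ * (r i * T X t (D.src i) (D.a i)) *
        X (Multiplicative.ofAdd (D.μ i w)) := by rw [h3]; group
    _ = (X (Multiplicative.ofAdd (D.ν i w)))⁻¹ * T X t (D.tgt i) (D.b i) *
        (r i * X (Multiplicative.ofAdd (D.μ i w))) := by rw [h2]; group
    _ = _ := by rw [h1]; group

theorem conn_of_eqv {P ι J H : Type} [Group H] (D : Rules P ι J)
    (X : Multiplicative (J → ℤ) →* H) (t : P → H) (r : ι → H) (h : Rel D H X t r)
    (x y : P × (J → ℤ)) (hxy : Relation.EqvGen (Step D) x y) :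
    ∃ ρ ∈ Subgroup.closure (Set.range r), T X t x.1 x.2 = ρ * T X t y.1 y.2 * ρ⁻¹ := by
  induction hxy with
  | rel x y hs =>
    cases hs with
    | mk i w =>
      refine ⟨(r i)⁻¹, Subgroup.inv_mem _ (Subgroup.subset_closure ⟨i, rfl⟩), ?_⟩
      have := rel_step D X t r h i w
      rw [inv_inv, mul_assoc, ← this]
      group
  | refl x => exact ⟨1, one_mem _, by simp⟩
  | symm x y _ ih =>
    obtain ⟨ρ, hρ, h1⟩ := ih
    refine ⟨ρ⁻¹, Subgroup.inv_mem _ hρ, ?_⟩
    rw [h1]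
    group
  | trans x y z _ _ ih1 ih2 =>
    obtain ⟨ρ, hρ, h1⟩ := ih1
    obtain ⟨σ, hσ, h2⟩ := ih2
    refine ⟨ρ * σ, Subgroup.mul_mem _ hρ hσ, ?_⟩
    rw [h1, h2]
    group

theorem eqv_of_conn {P ι J K : Type} [Finite J] [Group K] (D : Rules P ι J)
    (X : Multiplicative (J → ℤ) →* K) (t : P → K) (r : ι → K)
    (hUP : ∀ (H : Type) [Group H] (X' : Multiplicative (J → ℤ) →* H) (t' : P → H) (r' : ι → H),
      Rel D H X' t' r' → ∃ Φ : K →* H, (∀ v, Φ (X v) = X' v) ∧ (∀ p, Φ (t p) = t' p) ∧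
        ∀ i, Φ (r i) = r' i) (p p' : P) (v v' : J → ℤ)
    (h : ∃ ρ ∈ Subgroup.closure (Set.range r), T X t p v = ρ * T X t p' v' * ρ⁻¹) :
    Relation.EqvGen (Step D) (p, v) (p', v') := by
  obtain ⟨M, hM, X', t', r', hrel, St, hSt1, hSt2⟩ := model P ι J D
    (fun q w => Relation.EqvGen (Step D) (q, w) (p', v')) (by
      intro i w
      constructor
      · intro h1
        exact Relation.EqvGen.trans _ _ _ (Relation.EqvGen.symm _ _
          (Relation.EqvGen.rel _ _ (Step.mk i w))) h1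
      · intro h1
        exact Relation.EqvGen.trans _ _ _ (Relation.EqvGen.rel _ _ (Step.mk i w)) h1)
  obtain ⟨Φ, hΦ1, hΦ2, hΦ3⟩ := hUP M X' t' r' hrel
  obtain ⟨ρ, hρ, h1⟩ := h
  have hT : ∀ q w, Φ (T X t q w) = T X' t' q w := by
    intro q w
    unfold T
    rw [map_mul, map_mul, map_inv, hΦ1, hΦ2]
  have h2 := congrArg Φ h1
  rw [map_mul, map_mul, map_inv, hT, hT] at h2
  have h3 : Φ ρ ∈ St := by
    have : Subgroup.closure (Set.range r) ≤ St.comap Φ := by
      rw [Subgroup.closure_le]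
      rintro _ ⟨i, rfl⟩
      show Φ (r i) ∈ St
      rw [hΦ3]
      exact hSt1 i
    exact this hρ
  rw [← hSt2, h2]
  refine St.mul_mem (St.mul_mem h3 ?_) (St.inv_mem h3)
  rw [hSt2]
  exact Relation.EqvGen.refl _

theorem kk : StmK := by
  intro P ι J _ _ D
  obtain ⟨htf, hcl, hup, hf⟩ := base P J
  choose f hf1 hf2 hf3 using fun i => hf (D.dim i) (D.μ i) (D.μ_inj i) (D.src i) (D.a i)
  choose g hg1 hg2 hg3 using fun i => hf (D.dim i) (D.ν i) (D.ν_inj i) (D.tgt i) (D.b i)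
  obtain ⟨K, hK, of, r, hof, hr, htfK, hclK, hupK⟩ := mhnn (G0 P J) ι
    (fun i => G0 Unit (Fin (D.dim i))) f g hf1 hg1
  have hT : ∀ p v, of (T (X0 P J) t0 p v) = T (of.comp (X0 P J)) (fun p => of (t0 p)) p v :=
    fun p v => T_map of _ _ p v
  have hrel : Rel D K (of.comp (X0 P J)) (fun p => of (t0 p)) r := by
    refine ⟨?_, ?_⟩
    · intro i w
      have := hr i (X0 Unit (Fin (D.dim i)) (Multiplicative.ofAdd w))
      rw [hf2, hg2] at this
      exact this
    · intro i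
      have := hr i (t0 ())
      rw [hf3, hg3, hT, hT] at this
      exact this
  have hUP : ∀ (H : Type) [Group H] (X' : Multiplicative (J → ℤ) →* H) (t' : P → H) (r' : ι → H),
      Rel D H X' t' r' → ∃ Φ : K →* H, (∀ v, Φ ((of.comp (X0 P J)) v) = X' v) ∧
        (∀ p, Φ (of (t0 p)) = t' p) ∧ ∀ i, Φ (r i) = r' i := by
    intro H _ X' t' r' hrel'
    obtain ⟨Φ0, h1, h2⟩ := hup H X' t'
    have h1' : Φ0.comp (X0 P J) = X' := by
      ext v
      · exact h1 v
    have hT' : ∀ p v, Φ0 (T (X0 P J) t0 p v) = T X' t' p v := by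
      intro p v
      rw [T_map, h1']
      congr 1
      funext p
      exact h2 p
    obtain ⟨Φ, h3, h4⟩ := hupK H Φ0 r' (by
      intro i q
      have h5 : ((MulAut.conj (r' i)).toMonoidHom.comp (Φ0.comp (f i))) = Φ0.comp (g i) := by
        have hcl' := (base Unit (Fin (D.dim i))).2.1
        refine MonoidHom.eq_of_eqOn_dense hcl' ?_
        rintro _ (⟨w, rfl⟩ | ⟨⟨⟩, rfl⟩)
        · show r' i * Φ0 (f i (X0 _ _ w)) * (r' i)⁻¹ = Φ0 (g i (X0 _ _ w))
          have e1 := hf2 i w.toAdd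
          have e2 := hg2 i w.toAdd
          rw [ofAdd_toAdd] at e1 e2
          rw [e1, e2, h1, h1, hrel'.shift]
          group
        · show r' i * Φ0 (f i (t0 ())) * (r' i)⁻¹ = Φ0 (g i (t0 ()))
          rw [hf3, hg3, hT', hT', hrel'.rule]
          group
      have h6 := DFunLike.congr_fun h5 q
      have h7 : r' i * Φ0 (f i q) * (r' i)⁻¹ = Φ0 (g i q) := h6
      rw [← h7]
      group)
    refine ⟨Φ, ?_, ?_, h4⟩
    · intro v
      exact (h3 _).trans (h1 v)
    · intro p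
      exact (h3 _).trans (h2 p)
  refine ⟨K, hK, of.comp (X0 P J), fun p => of (t0 p), r, hrel, htfK htf, ?_, hUP, ?_⟩
  · rw [eq_top_iff, ← hclK, Subgroup.closure_le]
    have h1 : ∀ x : G0 P J, of x ∈ Subgroup.closure (Set.range (of.comp (X0 P J)) ∪
        Set.range (fun p => of (t0 p)) ∪ Set.range r) := by
      intro x
      have h2 : (⊤ : Subgroup (G0 P J)) ≤ (Subgroup.closure (Set.range (of.comp (X0 P J)) ∪
        Set.range (fun p => of (t0 p)) ∪ Set.range r)).comap of := by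
        rw [← hcl, Subgroup.closure_le]
        rintro _ (⟨w, rfl⟩ | ⟨p, rfl⟩)
        · exact Subgroup.subset_closure (Or.inl (Or.inl ⟨w, rfl⟩))
        · exact Subgroup.subset_closure (Or.inl (Or.inr ⟨p, rfl⟩))
      exact h2 (Subgroup.mem_top x)
    rintro _ (⟨x, rfl⟩ | ⟨i, rfl⟩)
    · exact h1 x
    · exact Subgroup.subset_closure (Or.inr ⟨i, rfl⟩)
  · intro p p' v v'
    exact ⟨eqv_of_conn D _ _ _ hUP p p' v v',
      conn_of_eqv D _ _ _ hrel (p, v) (p', v')⟩

end Pool.Agent.T2H50.ISO
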