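import Pool.Agent.Y817.ISO.Stm

/-!
Part PRES of project ISO (frozen statement S14615).
-/

set_option autoImplicit false

namespace Pool.Agent.T2H50.ISO

open Pool.Agent.Y817.ISO

/-- conditions expressible by finitely many relators -/
def Exp (Γ : Type) (Φ : ∀ (H : Type) [Group H], (Γ → H) → Prop) : Prop :=
  ∃ L : List (List (Γ × Bool)), ∀ (H : Type) [Group H] (h : Γ → H),
    (∀ w ∈ L, FreeGroup.lift h (FreeGroup.mk w) = 1) ↔ Φ H h

theorem exp_and {Γ : Type} {Φ Ψ : ∀ (H : Type) [Group H], (Γ → H) → Prop} (h1 : Exp Γ Φ)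
    (h2 : Exp Γ Ψ) : Exp Γ (fun H _ h => Φ H h ∧ Ψ H h) := by
  obtain ⟨L1, h1⟩ := h1
  obtain ⟨L2, h2⟩ := h2
  refine ⟨L1 ++ L2, fun H _ h => ?_⟩
  show _ ↔ (Φ H h ∧ Ψ H h)
  rw [← h1 H h, ← h2 H h]
  simp only [List.mem_append, or_imp, forall_and]

theorem exp_all {Γ I : Type} [Fintype I] {Φ : I → ∀ (H : Type) [Group H], (Γ → H) → Prop}
    (h : ∀ i, Exp Γ (Φ i)) : Exp Γ (fun H _ f => ∀ i, Φ i H f) := by
  choose L hL using h
  refine ⟨(Finset.univ : Finset I).toList.flatMap L, fun H _ f => ?_⟩
  constructor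
  · intro h i
    rw [← hL]
    intro w hw
    exact h w (List.mem_flatMap.2 ⟨i, by simp, hw⟩)
  · intro h w hw
    obtain ⟨i, -, hi⟩ := List.mem_flatMap.1 hw
    exact (hL i H f).2 (h i) w hi

theorem exp_eq {Γ : Type} (a b : FreeGroup Γ) :
    Exp Γ (fun _ _ f => FreeGroup.lift f a = FreeGroup.lift f b) := by
  obtain ⟨w, hw⟩ : ∃ w, FreeGroup.mk w = a * b⁻¹ := Quot.exists_rep _
  refine ⟨[w], fun H _ f => ?_⟩
  rw [List.forall_mem_singleton, hw, map_mul, map_inv, mul_inv_eq_one]

section
variable {J : Type} [Fintype J] [DecidableEq J]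

theorem sum_list (v : J → ℤ) :
    ((Finset.univ : Finset J).toList.map (fun j => Pi.single j (v j))).sum = v := by
  rw [Finset.sum_map_toList]
  exact Finset.univ_sum_single v

theorem X_list {H : Type} [Group H] (X : Multiplicative (J → ℤ) →* H) (v : J → ℤ) :
    X (Multiplicative.ofAdd v) = ((Finset.univ : Finset J).toList.map
      (fun j => (X (Multiplicative.ofAdd (Pi.single j 1))) ^ (v j))).prod := by
  conv_lhs => rw [← sum_list v]
  generalize (Finset.univ : Finset J).toList = l
  induction l with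
  | nil => simp
  | cons j l ih =>
    rw [List.map_cons, List.sum_cons, ofAdd_add, map_mul, ih, List.map_cons, List.prod_cons]
    congr 1
    rw [← map_zpow, ← ofAdd_zsmul]
    congr 2
    rw [← Pi.single_smul]
    simp

theorem X_ext {H : Type} [Group H] (X Y : Multiplicative (J → ℤ) →* H)
    (h : ∀ j, X (Multiplicative.ofAdd (Pi.single j 1)) = Y (Multiplicative.ofAdd (Pi.single j 1)))
    (v : J → ℤ) : X (Multiplicative.ofAdd v) = Y (Multiplicative.ofAdd v) := by
  rw [X_list X, X_list Y]
  simp only [h]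

theorem X_comm {H : Type} [Group H] (X : Multiplicative (J → ℤ) →* H) (a : H)
    (h : ∀ j, Commute a (X (Multiplicative.ofAdd (Pi.single j 1))))
    (w : Multiplicative (J → ℤ)) : Commute a (X w) := by
  have h1 : ∀ v : J → ℤ, X (Multiplicative.ofAdd v) =
      ((MulAut.conj a).toMonoidHom.comp X) (Multiplicative.ofAdd v) := by
    refine X_ext _ _ fun j => ?_
    have := (h j).eq
    simp only [MonoidHom.comp_apply, MulEquiv.coe_toMonoidHom, MulAut.conj_apply]
    rw [this]
    group
  have h2 := h1 w.toAdd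
  simp only [ofAdd_toAdd, MonoidHom.comp_apply, MulEquiv.coe_toMonoidHom, MulAut.conj_apply] at h2
  show a * X w = X w * a
  conv_rhs => rw [h2]
  group

/-- the homomorphism given by commuting elements -/
theorem X_exists {H : Type} [Group H] (x : J → H) (h : ∀ i j, Commute (x i) (x j)) :
    ∃ X : Multiplicative (J → ℤ) →* H, ∀ j, X (Multiplicative.ofAdd (Pi.single j 1)) = x j := by
  have hc : Pairwise fun i j => ∀ a b : Multiplicative ℤ,
      Commute (zpowersHom H (x i) a) (zpowersHom H (x j) b) := by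
    intro i j _ a b
    simp only [zpowersHom_apply]
    exact (h i j).zpow_zpow _ _
  refine ⟨(MonoidHom.noncommPiCoprod (fun i => zpowersHom H (x i)) hc).comp
    (MulEquiv.piMultiplicative (fun _ : J => ℤ)).toMonoidHom, fun j => ?_⟩
  have e : (MulEquiv.piMultiplicative (fun _ : J => ℤ)) (Multiplicative.ofAdd (Pi.single j 1)) =
      Pi.mulSingle j (Multiplicative.ofAdd 1) := by
    funext i
    by_cases hi : i = j
    · subst hi
      simp [MulEquiv.piMultiplicative]
    · simp [MulEquiv.piMultiplicative, hi]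
  rw [MonoidHom.comp_apply, MulEquiv.coe_toMonoidHom, e, MonoidHom.noncommPiCoprod_mulSingle]
  simp [zpowersHom_apply]

end

section
variable {P ι J : Type}

/-- the generators in the free group -/
def gj (P ι : Type) {J : Type} (j : J) : FreeGroup (Gen P ι J) := FreeGroup.of (Sum.inl j)
/-- the generators in the free group -/
def gt {P : Type} (ι J : Type) (p : P) : FreeGroup (Gen P ι J) := FreeGroup.of (Sum.inr (Sum.inl p))
/-- the generators in the free group -/
def gr (P : Type) {ι : Type} (J : Type) (i : ι) : FreeGroup (Gen P ι J) :=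
  FreeGroup.of (Sum.inr (Sum.inr (Sum.inl i)))
/-- the generators in the free group -/
def g5 (P ι J : Type) (i : Fin 5) : FreeGroup (Gen P ι J) :=
  FreeGroup.of (Sum.inr (Sum.inr (Sum.inr i)))

variable [Fintype J] [DecidableEq J]

/-- the word of a vector -/
noncomputable def gX (P ι : Type) {J : Type} [Fintype J] (v : J → ℤ) : FreeGroup (Gen P ι J) :=
  ((Finset.univ : Finset J).toList.map (fun j => gj P ι j ^ v j)).prod

/-- the word of `T` -/
noncomputable def gT {P : Type} (ι : Type) {J : Type} [Fintype J] (p : P) (v : J → ℤ) :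
    FreeGroup (Gen P ι J) :=
  (gX P ι v)⁻¹ * gt ι J p * gX P ι v

theorem lift_gX {H : Type} [Group H] (h : Gen P ι J → H) (X : Multiplicative (J → ℤ) →* H)
    (hX : ∀ j, X (Multiplicative.ofAdd (Pi.single j 1)) = h (Sum.inl j)) (v : J → ℤ) :
    FreeGroup.lift h (gX P ι v) = X (Multiplicative.ofAdd v) := by
  rw [X_list X, gX, map_list_prod, List.map_map]
  congr 1
  apply List.map_congr_left
  intro j _
  rw [Function.comp_apply, map_zpow, gj, FreeGroup.lift_apply_of, hX]

end

theorem pres : StmPres := by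
  classical
  intro P ι J _ _ _ _ D B e
  have key : Exp (Gen P ι J) (fun H _ h =>
      (∀ p : J × J, FreeGroup.lift h (gj P ι p.1 * gj P ι p.2) =
        FreeGroup.lift h (gj P ι p.2 * gj P ι p.1)) ∧
      (∀ q : Σ i, Fin (D.dim i), FreeGroup.lift h (gr P J q.1 * gX P ι (D.μ q.1 (Pi.single q.2 1))) =
        FreeGroup.lift h (gX P ι (D.ν q.1 (Pi.single q.2 1)) * gr P J q.1)) ∧
      (∀ i : ι, FreeGroup.lift h (gr P J i * gT ι (D.src i) (D.a i)) =
        FreeGroup.lift h (gT ι (D.tgt i) (D.b i) * gr P J i)) ∧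
      (∀ j : J, FreeGroup.lift h (g5 P ι J 0 * gj P ι j) =
        FreeGroup.lift h (gj P ι j * g5 P ι J 0)) ∧
      (∀ i : ι, FreeGroup.lift h (g5 P ι J 0 * gr P J i) =
        FreeGroup.lift h (gr P J i * g5 P ι J 0)) ∧
      (∀ j : J, FreeGroup.lift h (g5 P ι J 1 * gj P ι j) =
        FreeGroup.lift h (gj P ι j * g5 P ι J 1)) ∧
      (∀ p : P, FreeGroup.lift h (g5 P ι J 1 * gt ι J p) =
        FreeGroup.lift h (gt ι J p * g5 P ι J 1)) ∧
      (∀ i : ι, FreeGroup.lift h (g5 P ι J 1 * gr P J i) =
        FreeGroup.lift h (gr P J i * g5 P ι J 1)) ∧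
      (FreeGroup.lift h ((g5 P ι J 1)⁻¹ * g5 P ι J 0 * g5 P ι J 1) =
        FreeGroup.lift h (g5 P ι J 0 ^ 2)) ∧
      (FreeGroup.lift h (g5 P ι J 2 * (gj P ι e * g5 P ι J 1)) =
        FreeGroup.lift h ((gj P ι e * g5 P ι J 1) * g5 P ι J 2)) ∧
      (FreeGroup.lift h (g5 P ι J 2 * ((gt ι J B)⁻¹ * g5 P ι J 0 ^ 2 * gt ι J B)) =
        FreeGroup.lift h (((gt ι J B)⁻¹ * g5 P ι J 0 ^ 2 * gt ι J B) * g5 P ι J 2)) ∧
      (∀ j : J, FreeGroup.lift h (g5 P ι J 3 * (g5 P ι J 2 * gj P ι j * (g5 P ι J 2)⁻¹)) =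
        FreeGroup.lift h ((g5 P ι J 2 * gj P ι j * (g5 P ι J 2)⁻¹) * g5 P ι J 3)) ∧
      (∀ p : P, FreeGroup.lift h (g5 P ι J 3 * (g5 P ι J 2 * gt ι J p * (g5 P ι J 2)⁻¹)) =
        FreeGroup.lift h ((g5 P ι J 2 * gt ι J p * (g5 P ι J 2)⁻¹) * g5 P ι J 3)) ∧
      (∀ i : ι, FreeGroup.lift h (g5 P ι J 3 * (g5 P ι J 2 * gr P J i * (g5 P ι J 2)⁻¹)) =
        FreeGroup.lift h ((g5 P ι J 2 * gr P J i * (g5 P ι J 2)⁻¹) * g5 P ι J 3)) ∧
      (FreeGroup.lift h (g5 P ι J 3 * (g5 P ι J 2 * g5 P ι J 0 * (g5 P ι J 2)⁻¹)) =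
        FreeGroup.lift h ((g5 P ι J 2 * g5 P ι J 0 * (g5 P ι J 2)⁻¹) * g5 P ι J 3)) ∧
      (∀ i : ι, FreeGroup.lift h (g5 P ι J 3 * gr P J i) =
        FreeGroup.lift h (gr P J i * g5 P ι J 3)) ∧
      (FreeGroup.lift h (g5 P ι J 4 ^ 5) = FreeGroup.lift h 1) ∧
      (FreeGroup.lift h (g5 P ι J 4 * g5 P ι J 0) =
        FreeGroup.lift h (g5 P ι J 0 * g5 P ι J 4))) := by
    refine exp_and (exp_all fun _ => exp_eq _ _) ?_
    refine exp_and (exp_all fun _ => exp_eq _ _) ?_
    refine exp_and (exp_all fun _ => exp_eq _ _) ?_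
    refine exp_and (exp_all fun _ => exp_eq _ _) ?_
    refine exp_and (exp_all fun _ => exp_eq _ _) ?_
    refine exp_and (exp_all fun _ => exp_eq _ _) ?_
    refine exp_and (exp_all fun _ => exp_eq _ _) ?_
    refine exp_and (exp_all fun _ => exp_eq _ _) ?_
    refine exp_and (exp_eq _ _) ?_
    refine exp_and (exp_eq _ _) ?_
    refine exp_and (exp_eq _ _) ?_
    refine exp_and (exp_all fun _ => exp_eq _ _) ?_
    refine exp_and (exp_all fun _ => exp_eq _ _) ?_
    refine exp_and (exp_all fun _ => exp_eq _ _) ?_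
    refine exp_and (exp_eq _ _) ?_
    refine exp_and (exp_all fun _ => exp_eq _ _) ?_
    exact exp_and (exp_eq _ _) (exp_eq _ _)
  obtain ⟨L, hL⟩ := key
  refine ⟨L, fun H _ h => ?_⟩
  rw [hL H h]
  have lj : ∀ j, FreeGroup.lift h (gj P ι j) = h (Sum.inl j) := fun j => FreeGroup.lift_apply_of
  have lt : ∀ p, FreeGroup.lift h (gt ι J p) = h (Sum.inr (Sum.inl p)) :=
    fun j => FreeGroup.lift_apply_of
  have lr : ∀ i, FreeGroup.lift h (gr P J i) = h (Sum.inr (Sum.inr (Sum.inl i))) :=
    fun j => FreeGroup.lift_apply_of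
  have l5 : ∀ i, FreeGroup.lift h (g5 P ι J i) = h (Sum.inr (Sum.inr (Sum.inr i))) :=
    fun j => FreeGroup.lift_apply_of
  have lX : ∀ X : Multiplicative (J → ℤ) →* H,
      (∀ j, X (Multiplicative.ofAdd (Pi.single j 1)) = h (Sum.inl j)) → ∀ v : J → ℤ,
      FreeGroup.lift h (gX P ι v) = X (Multiplicative.ofAdd v) := fun X hX => lift_gX h X hX
  constructor
  · rintro ⟨c1, c2, c3, c4, c5, c6, c7, c8, c9, c10, c11, c12, c13, c14, c15, c16, c17, c18⟩
    obtain ⟨X, hX⟩ := X_exists (fun j => h (Sum.inl j)) (fun i j => by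
      have := c1 (i, j)
      simp only [map_mul, lj] at this
      exact this)
    have lX' := lX X hX
    refine ⟨X, hX, ⟨⟨?_, ?_⟩, ?_, ?_, ?_, ?_, ?_, ?_, ?_, ?_, ?_, ?_, ?_, ?_, ?_, ?_, ?_⟩⟩
    · intro i w
      have h1 : ∀ w : Fin (D.dim i) → ℤ,
          ((MulAut.conj (h (Sum.inr (Sum.inr (Sum.inl i))))).toMonoidHom.comp
            (X.comp (AddMonoidHom.toMultiplicative (D.μ i)))) (Multiplicative.ofAdd w) =
          (X.comp (AddMonoidHom.toMultiplicative (D.ν i))) (Multiplicative.ofAdd w) := by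
        refine X_ext _ _ fun a => ?_
        have := c2 ⟨i, a⟩
        simp only [map_mul, lr, lX'] at this
        simp only [MonoidHom.comp_apply, MulEquiv.coe_toMonoidHom, MulAut.conj_apply]
        exact mul_inv_eq_of_eq_mul this
      have h2 := h1 w
      simp only [MonoidHom.comp_apply, MulEquiv.coe_toMonoidHom, MulAut.conj_apply] at h2
      exact eq_mul_of_mul_inv_eq h2
    · intro i
      have := c3 i
      simp only [map_mul, lr, gT, map_inv, lX', lt] at this
      exact this
    · intro w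
      refine X_comm X _ (fun j => ?_) w
      have := c4 j
      simp only [map_mul, l5, lj] at this
      rw [hX]; exact this
    · intro i
      have := c5 i
      simp only [map_mul, l5, lr] at this
      exact this
    · intro w
      refine X_comm X _ (fun j => ?_) w
      have := c6 j
      simp only [map_mul, l5, lj] at this
      rw [hX]; exact this
    · intro i
      have := c7 i
      simp only [map_mul, l5, lt] at this
      exact this
    · intro i
      have := c8 i
      simp only [map_mul, l5, lr] at this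
      exact this
    · simp only [map_mul, l5, map_inv, map_pow] at c9
      exact c9
    · simp only [map_mul, l5, lj] at c10
      rw [hX]
      exact c10
    · simp only [map_mul, l5, lt, map_inv, map_pow] at c11
      exact c11
    · intro w
      have h1 := X_comm ((MulAut.conj (h (Sum.inr (Sum.inr (Sum.inr 2))))).toMonoidHom.comp X)
        (h (Sum.inr (Sum.inr (Sum.inr 3)))) (fun j => ?_) w
      · simp only [MonoidHom.comp_apply, MulEquiv.coe_toMonoidHom, MulAut.conj_apply] at h1
        exact h1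
      · simp only [MonoidHom.comp_apply, MulEquiv.coe_toMonoidHom, MulAut.conj_apply, hX]
        have := c12 j
        simp only [map_mul, l5, lj, map_inv] at this
        exact this
    · intro p
      have := c13 p
      simp only [map_mul, l5, lt, map_inv] at this
      exact this
    · intro p
      have := c14 p
      simp only [map_mul, l5, lr, map_inv] at this
      exact this
    · simp only [map_mul, l5, map_inv] at c15
      exact c15
    · intro p
      have := c16 p
      simp only [map_mul, l5, lr] at this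
      exact this
    · simp only [map_pow, l5, map_one] at c17
      exact c17
    · simp only [map_mul, l5] at c18
      exact c18
  · rintro ⟨X, hX, hr⟩
    have lX' := lX X hX
    refine ⟨?_, ?_, ?_, ?_, ?_, ?_, ?_, ?_, ?_, ?_, ?_, ?_, ?_, ?_, ?_, ?_, ?_, ?_⟩
    · rintro ⟨i, j⟩
      simp only [map_mul, lj]
      rw [← hX, ← hX]
      exact ((Commute.all (Multiplicative.ofAdd (Pi.single i (1 : ℤ) : J → ℤ))
        (Multiplicative.ofAdd (Pi.single j (1 : ℤ) : J → ℤ))).map X).eq
    · rintro ⟨i, a⟩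
      simp only [map_mul, lr, lX']
      exact hr.rel.shift i _
    · intro i
      simp only [map_mul, lr, gT, map_inv, lX', lt]
      exact hr.rel.rule i
    · intro j
      simp only [map_mul, l5, lj]
      rw [← hX]
      exact hr.zx _
    · intro j
      simp only [map_mul, l5, lr]
      exact hr.zr _
    · intro j
      simp only [map_mul, l5, lj]
      rw [← hX]
      exact hr.ux _
    · intro j
      simp only [map_mul, l5, lt]
      exact hr.ut _
    · intro j
      simp only [map_mul, l5, lr]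
      exact hr.ur _
    · simp only [map_mul, l5, map_inv, map_pow]
      exact hr.uz
    · simp only [map_mul, l5, lj]
      rw [← hX]
      exact hr.vx
    · simp only [map_mul, l5, lt, map_inv, map_pow]
      exact hr.vt
    · intro j
      simp only [map_mul, l5, lj, map_inv]
      rw [← hX]
      exact hr.τx _
    · intro j
      simp only [map_mul, l5, lt, map_inv]
      exact hr.τt _
    · intro j
      simp only [map_mul, l5, lr, map_inv]
      exact hr.τr' _
    · simp only [map_mul, l5, map_inv]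
      exact hr.τz
    · intro j
      simp only [map_mul, l5, lr]
      exact hr.τr _
    · simp only [map_pow, l5, map_one]
      exact hr.c5
    · simp only [map_mul, l5]
      exact hr.cz

end Pool.Agent.T2H50.ISO
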