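import Pool.Agent.Y817.ISO.Stm
import Pool.Agent.H665Simp.P_der_iff

/-!
Part RE of project ISO (frozen statement S14615).
-/

set_option autoImplicit false

namespace Pool.Agent.T2H50.ISO

open Pool.Agent.Y817.ISO Pool.Agent.H665Simp

theorem re_ex {α : Type} [Primcodable α] {f : α → ℕ → Bool} (hf : Computable₂ f) :
    REPred fun a => ∃ n, f a n = true := by
  refine ((Partrec.rfind hf.partrec₂).dom_re).of_eq ?_
  intro z
  refine Iff.trans (Nat.rfind_dom (p := fun s => (Part.some (f z s) : Part Bool))) ?_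
  constructor
  · rintro ⟨s, hs, _⟩
    rw [Part.mem_some_iff] at hs
    exact ⟨s, hs.symm⟩
  · rintro ⟨s, hs⟩
    exact ⟨s, by rw [hs]; exact Part.mem_some _, fun {m} _ => trivial⟩

theorem re_exists {α β : Type} [Primcodable α] [Primcodable β] {P : α × β → Prop}
    (hP : PrimrecPred P) : REPred fun a => ∃ b, P (a, b) := by
  classical
  obtain ⟨inst, hP⟩ := hP
  have h1 : Primrec (fun p : α × ℕ => Option.isSome ((Encodable.decode p.2 : Option β).bind
      (fun b => if decide (P (p.1, b)) = true then some () else none))) := by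
    refine Primrec.option_isSome.comp (Primrec.option_bind (Primrec.decode.comp Primrec.snd) ?_)
    refine Primrec.ite ?_ (Primrec.const _) (Primrec.const _)
    exact Primrec.eq.comp (hP.comp (Primrec.pair (Primrec.fst.comp Primrec.fst) Primrec.snd))
      (Primrec.const true)
  refine (re_ex (f := fun a n => Option.isSome ((Encodable.decode n : Option β).bind
      (fun b => if decide (P (a, b)) = true then some () else none))) h1.to_comp).of_eq ?_
  intro a
  constructor
  · rintro ⟨n, hn⟩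
    cases hb : (Encodable.decode n : Option β) with
    | none => rw [hb] at hn; simp at hn
    | some b =>
      rw [hb] at hn
      refine ⟨b, ?_⟩
      by_contra hc
      simp [hc] at hn
  · rintro ⟨b, hb⟩
    refine ⟨Encodable.encode b, ?_⟩
    rw [Encodable.encodek]
    simp [hb]

/-- the image of a letter -/
def im (K : ℕ) (F : List Wd) (i : ℕ) : Wd := if i < K then F.getD i [] else []

/-- substitution -/
def sub (K : ℕ) (F : List Wd) (w : Wd) : Wd :=
  w.flatMap fun q => if q.2 = true then im K F q.1 else inv (im K F q.1)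

theorem pr_im : Primrec fun p : (ℕ × List Wd) × ℕ => im p.1.1 p.1.2 p.2 := by
  refine Primrec.ite ?_ ?_ (Primrec.const _)
  · exact Primrec.nat_lt.comp Primrec.snd (Primrec.fst.comp Primrec.fst)
  · exact (Primrec.list_getD []).comp (Primrec.snd.comp Primrec.fst) Primrec.snd

theorem pr_sub : Primrec fun p : (ℕ × List Wd) × Wd => sub p.1.1 p.1.2 p.2 := by
  refine Primrec.list_flatMap Primrec.snd ?_
  have h1 : Primrec fun q : ((ℕ × List Wd) × Wd) × (ℕ × Bool) => im q.1.1.1 q.1.1.2 q.2.1 :=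
    pr_im.comp (Primrec.pair (Primrec.fst.comp Primrec.fst) (Primrec.fst.comp Primrec.snd))
  exact Primrec.ite (Primrec.eq.comp (Primrec.snd.comp Primrec.snd) (Primrec.const true)) h1
    (pr_inv.comp h1)

theorem pr_sub' {α : Type} [Primcodable α] {k : α → ℕ} {F : α → List Wd} {w : α → Wd}
    (hk : Primrec k) (hF : Primrec F) (hw : Primrec w) :
    Primrec fun x => sub (k x) (F x) (w x) :=
  Primrec.comp (f := fun p : (ℕ × List Wd) × Wd => sub p.1.1 p.1.2 p.2)
    (g := fun x => ((k x, F x), w x)) pr_sub (Primrec.pair (Primrec.pair hk hF) hw)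

theorem pp_isDer' {α : Type} [Primcodable α] {k : α → ℕ} {R : α → List Wd} {v : α → Wd}
    {d : α → Der} (hk : Primrec k) (hR : Primrec R) (hv : Primrec v) (hd : Primrec d) :
    PrimrecPred fun x => IsDer (k x) (R x) (v x) (d x) :=
  PrimrecPred.comp (p := fun p : (ℕ × List Wd) × Wd × Der => IsDer p.1.1 p.1.2 p.2.1 p.2.2)
    (f := fun x => ((k x, R x), v x, d x)) pp_isDer
    (Primrec.pair (Primrec.pair hk hR) (Primrec.pair hv hd))

/-- the homomorphism of a substitution -/
def sg (K : ℕ) (F : List Wd) : FreeGroup ℕ →* FreeGroup ℕ :=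
  FreeGroup.lift fun i => FreeGroup.mk (im K F i)

theorem mk_sub (K : ℕ) (F : List Wd) (w : Wd) :
    FreeGroup.mk (sub K F w) = sg K F (FreeGroup.mk w) := by
  induction w with
  | nil =>
    have h1 : sub K F [] = [] := rfl
    rw [h1, mk_nil', map_one]
  | cons q w ih =>
    have h1 : sub K F (q :: w) = (if q.2 = true then im K F q.1 else inv (im K F q.1)) ++
        sub K F w := by
      unfold sub
      rw [List.flatMap_cons]
    have h2 : FreeGroup.mk (q :: w) = FreeGroup.mk [q] * FreeGroup.mk w := by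
      rw [← mk_app]
      rfl
    rw [h1, mk_app, ih, h2, map_mul]
    congr 1
    obtain ⟨i, b⟩ := q
    cases b
    · rw [if_neg (by simp), inv_eq]
      have : (FreeGroup.mk [(i, false)] : FreeGroup ℕ) = (FreeGroup.of i)⁻¹ := rfl
      rw [this, map_inv, sg, FreeGroup.lift_apply_of]
    · rw [if_pos rfl]
      have : (FreeGroup.mk [(i, true)] : FreeGroup ℕ) = FreeGroup.of i := rfl
      rw [this, sg, FreeGroup.lift_apply_of]

/-- one half of the conditions, with derivations -/
def Hf (p q : ℕ × List Wd) (F E : List Wd) (D : List Der) : Prop :=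
  (∀ r ∈ p.2, ∃ d ∈ D, IsDer q.1 q.2 (sub p.1 F r) d) ∧
    ∀ i ∈ List.range p.1, ∃ d ∈ D, IsDer p.1 p.2
      (sub q.1 E (sub p.1 F [(i, true)]) ++ inv [(i, true)]) d

/-- the tuples -/
abbrev Tp := ((ℕ × List Wd) × (ℕ × List Wd)) × (List Wd × List Wd × List Der)

theorem pr_Hf {f g : Tp → ℕ × List Wd} {a b : Tp → List Wd} {c : Tp → List Der} (hf : Primrec f)
    (hg : Primrec g) (ha : Primrec a) (hb : Primrec b) (hc : Primrec c) :
    PrimrecPred fun t : Tp => Hf (f t) (g t) (a t) (b t) (c t) := by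
  have hsing : Primrec fun i : ℕ => ([(i, true)] : Wd) :=
    Primrec.list_cons.comp (Primrec.pair Primrec.id (Primrec.const true)) (Primrec.const [])
  refine PrimrecPred.and ?_ ?_
  · refine pp_forall (f := fun t : Tp => (f t).2)
      (P := fun t r => ∃ d ∈ c t, IsDer (g t).1 (g t).2 (sub (f t).1 (a t) r) d)
      (Primrec.snd.comp hf) ?_
    refine pp_exists (f := fun p : Tp × Wd => c p.1)
      (P := fun p d => IsDer (g p.1).1 (g p.1).2 (sub (f p.1).1 (a p.1) p.2) d)
      (hc.comp Primrec.fst) ?_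
    have h1 : Primrec fun p : (Tp × Wd) × Der => p.1.1 := Primrec.fst.comp Primrec.fst
    have h2 : Primrec fun p : (Tp × Wd) × Der => p.1.2 := Primrec.snd.comp Primrec.fst
    exact pp_isDer' (Primrec.fst.comp (hg.comp h1)) (Primrec.snd.comp (hg.comp h1))
      (pr_sub' (Primrec.fst.comp (hf.comp h1)) (ha.comp h1) h2) Primrec.snd
  · refine pp_forall (f := fun t : Tp => List.range (f t).1)
      (P := fun t i => ∃ d ∈ c t, IsDer (f t).1 (f t).2
        (sub (g t).1 (b t) (sub (f t).1 (a t) [(i, true)]) ++ inv [(i, true)]) d)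
      (Primrec.list_range.comp (Primrec.fst.comp hf)) ?_
    refine pp_exists (f := fun p : Tp × ℕ => c p.1)
      (P := fun p d => IsDer (f p.1).1 (f p.1).2
        (sub (g p.1).1 (b p.1) (sub (f p.1).1 (a p.1) [(p.2, true)]) ++ inv [(p.2, true)]) d)
      (hc.comp Primrec.fst) ?_
    have h1 : Primrec fun p : (Tp × ℕ) × Der => p.1.1 := Primrec.fst.comp Primrec.fst
    have h2 : Primrec fun p : (Tp × ℕ) × Der => ([(p.1.2, true)] : Wd) :=
      hsing.comp (Primrec.snd.comp Primrec.fst)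
    have h3 : Primrec fun p : (Tp × ℕ) × Der => sub (f p.1.1).1 (a p.1.1) [(p.1.2, true)] :=
      pr_sub' (Primrec.fst.comp (hf.comp h1)) (ha.comp h1) h2
    have h4 : Primrec fun p : (Tp × ℕ) × Der =>
        sub (g p.1.1).1 (b p.1.1) (sub (f p.1.1).1 (a p.1.1) [(p.1.2, true)]) :=
      pr_sub' (Primrec.fst.comp (hg.comp h1)) (hb.comp h1) h3
    exact pp_isDer' (Primrec.fst.comp (hf.comp h1)) (Primrec.snd.comp (hf.comp h1))
      (Primrec.list_append.comp h4 (pr_inv.comp h2)) Primrec.snd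

/-- one half of the conditions, with normal closures -/
def Hn (p q : ℕ × List Wd) (F E : List Wd) : Prop :=
  (∀ r ∈ p.2, sg p.1 F (FreeGroup.mk r) ∈ Subgroup.normalClosure (relsN q.1 q.2)) ∧
    ∀ i, i < p.1 → sg q.1 E (sg p.1 F (FreeGroup.of i)) * (FreeGroup.of i)⁻¹ ∈
      Subgroup.normalClosure (relsN p.1 p.2)

theorem hf_mono {p q : ℕ × List Wd} {F E : List Wd} {D D' : List Der} (h : Hf p q F E D)
    (hD : ∀ d ∈ D, d ∈ D') : Hf p q F E D' := by
  refine ⟨fun r hr => ?_, fun i hi => ?_⟩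
  · obtain ⟨d, hd, h1⟩ := h.1 r hr
    exact ⟨d, hD d hd, h1⟩
  · obtain ⟨d, hd, h1⟩ := h.2 i hi
    exact ⟨d, hD d hd, h1⟩

theorem mk_two (p q : ℕ × List Wd) (F E : List Wd) (i : ℕ) :
    FreeGroup.mk (sub q.1 E (sub p.1 F [(i, true)]) ++ inv [(i, true)]) =
      sg q.1 E (sg p.1 F (FreeGroup.of i)) * (FreeGroup.of i)⁻¹ := by
  rw [mk_app, mk_sub, mk_sub, inv_eq]
  rfl

theorem hn_iff (p q : ℕ × List Wd) (F E : List Wd) : Hn p q F E ↔ ∃ D, Hf p q F E D := by
  constructor
  · rintro ⟨h1, h2⟩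
    have h1' : ∀ r, ∃ d, r ∈ p.2 → IsDer q.1 q.2 (sub p.1 F r) d := by
      intro r
      by_cases hr : r ∈ p.2
      · have := h1 r hr
        rw [← mk_sub, der_iff] at this
        obtain ⟨d, hd⟩ := this
        exact ⟨d, fun _ => hd⟩
      · exact ⟨[], fun h => absurd h hr⟩
    have h2' : ∀ i, ∃ d, i < p.1 → IsDer p.1 p.2
        (sub q.1 E (sub p.1 F [(i, true)]) ++ inv [(i, true)]) d := by
      intro i
      by_cases hi : i < p.1
      · have := h2 i hi
        rw [← mk_two, der_iff] at this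
        obtain ⟨d, hd⟩ := this
        exact ⟨d, fun _ => hd⟩
      · exact ⟨[], fun h => absurd h hi⟩
    choose d1 hd1 using h1'
    choose d2 hd2 using h2'
    refine ⟨p.2.map d1 ++ (List.range p.1).map d2, fun r hr => ?_, fun i hi => ?_⟩
    · exact ⟨d1 r, List.mem_append_left _ (List.mem_map_of_mem hr), hd1 r hr⟩
    · exact ⟨d2 i, List.mem_append_right _ (List.mem_map_of_mem hi), hd2 i (List.mem_range.1 hi)⟩
  · rintro ⟨D, h1, h2⟩
    refine ⟨fun r hr => ?_, fun i hi => ?_⟩
    · obtain ⟨d, -, hd⟩ := h1 r hr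
      rw [← mk_sub, der_iff]
      exact ⟨d, hd⟩
    · obtain ⟨d, -, hd⟩ := h2 i (List.mem_range.2 hi)
      rw [← mk_two, der_iff]
      exact ⟨d, hd⟩

/-- the group of a code, with trivial generators -/
abbrev PN (a : ℕ × List Wd) : Type := PresentedGroup (relsN a.1 a.2)

theorem sg_of_ge (K : ℕ) (F : List Wd) (i : ℕ) (h : K ≤ i) : sg K F (FreeGroup.of i) = 1 := by
  rw [sg, FreeGroup.lift_apply_of, im, if_neg (by omega)]
  exact mk_nil'

theorem of_ge (a : ℕ × List Wd) (i : ℕ) (h : a.1 ≤ i) :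
    PresentedGroup.mk (relsN a.1 a.2) (FreeGroup.of i) = 1 :=
  PresentedGroup.mk_eq_one_iff.2 (Subgroup.subset_normalClosure (Or.inl ⟨i, h, rfl⟩))

theorem hom_of_hn {p q : ℕ × List Wd} {F E : List Wd} (h : Hn p q F E) :
    ∃ φ : PN p →* PN q, ∀ x, φ (PresentedGroup.mk _ x) = PresentedGroup.mk _ (sg p.1 F x) := by
  have h1 : ∀ r ∈ relsN p.1 p.2, FreeGroup.lift (fun i => (PresentedGroup.mk (relsN q.1 q.2)
      (sg p.1 F (FreeGroup.of i)))) r = 1 := by
    have h2 : FreeGroup.lift (fun i => (PresentedGroup.mk (relsN q.1 q.2)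
      (sg p.1 F (FreeGroup.of i)))) = (PresentedGroup.mk (relsN q.1 q.2)).comp (sg p.1 F) := by
      apply FreeGroup.ext_hom
      intro i
      rw [FreeGroup.lift_apply_of]
      rfl
    rw [h2]
    rintro r (⟨i, hi, rfl⟩ | ⟨w, hw, rfl⟩)
    · rw [MonoidHom.comp_apply, sg_of_ge _ _ _ hi, map_one]
    · rw [MonoidHom.comp_apply]
      exact PresentedGroup.mk_eq_one_iff.2 (h.1 w hw)
  refine ⟨PresentedGroup.toGroup h1, fun x => ?_⟩
  have h3 : (PresentedGroup.toGroup h1).comp (PresentedGroup.mk (relsN p.1 p.2)) =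
      (PresentedGroup.mk (relsN q.1 q.2)).comp (sg p.1 F) := by
    apply FreeGroup.ext_hom
    intro i
    exact PresentedGroup.toGroup.of h1
  exact DFunLike.congr_fun h3 x

theorem comp_id {p q : ℕ × List Wd} {F E : List Wd} (h : Hn p q F E) (φ : PN p →* PN q)
    (ψ : PN q →* PN p)
    (hφ : ∀ x, φ (PresentedGroup.mk _ x) = PresentedGroup.mk _ (sg p.1 F x))
    (hψ : ∀ x, ψ (PresentedGroup.mk _ x) = PresentedGroup.mk _ (sg q.1 E x)) (y : PN p) :
    ψ (φ y) = y := by
  obtain ⟨x, rfl⟩ := PresentedGroup.mk_surjective _ y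
  have h1 : ((ψ.comp φ).comp (PresentedGroup.mk (relsN p.1 p.2))) =
      PresentedGroup.mk (relsN p.1 p.2) := by
    apply FreeGroup.ext_hom
    intro i
    rw [MonoidHom.comp_apply, MonoidHom.comp_apply, hφ, hψ]
    by_cases hi : i < p.1
    · have := PresentedGroup.mk_eq_one_iff.2 (h.2 i hi)
      rw [map_mul, map_inv, mul_inv_eq_one] at this
      exact this
    · rw [sg_of_ge _ _ _ (by omega), map_one, map_one, of_ge _ _ (by omega)]
  exact DFunLike.congr_fun h1 x

theorem list_of_hom {p q : ℕ × List Wd} (φ : PN p →* PN q) :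
    ∃ F : List Wd, ∀ x, φ (PresentedGroup.mk _ x) = PresentedGroup.mk _ (sg p.1 F x) := by
  have h : ∀ i : ℕ, ∃ w : Wd, φ (PresentedGroup.mk _ (FreeGroup.of i)) =
      PresentedGroup.mk _ (FreeGroup.mk w) := by
    intro i
    obtain ⟨y, hy⟩ := PresentedGroup.mk_surjective _ (φ (PresentedGroup.mk _ (FreeGroup.of i)))
    obtain ⟨w, rfl⟩ : ∃ w, FreeGroup.mk w = y := ⟨y.toWord, FreeGroup.mk_toWord⟩
    exact ⟨w, hy.symm⟩
  choose f hf using h
  refine ⟨(List.range p.1).map f, fun x => ?_⟩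
  have h1 : φ.comp (PresentedGroup.mk (relsN p.1 p.2)) =
      (PresentedGroup.mk (relsN q.1 q.2)).comp (sg p.1 ((List.range p.1).map f)) := by
    apply FreeGroup.ext_hom
    intro i
    rw [MonoidHom.comp_apply, MonoidHom.comp_apply]
    by_cases hi : i < p.1
    · rw [hf, sg, FreeGroup.lift_apply_of, im, if_pos hi]
      congr 2
      simp [List.getD, hi]
    · rw [sg_of_ge _ _ _ (by omega), of_ge _ _ (by omega), map_one, map_one]
  exact DFunLike.congr_fun h1 x

theorem iso_iff (p q : ℕ × List Wd) :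
    Nonempty (PN p ≃* PN q) ↔ ∃ F E, Hn p q F E ∧ Hn q p E F := by
  constructor
  · rintro ⟨e⟩
    obtain ⟨F, hF⟩ := list_of_hom e.toMonoidHom
    obtain ⟨E, hE⟩ := list_of_hom e.symm.toMonoidHom
    refine ⟨F, E, ⟨fun r hr => ?_, fun i hi => ?_⟩, ⟨fun r hr => ?_, fun i hi => ?_⟩⟩
    · rw [← PresentedGroup.mk_eq_one_iff, ← hF]
      have : PresentedGroup.mk (relsN p.1 p.2) (FreeGroup.mk r) = 1 :=
        PresentedGroup.mk_eq_one_iff.2 (Subgroup.subset_normalClosure (Or.inr ⟨r, hr, rfl⟩))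
      rw [this, map_one]
    · rw [← PresentedGroup.mk_eq_one_iff, map_mul, map_inv, mul_inv_eq_one, ← hE, ← hF]
      exact e.symm_apply_apply _
    · rw [← PresentedGroup.mk_eq_one_iff, ← hE]
      have : PresentedGroup.mk (relsN q.1 q.2) (FreeGroup.mk r) = 1 :=
        PresentedGroup.mk_eq_one_iff.2 (Subgroup.subset_normalClosure (Or.inr ⟨r, hr, rfl⟩))
      rw [this, map_one]
    · rw [← PresentedGroup.mk_eq_one_iff, map_mul, map_inv, mul_inv_eq_one, ← hF, ← hE]
      exact e.apply_symm_apply _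
  · rintro ⟨F, E, h1, h2⟩
    obtain ⟨φ, hφ⟩ := hom_of_hn h1
    obtain ⟨ψ, hψ⟩ := hom_of_hn h2
    exact ⟨MonoidHom.toMulEquiv φ ψ (MonoidHom.ext (comp_id h1 φ ψ hφ hψ))
      (MonoidHom.ext (comp_id h2 ψ φ hψ hφ))⟩

theorem pn_re : REPred (fun p : (ℕ × List Wd) × (ℕ × List Wd) => Nonempty (PN p.1 ≃* PN p.2)) := by
  have h1 : Primrec fun t : Tp => t.1.1 := Primrec.fst.comp Primrec.fst
  have h2 : Primrec fun t : Tp => t.1.2 := Primrec.snd.comp Primrec.fst
  have h3 : Primrec fun t : Tp => t.2.1 := Primrec.fst.comp Primrec.snd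
  have h4 : Primrec fun t : Tp => t.2.2.1 := Primrec.fst.comp (Primrec.snd.comp Primrec.snd)
  have h5 : Primrec fun t : Tp => t.2.2.2 := Primrec.snd.comp (Primrec.snd.comp Primrec.snd)
  have h := re_exists (α := (ℕ × List Wd) × (ℕ × List Wd)) (β := List Wd × List Wd × List Der)
    (P := fun t : Tp => Hf t.1.1 t.1.2 t.2.1 t.2.2.1 t.2.2.2 ∧
      Hf t.1.2 t.1.1 t.2.2.1 t.2.1 t.2.2.2)
    (PrimrecPred.and (pr_Hf h1 h2 h3 h4 h5) (pr_Hf h2 h1 h4 h3 h5))
  refine h.of_eq ?_
  rintro ⟨p, q⟩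
  rw [iso_iff]
  constructor
  · rintro ⟨⟨F, E, D⟩, ha, hb⟩
    exact ⟨F, E, (hn_iff _ _ _ _).2 ⟨D, ha⟩, (hn_iff _ _ _ _).2 ⟨D, hb⟩⟩
  · rintro ⟨F, E, ha, hb⟩
    obtain ⟨D, hD⟩ := (hn_iff _ _ _ _).1 ha
    obtain ⟨D', hD'⟩ := (hn_iff _ _ _ _).1 hb
    exact ⟨⟨F, E, D ++ D'⟩, hf_mono hD (fun d hd => List.mem_append_left _ hd),
      hf_mono hD' (fun d hd => List.mem_append_right _ hd)⟩

/-- from natural letters to `Fin` letters -/
def dn (K : ℕ) : FreeGroup ℕ →* FreeGroup (Fin K) :=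
  FreeGroup.lift fun i => if h : i < K then FreeGroup.of ⟨i, h⟩ else 1

theorem dn_mk (K : ℕ) (w : Wd) : dn K (FreeGroup.mk w) = FreeGroup.mk
    (w.filterMap (fun q => if h : q.1 < K then some ((⟨q.1, h⟩ : Fin K), q.2) else none)) := by
  induction w with
  | nil =>
    rw [List.filterMap_nil, mk_nil', map_one]
    exact FreeGroup.one_eq_mk
  | cons q w ih =>
    have h2 : FreeGroup.mk (q :: w) = FreeGroup.mk [q] * FreeGroup.mk w := by
      rw [← mk_app]
      rfl
    rw [h2, map_mul, ih, List.filterMap_cons]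
    obtain ⟨i, b⟩ := q
    by_cases hi : i < K
    · simp only [hi, dite_true]
      rw [show (FreeGroup.mk (((⟨i, hi⟩ : Fin K), b) ::
        w.filterMap (fun q => if h : q.1 < K then some ((⟨q.1, h⟩ : Fin K), q.2) else none))) =
        FreeGroup.mk [((⟨i, hi⟩ : Fin K), b)] * FreeGroup.mk (w.filterMap
          (fun q => if h : q.1 < K then some ((⟨q.1, h⟩ : Fin K), q.2) else none)) by
          rw [FreeGroup.mul_mk]; rfl]
      congr 1
      cases b
      · have : (FreeGroup.mk [(i, false)] : FreeGroup ℕ) = (FreeGroup.of i)⁻¹ := rfl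
        rw [this, map_inv, dn, FreeGroup.lift_apply_of, dif_pos hi]
        rfl
      · have : (FreeGroup.mk [(i, true)] : FreeGroup ℕ) = FreeGroup.of i := rfl
        rw [this, dn, FreeGroup.lift_apply_of, dif_pos hi]
        rfl
    · simp only [hi, dite_false]
      have : dn K (FreeGroup.mk [(i, b)]) = 1 := by
        cases b
        · have : (FreeGroup.mk [(i, false)] : FreeGroup ℕ) = (FreeGroup.of i)⁻¹ := rfl
          rw [this, map_inv, dn, FreeGroup.lift_apply_of, dif_neg hi, inv_one]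
        · have : (FreeGroup.mk [(i, true)] : FreeGroup ℕ) = FreeGroup.of i := rfl
          rw [this, dn, FreeGroup.lift_apply_of, dif_neg hi]
      rw [this, one_mul]

theorem pg_pn (a : ℕ × List (List (ℕ × Bool))) : Nonempty (PG a ≃* PN a) := by
  have hmk : ∀ x : FreeGroup ℕ, PresentedGroup.mk (relsN a.1 a.2)
      (FreeGroup.map (fun i : Fin a.1 => i.val) (dn a.1 x)) =
      PresentedGroup.mk (relsN a.1 a.2) x := by
    have h : ((PresentedGroup.mk (relsN a.1 a.2)).comp
        ((FreeGroup.map (fun i : Fin a.1 => i.val)).comp (dn a.1))) =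
        PresentedGroup.mk (relsN a.1 a.2) := by
      apply FreeGroup.ext_hom
      intro i
      rw [MonoidHom.comp_apply, MonoidHom.comp_apply, dn, FreeGroup.lift_apply_of]
      by_cases hi : i < a.1
      · rw [dif_pos hi, FreeGroup.map.of]
      · rw [dif_neg hi, map_one, map_one, of_ge _ _ (by omega)]
    exact fun x => DFunLike.congr_fun h x
  have h1 : ∀ r ∈ relSet a, FreeGroup.lift (fun i : Fin a.1 =>
      PresentedGroup.mk (relsN a.1 a.2) (FreeGroup.of i.val)) r = 1 := by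
    rintro r ⟨w, hw, rfl⟩
    have h2 : FreeGroup.lift (fun i : Fin a.1 =>
        PresentedGroup.mk (relsN a.1 a.2) (FreeGroup.of i.val)) =
        (PresentedGroup.mk (relsN a.1 a.2)).comp (FreeGroup.map (fun i : Fin a.1 => i.val)) := by
      apply FreeGroup.ext_hom
      intro i
      rw [FreeGroup.lift_apply_of, MonoidHom.comp_apply, FreeGroup.map.of]
    rw [h2, MonoidHom.comp_apply, ← dn_mk, hmk]
    exact PresentedGroup.mk_eq_one_iff.2 (Subgroup.subset_normalClosure (Or.inr ⟨w, hw, rfl⟩))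
  have h3 : ∀ r ∈ relsN a.1 a.2, FreeGroup.lift (fun i : ℕ =>
      PresentedGroup.mk (relSet a) (dn a.1 (FreeGroup.of i))) r = 1 := by
    have h4 : FreeGroup.lift (fun i : ℕ =>
        PresentedGroup.mk (relSet a) (dn a.1 (FreeGroup.of i))) =
        (PresentedGroup.mk (relSet a)).comp (dn a.1) := by
      apply FreeGroup.ext_hom
      intro i
      rw [FreeGroup.lift_apply_of, MonoidHom.comp_apply]
    rw [h4]
    rintro r (⟨i, hi, rfl⟩ | ⟨w, hw, rfl⟩)
    · rw [MonoidHom.comp_apply, dn, FreeGroup.lift_apply_of, dif_neg (by omega), map_one]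
    · rw [MonoidHom.comp_apply, dn_mk]
      exact PresentedGroup.mk_eq_one_iff.2 (Subgroup.subset_normalClosure ⟨w, hw, rfl⟩)
  refine ⟨MonoidHom.toMulEquiv (PresentedGroup.toGroup h1) (PresentedGroup.toGroup h3) ?_ ?_⟩
  · apply PresentedGroup.ext
    intro i
    rw [MonoidHom.comp_apply, PresentedGroup.toGroup.of]
    have : PresentedGroup.toGroup h3 (PresentedGroup.mk (relsN a.1 a.2) (FreeGroup.of i.val)) =
      PresentedGroup.mk (relSet a) (dn a.1 (FreeGroup.of i.val)) := PresentedGroup.toGroup.of h3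
    rw [this, dn, FreeGroup.lift_apply_of, dif_pos i.2]
    rfl
  · apply PresentedGroup.ext
    intro i
    rw [MonoidHom.comp_apply, PresentedGroup.toGroup.of]
    by_cases hi : i < a.1
    · rw [dn, FreeGroup.lift_apply_of, dif_pos hi]
      exact PresentedGroup.toGroup.of h1
    · rw [dn, FreeGroup.lift_apply_of, dif_neg hi, map_one, map_one]
      exact (of_ge a i (by omega)).symm

theorem reStm : StmRE := by
  refine pn_re.of_eq ?_
  rintro ⟨p, q⟩
  obtain ⟨e⟩ := pg_pn p
  obtain ⟨e'⟩ := pg_pn q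
  exact ⟨fun ⟨f⟩ => ⟨e.trans (f.trans e'.symm)⟩, fun ⟨f⟩ => ⟨e.symm.trans (f.trans e')⟩⟩

end Pool.Agent.T2H50.ISO
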