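import Pool.Agent.Y817.ISO.Stm

/-!
Part GMODEL of project ISO (frozen statement S14615).
-/

set_option autoImplicit false

namespace Pool.Agent.T2H50.ISO

open Pool.Agent.Y817.ISO

section
variable {K : Type} [Group K] (Q : Subgroup K)

/-- the action on the functions -/
def actE (p : K × Multiplicative ℤ) : (K ⧸ Q → ℚ) ≃+ (K ⧸ Q → ℚ) where
  toFun f := fun C => (2 : ℚ) ^ (-(p.2.toAdd)) * f (p.1⁻¹ • C)
  invFun f := fun C => (2 : ℚ) ^ (p.2.toAdd) * f (p.1 • C)
  left_inv f := by
    funext C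
    simp only [inv_smul_smul]
    rw [← mul_assoc, ← zpow_add₀ (by norm_num)]
    simp
  right_inv f := by
    funext C
    simp only [smul_inv_smul]
    rw [← mul_assoc, ← zpow_add₀ (by norm_num)]
    simp
  map_add' f g := by
    funext C
    simp [mul_add]

/-- the action as a homomorphism -/
def actM : K × Multiplicative ℤ →* MulAut (Multiplicative (K ⧸ Q → ℚ)) where
  toFun p := AddEquiv.toMultiplicative (actE Q p)
  map_one' := by
    apply MulEquiv.ext
    intro f
    apply Multiplicative.toAdd.injective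
    funext C
    simp [actE]
  map_mul' p q := by
    apply MulEquiv.ext
    intro f
    apply Multiplicative.toAdd.injective
    funext C
    show (2 : ℚ) ^ (-((p * q).2.toAdd)) * f.toAdd ((p * q).1⁻¹ • C) =
      (2 : ℚ) ^ (-(p.2.toAdd)) * ((2 : ℚ) ^ (-(q.2.toAdd)) * f.toAdd (q.1⁻¹ • p.1⁻¹ • C))
    rw [← mul_smul, ← mul_assoc, ← zpow_add₀ (by norm_num), Prod.fst_mul, mul_inv_rev,
      Prod.snd_mul, toAdd_mul, neg_add]

theorem actM_apply (p : K × Multiplicative ℤ) (f : Multiplicative (K ⧸ Q → ℚ)) (C : K ⧸ Q) :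
    (actM Q p f).toAdd C = (2 : ℚ) ^ (-(p.2.toAdd)) * f.toAdd (p.1⁻¹ • C) := rfl

/-- the model -/
abbrev MM : Type := Multiplicative (K ⧸ Q → ℚ) ⋊[actM Q] (K × Multiplicative ℤ)

/-- the embedding of `K` -/
def mphi : K →* MM Q := SemidirectProduct.inr.comp (MonoidHom.inl K (Multiplicative ℤ))

/-- a function as an element of the model -/
def mf (f : K ⧸ Q → ℚ) : MM Q := SemidirectProduct.inl (Multiplicative.ofAdd f)

/-- the stable letter `u` -/
def mu : MM Q := SemidirectProduct.inr (1, Multiplicative.ofAdd 1)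

open Classical in
/-- the element `z` -/
noncomputable def mz : MM Q := mf Q (Pi.single ((1 : K) : K ⧸ Q) 1)

theorem mf_add (f g : K ⧸ Q → ℚ) : mf Q (f + g) = mf Q f * mf Q g := by
  simp [mf, ofAdd_add]

theorem mf_zpow (f : K ⧸ Q → ℚ) (a : ℤ) : mf Q f ^ a = mf Q (fun C => a * f C) := by
  unfold mf
  rw [← map_zpow, ← ofAdd_zsmul]
  have : a • f = fun C => a * f C := by
    funext C
    simp
  rw [this]

theorem conj_mf (p : K × Multiplicative ℤ) (f : K ⧸ Q → ℚ) :
    (SemidirectProduct.inr p : MM Q) * mf Q f * (SemidirectProduct.inr p)⁻¹ =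
      mf Q (fun C => (2 : ℚ) ^ (-(p.2.toAdd)) * f (p.1⁻¹ • C)) := by
  unfold mf
  rw [← map_inv, ← SemidirectProduct.inl_aut]
  rfl

open Classical in
theorem single_smul (k : K) (C : K ⧸ Q) :
    (Pi.single ((1 : K) : K ⧸ Q) (1 : ℚ) : K ⧸ Q → ℚ) (k • C) =
      (Pi.single (k⁻¹ • ((1 : K) : K ⧸ Q)) (1 : ℚ) : K ⧸ Q → ℚ) C := by
  rw [Pi.single_apply, Pi.single_apply]
  congr 1
  apply propext
  constructor
  · intro h; rw [← h, inv_smul_smul]
  · rintro rfl; rw [smul_inv_smul]

end

theorem gmodel : StmGModel := by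
  classical
  intro K _ Q Rr π x t hB
  refine ⟨MM Q, inferInstance, mphi Q, mz Q, mu Q, ?_, ?_, ?_, ?_⟩
  · intro q hq
    have h := conj_mf Q (q, 1) (Pi.single ((1 : K) : K ⧸ Q) 1)
    have e : (fun C => (2 : ℚ) ^ (-((q, (1 : Multiplicative ℤ)).2.toAdd)) *
        (Pi.single ((1 : K) : K ⧸ Q) (1 : ℚ) : K ⧸ Q → ℚ) ((q, (1 : Multiplicative ℤ)).1⁻¹ • C)) =
        Pi.single ((1 : K) : K ⧸ Q) 1 := by
      funext C
      simp only [toAdd_one, neg_zero, zpow_zero, one_mul]
      rw [single_smul, inv_inv]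
      congr 1
      congr 1
      show ((q * 1 : K) : K ⧸ Q) = ((1 : K) : K ⧸ Q)
      rw [eq_comm, QuotientGroup.eq]
      simpa using hq
    rw [e] at h
    have h2 : mphi Q q * mz Q = mz Q * mphi Q q := by
      rw [← mul_inv_eq_iff_eq_mul]
      exact h
    exact h2.symm
  · intro k
    show mu Q * mphi Q k = mphi Q k * mu Q
    unfold mu mphi
    simp only [MonoidHom.comp_apply, ← map_mul, MonoidHom.inl_apply, Prod.mk_mul_mk, one_mul,
      mul_one]
  · have h := conj_mf Q (1, Multiplicative.ofAdd (-1)) (Pi.single ((1 : K) : K ⧸ Q) 1)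
    have e1 : (SemidirectProduct.inr (1, Multiplicative.ofAdd (-1)) : MM Q) = (mu Q)⁻¹ := by
      unfold mu
      rw [← map_inv, Prod.inv_mk, inv_one, ← ofAdd_neg]
    rw [e1, inv_inv] at h
    show (mu Q)⁻¹ * mz Q * mu Q = mz Q ^ 2
    unfold mz
    rw [h, ← zpow_natCast, mf_zpow]
    congr 1
    funext C
    simp
  · intro n hn a ha g hg
    -- the sets of values
    let A : K ⧸ Q → AddSubgroup ℚ := fun C => AddSubgroup.closure
      {q : ℚ | ∃ m : ℤ, (s x t m)⁻¹ • ((1 : K) : K ⧸ Q) = C ∧ q = (2 : ℚ) ^ (m + 1)}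
    have hxQ : ∀ m : ℤ, (x ^ m) • ((1 : K) : K ⧸ Q) = ((1 : K) : K ⧸ Q) := by
      intro m
      show ((x ^ m * 1 : K) : K ⧸ Q) = ((1 : K) : K ⧸ Q)
      rw [eq_comm, QuotientGroup.eq]
      simpa using Q.zpow_mem hB.x_mem m
    have hs : ∀ j m : ℤ, (x ^ (-j)) • (s x t m)⁻¹ • ((1 : K) : K ⧸ Q) =
        (s x t (m + j))⁻¹ • ((1 : K) : K ⧸ Q) := by
      intro j m
      have e1 : (s x t (m + j))⁻¹ = x ^ (-j) * (s x t m)⁻¹ * x ^ j := by
        unfold s
        group
      rw [e1, mul_smul, mul_smul, hxQ]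
    have hA : ∀ (j : ℤ) (C : K ⧸ Q) (q : ℚ), q ∈ A (x ^ j • C) → (2 : ℚ) ^ j * q ∈ A C := by
      intro j C q hq
      have h1 : A (x ^ j • C) ≤ (A C).comap (AddMonoidHom.mulLeft ((2 : ℚ) ^ j)) := by
        rw [AddSubgroup.closure_le]
        rintro _ ⟨m, h1, rfl⟩
        refine AddSubgroup.subset_closure ⟨m + j, ?_, ?_⟩
        · rw [← hs, h1, ← mul_smul, ← zpow_add]
          simp
        · show (2 : ℚ) ^ j * 2 ^ (m + 1) = _
          rw [← zpow_add₀ (by norm_num)]
          congr 1
          ring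
      exact h1 hq
    -- the first subgroup
    let G1 : Subgroup (MM Q) :=
      { carrier := {w | w.right.1 = x ^ (w.right.2.toAdd) ∧ ∀ C, w.left.toAdd C ∈ A C}
        one_mem' := by
          refine ⟨by simp, fun C => ?_⟩
          exact (A C).zero_mem
        mul_mem' := by
          rintro w w' ⟨h1, h2⟩ ⟨h3, h4⟩
          refine ⟨?_, fun C => ?_⟩
          · show w.right.1 * w'.right.1 = x ^ (w.right.2.toAdd + w'.right.2.toAdd)
            rw [h1, h3, zpow_add]
          · show w.left.toAdd C + (actM Q w.right w'.left).toAdd C ∈ A C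
            refine (A C).add_mem (h2 C) ?_
            rw [actM_apply, h1, ← zpow_neg]
            refine hA _ C _ ?_
            exact h4 _
        inv_mem' := by
          rintro w ⟨h1, h2⟩
          refine ⟨?_, fun C => ?_⟩
          · show w.right.1⁻¹ = x ^ (-(w.right.2.toAdd))
            rw [h1, zpow_neg]
          · show (actM Q w.right⁻¹ w.left⁻¹).toAdd C ∈ A C
            rw [actM_apply]
            show (2 : ℚ) ^ (-(-(w.right.2.toAdd))) * (-(w.left.toAdd (w.right.1⁻¹⁻¹ • C))) ∈ A C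
            rw [neg_neg, inv_inv, h1]
            exact hA _ C _ ((A _).neg_mem (h2 _)) }
    let G2 : Subgroup (MM Q) :=
      { carrier := {w | w.right.2 = 1}
        one_mem' := rfl
        mul_mem' := by
          intro w w' h1 h2
          show w.right.2 * w'.right.2 = 1
          rw [show w.right.2 = 1 from h1, show w'.right.2 = 1 from h2, one_mul]
        inv_mem' := by
          intro w h1
          show (w.right.2)⁻¹ = 1
          rw [show w.right.2 = 1 from h1, inv_one] }
    let C0 : K ⧸ Q := (s x t n)⁻¹ • ((1 : K) : K ⧸ Q)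
    let G3 : Subgroup (MM Q) :=
      { carrier := {w | w.right.2 = 1 ∧ w.right.1 ∈ Rr ∧ ∀ ρ ∈ Rr, ∃ b : ℤ,
          w.left.toAdd (ρ • C0) = ((g * b : ℤ) : ℚ)}
        one_mem' := by
          refine ⟨rfl, Rr.one_mem, fun ρ _ => ⟨0, ?_⟩⟩
          show (0 : ℚ) = _
          simp
        mul_mem' := by
          rintro w w' ⟨h1, h2, h3⟩ ⟨h4, h5, h6⟩
          refine ⟨?_, Rr.mul_mem h2 h5, fun ρ hρ => ?_⟩
          · show w.right.2 * w'.right.2 = 1
            rw [h1, h4, one_mul]
          · obtain ⟨b, hb⟩ := h3 ρ hρ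
            obtain ⟨b', hb'⟩ := h6 (w.right.1⁻¹ * ρ) (Rr.mul_mem (Rr.inv_mem h2) hρ)
            refine ⟨b + b', ?_⟩
            show w.left.toAdd (ρ • C0) + (actM Q w.right w'.left).toAdd (ρ • C0) = _
            rw [actM_apply, h1, hb, ← mul_smul, hb']
            push_cast
            simp
            ring
        inv_mem' := by
          rintro w ⟨h1, h2, h3⟩
          refine ⟨?_, Rr.inv_mem h2, fun ρ hρ => ?_⟩
          · show (w.right.2)⁻¹ = 1
            rw [h1, inv_one]
          · obtain ⟨b, hb⟩ := h3 (w.right.1 * ρ) (Rr.mul_mem h2 hρ)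
            refine ⟨-b, ?_⟩
            show (actM Q w.right⁻¹ w.left⁻¹).toAdd (ρ • C0) = _
            rw [actM_apply]
            show (2 : ℚ) ^ (-(-(w.right.2.toAdd))) * (-(w.left.toAdd (w.right.1⁻¹⁻¹ • ρ • C0))) = _
            rw [h1, inv_inv, ← mul_smul, hb]
            push_cast
            simp }
    -- the powers of z conjugated
    have hz : ∀ (k : K) (a : ℤ), ((mphi Q k)⁻¹ * mz Q * mphi Q k) ^ a =
        mf Q (fun C => a * (Pi.single (k⁻¹ • ((1 : K) : K ⧸ Q)) (1 : ℚ) : K ⧸ Q → ℚ) C) := by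
      intro k a
      have h := conj_mf Q (k⁻¹, 1) (Pi.single ((1 : K) : K ⧸ Q) 1)
      have e1 : (SemidirectProduct.inr (k⁻¹, (1 : Multiplicative ℤ)) : MM Q) = (mphi Q k)⁻¹ := by
        rw [← map_inv]; rfl
      rw [e1, inv_inv] at h
      unfold mz
      rw [h, mf_zpow]
      congr 1
      funext C
      simp only [toAdd_one, neg_zero, zpow_zero, one_mul, inv_inv]
      rw [single_smul]
    have hle1 : Subgroup.closure {mphi Q x * mu Q, (mphi Q t)⁻¹ * mz Q ^ 2 * mphi Q t} ≤ G1 := by
      rw [Subgroup.closure_le]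
      rintro w (rfl | rfl)
      · refine ⟨?_, fun C => ?_⟩
        · show x * 1 = x ^ ((1 : Multiplicative ℤ) * Multiplicative.ofAdd 1).toAdd
          simp
        · show ((1 : Multiplicative (K ⧸ Q → ℚ)) * (actM Q (x, 1) 1)).toAdd C ∈ A C
          rw [map_one, one_mul]
          exact (A C).zero_mem
      · have e2 : (mphi Q t)⁻¹ * mz Q ^ 2 * mphi Q t =
            ((mphi Q t)⁻¹ * mz Q * mphi Q t) ^ (2 : ℤ) := by
          rw [zpow_ofNat, sq, sq]; group
        rw [SetLike.mem_coe, e2, hz]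
        refine ⟨by simp [mf], fun C => ?_⟩
        show (2 : ℤ) * (Pi.single (t⁻¹ • ((1 : K) : K ⧸ Q)) (1 : ℚ) : K ⧸ Q → ℚ) C ∈ A C
        rw [Pi.single_apply]
        split_ifs with h
        · refine AddSubgroup.subset_closure ⟨0, ?_, ?_⟩
          · rw [h]; simp [s]
          · norm_num
        · rw [mul_zero]
          exact (A C).zero_mem
    have hle2 : Subgroup.closure (Set.range (mphi Q) ∪ {mz Q}) ≤ G2 := by
      rw [Subgroup.closure_le]
      rintro w (⟨k, rfl⟩ | rfl)
      · rfl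
      · rfl
    have hle3 : Subgroup.closure
        (((Subgroup.closure {mphi Q x * mu Q, (mphi Q t)⁻¹ * mz Q ^ 2 * mphi Q t} ⊓
          Subgroup.closure (Set.range (mphi Q) ∪ {mz Q}) : Subgroup (MM Q)) : Set (MM Q)) ∪
          (mphi Q) '' Rr) ≤ G3 := by
      rw [Subgroup.closure_le]
      rintro w (⟨hw1, hw2⟩ | ⟨ρ, hρ, rfl⟩)
      · have h1 := hle1 hw1
        have h2 : w.right.2 = 1 := hle2 hw2
        refine ⟨h2, ?_, fun ρ hρ => ?_⟩
        · rw [h1.1, h2]
          simp [Rr.one_mem]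
        · have h3 := h1.2 (ρ • C0)
          have h4 : A (ρ • C0) ≤ AddSubgroup.closure {(g : ℚ)} := by
            rw [AddSubgroup.closure_le]
            rintro _ ⟨m, h5, rfl⟩
            have h6 : Conn Rr x t n m := by
              have h7 : (s x t m) * (ρ * (s x t n)⁻¹) ∈ Q := by
                have h8 : (((s x t m)⁻¹ * 1 : K) : K ⧸ Q) = ((ρ * ((s x t n)⁻¹ * 1) : K) : K ⧸ Q) := h5
                rw [QuotientGroup.eq] at h8
                simpa using h8
              have h9 := hB.fix _ h7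
              have hps : ∀ m, π (s x t m) = 1 := by
                intro m
                simp only [s, map_mul, hB.t_one, mul_one, map_zpow, ← zpow_add]
                simp
              rw [map_mul, map_mul, map_inv, hps, hps, hB.fix ρ (hB.le hρ)] at h9
              have h10 : s x t m * ρ * (s x t n)⁻¹ = ρ := by
                simpa [mul_assoc] using h9.symm
              refine ⟨ρ⁻¹, Rr.inv_mem hρ, ?_⟩
              rw [mul_inv_eq_iff_eq_mul] at h10
              rw [inv_inv, mul_assoc, h10]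
              group
            have h11 := hn m h6
            obtain ⟨b, hb⟩ := hg m h6
            rw [SetLike.mem_coe, AddSubgroup.mem_closure_singleton]
            refine ⟨b, ?_⟩
            have h12 : (2 : ℚ) ^ (m + 1) = ((2 ^ (m.toNat + 1) : ℤ) : ℚ) := by
              obtain ⟨m', rfl⟩ := Int.eq_ofNat_of_zero_le h11
              push_cast
              rw [show ((m' : ℤ) + 1) = ((m' + 1 : ℕ) : ℤ) by push_cast; ring, zpow_natCast]
              simp
            rw [h12, hb]
            push_cast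
            simp [mul_comm]
          have h5 := h4 h3
          rw [AddSubgroup.mem_closure_singleton] at h5
          obtain ⟨b, hb⟩ := h5
          refine ⟨b, ?_⟩
          rw [← hb]
          push_cast
          simp [mul_comm]
      · refine ⟨rfl, hρ, fun ρ' _ => ⟨0, ?_⟩⟩
        show (0 : ℚ) = _
        simp
    have h1 := hle3 ha
    rw [hz] at h1
    obtain ⟨-, -, h2⟩ := h1
    obtain ⟨b, hb⟩ := h2 1 Rr.one_mem
    have h3 : (a : ℚ) = ((g * b : ℤ) : ℚ) := by
      rw [← hb]
      show (a : ℚ) = a * (Pi.single ((s x t n)⁻¹ • ((1 : K) : K ⧸ Q)) (1 : ℚ) : K ⧸ Q → ℚ)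
        ((1 : K) • C0)
      rw [one_smul, Pi.single_eq_same, mul_one]
    exact ⟨b, by exact_mod_cast h3⟩

end Pool.Agent.T2H50.ISO
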