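import Pool.Agent.T2H50.ISO.Mhnn
import Pool.Agent.T2H50.ISO.GModel

/-!
Part TOWER of project ISO (frozen statement S14615).
-/

set_option autoImplicit false

namespace Pool.Agent.T2H50.ISO

open Pool.Agent.Y817.ISO

theorem comm_closure {G H : Type} [Group G] [Group H] (f : G →* H) (c : H) (T : Set G)
    (h : ∀ y ∈ T, Commute c (f y)) (a : G) (ha : a ∈ Subgroup.closure T) : Commute c (f a) := by
  have h1 : Subgroup.closure T ≤ (Subgroup.centralizer {c}).comap f := by
    rw [Subgroup.closure_le]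
    intro y hy
    rw [SetLike.mem_coe, Subgroup.mem_comap, Subgroup.mem_centralizer_singleton_iff]
    exact (h y hy).eq.symm
  have h2 := h1 ha
  rw [Subgroup.mem_comap, Subgroup.mem_centralizer_singleton_iff] at h2
  exact h2.symm

/-- the calculation -/
theorem tower_calc {K H : Type} [Group K] [Group H] (φ : K →* H) (x t : K) (z u : H)
    (hzx : Commute z (φ x)) (huk : ∀ k, Commute u (φ k)) (huz : u⁻¹ * z * u = z ^ 2) (m : ℕ) :
    (φ x * u) ^ (-(m : ℤ)) * ((φ t)⁻¹ * z ^ 2 * φ t) * (φ x * u) ^ (m : ℤ) =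
      (φ (s x t m))⁻¹ * z ^ (2 ^ (m + 1)) * φ (s x t m) := by
  have h1 : ∀ m : ℕ, u⁻¹ ^ m * z * u ^ m = z ^ (2 ^ m) := by
    intro m
    induction m with
    | zero => simp
    | succ m ih =>
      have e : u⁻¹ ^ (m + 1) * z * u ^ (m + 1) = u⁻¹ * (u⁻¹ ^ m * z * u ^ m) * u := by
        rw [pow_succ u, pow_succ' u⁻¹]; group
      rw [e, ih]
      have e2 : u⁻¹ * z ^ (2 ^ m) * u = (u⁻¹ * z * u) ^ (2 ^ m) := by
        have := conj_pow (a := u⁻¹) (b := z) (i := 2 ^ m)
        rw [inv_inv] at this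
        exact this.symm
      rw [e2, huz, ← pow_mul, pow_succ, mul_comm]
  have h2 : u⁻¹ ^ m * z ^ 2 * u ^ m = z ^ (2 ^ (m + 1)) := by
    have e2 : u⁻¹ ^ m * z ^ 2 * u ^ m = (u⁻¹ ^ m * z * u ^ m) ^ 2 := by
      have := conj_pow (a := u⁻¹ ^ m) (b := z) (i := 2)
      rw [← inv_pow, inv_inv] at this
      exact this.symm
    rw [e2, h1, ← pow_mul, pow_succ]
  have hxu : Commute (φ x) u := (huk x).symm
  have h3 : (φ x * u) ^ (m : ℤ) = φ (x ^ m) * u ^ m := by
    rw [zpow_natCast, hxu.mul_pow, map_pow]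
  have h4 : (φ x * u) ^ (-(m : ℤ)) = u⁻¹ ^ m * (φ (x ^ m))⁻¹ := by
    rw [zpow_neg, h3, mul_inv_rev, inv_pow]
  have hk : ∀ k, Commute (u ^ m) (φ k) := fun k => (huk k).pow_left m
  have hk' : ∀ k, Commute (u⁻¹ ^ m) (φ k) := fun k => ((huk k).inv_left).pow_left m
  have hz : Commute (z ^ (2 ^ (m + 1))) (φ (x ^ m)) := by
    rw [map_pow]
    exact (hzx.pow_pow _ _)
  have hs : φ (s x t m) = (φ (x ^ m))⁻¹ * φ t * φ (x ^ m) := by
    unfold s
    rw [map_mul, map_mul, zpow_neg, zpow_natCast, map_inv]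
  rw [h3, h4, hs, ← h2]
  have e1 : u⁻¹ ^ m * (φ (x ^ m))⁻¹ * ((φ t)⁻¹ * z ^ 2 * φ t) * (φ (x ^ m) * u ^ m) =
      (u⁻¹ ^ m * (φ (t * x ^ m))⁻¹) * z ^ 2 * (φ (t * x ^ m) * u ^ m) := by
    rw [map_mul]; group
  rw [e1, ← (hk _).eq, ((hk' (t * x ^ m)).inv_right).eq]
  have e2 : (φ (t * x ^ m))⁻¹ * u⁻¹ ^ m * z ^ 2 * (u ^ m * φ (t * x ^ m)) =
      (φ (t * x ^ m))⁻¹ * (u⁻¹ ^ m * z ^ 2 * u ^ m) * φ (t * x ^ m) := by group
  rw [e2, h2, map_mul]
  have e3 : ((φ (x ^ m))⁻¹ * φ t * φ (x ^ m))⁻¹ * z ^ 2 ^ (m + 1) *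
      ((φ (x ^ m))⁻¹ * φ t * φ (x ^ m)) = (φ (x ^ m))⁻¹ * (φ t)⁻¹ *
        (φ (x ^ m) * z ^ 2 ^ (m + 1)) * ((φ (x ^ m))⁻¹ * φ t * φ (x ^ m)) := by group
  rw [e3, ← hz.eq]
  group

theorem t_ne_one {G : Type} [Group G] (S : Subgroup G) : (HNNExtension.t : CE G S) ≠ 1 := by
  intro h
  have h1 := britton (S := S) (l := [(1, 1)]) (by simp) 1 (by
    rw [lp_cons, lp_nil, map_one, h]
    simp [one_mem])
  simp at h1

theorem tower : StmTower := by
  intro K _ Q Rr π x t hB
  obtain ⟨ψ, hψ, hψ1, hψ2⟩ := square K Q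
  let o1 : K →* CE K Q := HNNExtension.of
  let t1 : CE K Q := HNNExtension.t
  let e : CE K Q ≃* ψ.range := MonoidHom.ofInjective hψ
  let f : ψ.range ≃* (⊤ : Subgroup (CE K Q)) := e.symm.trans Subgroup.topEquiv.symm
  have hf : ∀ g : CE K Q, (f (e g) : CE K Q) = g := by
    intro g
    simp [f]
  let K2 : Type := HNNExtension (CE K Q) ψ.range ⊤ f
  let o2 : CE K Q →* K2 := HNNExtension.of
  let t2 : K2 := HNNExtension.t
  have hK2 : ∀ g : CE K Q, t2 * o2 (ψ g) = o2 g * t2 := by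
    intro g
    have h := HNNExtension.t_mul_of (φ := f) (e g)
    rw [hf] at h
    exact h
  let y : K2 := o2 (o1 x) * t2
  let w : K2 := (o2 (o1 t))⁻¹ * (o2 t1) ^ 2 * o2 (o1 t)
  let Sv : Subgroup K2 := Subgroup.closure {y, w}
  let V : Type := CE K2 Sv
  let o3 : K2 →* V := HNNExtension.of
  let t3 : V := HNNExtension.t
  let Cset : Set V := Set.range (fun g : CE K Q => t3 * o3 (o2 g) * t3⁻¹) ∪
    (fun ρ : K => o3 (o2 (o1 ρ))) '' Rr
  let Cτ : Subgroup V := Subgroup.closure Cset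
  let U : Type := CE V Cτ
  let o4 : V →* U := HNNExtension.of
  let t4 : U := HNNExtension.t
  have tf1 : TF (CE K Q) := tf_hnn _ hB.tf
  have tf2 : TF K2 := tf_hnn _ tf1
  have tf3 : TF V := tf_hnn _ tf2
  have tf4 : TF U := tf_hnn _ tf3
  have c1 : ∀ q ∈ Q, Commute t1 (o1 q) := fun q hq => t_comm q hq
  have c2 : ∀ k : K, Commute t2 (o2 (o1 k)) := by
    intro k
    have := hK2 (o1 k)
    rw [hψ1] at this
    exact this
  have c2' : t2⁻¹ * o2 t1 * t2 = (o2 t1) ^ 2 := by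
    have := hK2 t1
    rw [hψ2, map_pow] at this
    rw [mul_assoc, ← this]
    group
    rfl
  have c3 : ∀ a ∈ Sv, Commute t3 (o3 a) := fun a ha => t_comm a ha
  have c4 : ∀ a ∈ Cτ, Commute t4 (o4 a) := fun a ha => t_comm a ha
  have mC1 : ∀ g : CE K Q, t3 * o3 (o2 g) * t3⁻¹ ∈ Cτ := fun g =>
    Subgroup.subset_closure (Or.inl ⟨g, rfl⟩)
  have mC2 : ∀ ρ ∈ Rr, o3 (o2 (o1 ρ)) ∈ Cτ := fun ρ hρ =>
    Subgroup.subset_closure (Or.inr ⟨ρ, hρ, rfl⟩)
  let φ : K →* U := o4.comp (o3.comp (o2.comp o1))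
  refine ⟨U, inferInstance, φ, o4 (o3 (o2 t1)), o4 (o3 t2), o4 t3, t4, tf4, ?_, ?_, ?_, ?_⟩
  · refine ⟨?_, ?_, ?_, ?_, ?_, ?_, ?_, ?_⟩
    · intro q hq
      exact ((c1 q hq).map (o4.comp (o3.comp o2)))
    · intro k
      exact (c2 k).map (o4.comp o3)
    · have := congrArg (o4.comp o3) c2'
      simpa using this
    · have := (c3 y (Subgroup.subset_closure (by simp))).map o4
      simp only [y, map_mul] at this
      exact this
    · have := (c3 w (Subgroup.subset_closure (by simp))).map o4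
      simp only [w, map_mul, map_inv, map_pow] at this
      exact this
    · intro k
      have := c4 _ (mC1 (o1 k))
      rw [map_mul, map_mul, map_inv] at this
      exact this
    · have := c4 _ (mC1 t1)
      simpa using this
    · intro ρ hρ
      exact c4 _ (mC2 ρ hρ)
  · have h0 : Subgroup.closure (Set.univ : Set K) = ⊤ := Subgroup.closure_univ
    have h1 := hnn_closure (MulEquiv.refl Q) _ h0
    have h2 := hnn_closure f _ h1
    have h3 := hnn_closure (MulEquiv.refl Sv) _ h2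
    have h4 := hnn_closure (MulEquiv.refl Cτ) _ h3
    rw [eq_top_iff, ← h4, Subgroup.closure_le]
    rintro a (⟨a, (⟨a, (⟨a, (⟨a, -, rfl⟩ | rfl), rfl⟩ | rfl), rfl⟩ | rfl), rfl⟩ | rfl)
    · exact Subgroup.subset_closure (Or.inl ⟨a, rfl⟩)
    · exact Subgroup.subset_closure (Or.inr (Or.inl rfl))
    · exact Subgroup.subset_closure (Or.inr (Or.inr (Or.inl rfl)))
    · exact Subgroup.subset_closure (Or.inr (Or.inr (Or.inr (Or.inl rfl))))
    · exact Subgroup.subset_closure (Or.inr (Or.inr (Or.inr (Or.inr rfl))))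
  · intro H _ φ' z' u' v' τ' hR
    let Φ1 : CE K Q →* H := HNNExtension.lift φ' z' (fun a => hR.zq a.1 a.2)
    have hΦ1 : ∀ k, Φ1 (o1 k) = φ' k := fun k => HNNExtension.lift_of _ _ _ _
    have hΦ1' : Φ1 t1 = z' := HNNExtension.lift_t _ _ _
    have hcon : ∀ g : CE K Q, u' * Φ1 (ψ g) = Φ1 g * u' := by
      intro g
      have h1 : ((MulAut.conj u').toMonoidHom.comp (Φ1.comp ψ)) = Φ1 := by
        apply HNNExtension.hom_ext
        · ext k
          show u' * Φ1 (ψ (o1 k)) * u'⁻¹ = Φ1 (o1 k)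
          rw [show ψ (o1 k) = o1 k from hψ1 k, hΦ1, (hR.uk k).eq]
          group
        · show u' * Φ1 (ψ t1) * u'⁻¹ = Φ1 t1
          rw [show ψ t1 = t1 ^ 2 from hψ2, map_pow, hΦ1', ← hR.uz]
          group
      have h2 := DFunLike.congr_fun h1 g
      have h3 : u' * Φ1 (ψ g) * u'⁻¹ = Φ1 g := h2
      rw [← h3]
      group
    let Φ2 : K2 →* H := HNNExtension.lift Φ1 u' (by
      intro a
      obtain ⟨g, rfl⟩ := e.surjective a
      rw [hf]
      exact hcon g)
    have hΦ2 : ∀ k, Φ2 (o2 k) = Φ1 k := fun k => HNNExtension.lift_of _ _ _ _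
    have hΦ2' : Φ2 t2 = u' := HNNExtension.lift_t _ _ _
    let Φ3 : V →* H := HNNExtension.lift Φ2 v' (by
      intro a
      refine (comm_closure Φ2 v' {y, w} ?_ a.1 a.2).eq
      rintro b (rfl | rfl)
      · simp only [y, map_mul, hΦ2, hΦ1, hΦ2']
        exact hR.vx
      · simp only [w, map_mul, map_inv, map_pow, hΦ2, hΦ1, hΦ1']
        exact hR.vt)
    have hΦ3 : ∀ k, Φ3 (o3 k) = Φ2 k := fun k => HNNExtension.lift_of _ _ _ _
    have hΦ3' : Φ3 t3 = v' := HNNExtension.lift_t _ _ _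
    have hτ : ∀ g : CE K Q, Commute τ' (v' * Φ1 g * v'⁻¹) := by
      intro g
      have h0 : Subgroup.closure ((HNNExtension.of : K →* CE K Q) '' Set.univ ∪ {HNNExtension.t}) = ⊤ :=
        hnn_closure (MulEquiv.refl Q) _ Subgroup.closure_univ
      refine comm_closure ((MulAut.conj v').toMonoidHom.comp Φ1) τ' _ ?_ g (by rw [h0]; trivial)
      rintro b (⟨b, -, rfl⟩ | rfl)
      · show Commute τ' (v' * Φ1 (o1 b) * v'⁻¹)
        rw [hΦ1]
        exact hR.τk b
      · show Commute τ' (v' * Φ1 t1 * v'⁻¹)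
        rw [hΦ1']
        exact hR.τz
    let Φ4 : U →* H := HNNExtension.lift Φ3 τ' (by
      intro a
      refine (comm_closure Φ3 τ' Cset ?_ a.1 a.2).eq
      rintro b (⟨g, rfl⟩ | ⟨ρ, hρ, rfl⟩)
      · simp only [map_mul, map_inv, hΦ3, hΦ2, hΦ3']
        exact hτ g
      · simp only [hΦ3, hΦ2, hΦ1]
        exact hR.τr ρ hρ)
    have hΦ4 : ∀ k, Φ4 (o4 k) = Φ3 k := fun k => HNNExtension.lift_of _ _ _ _
    have hΦ4' : Φ4 t4 = τ' := HNNExtension.lift_t _ _ _
    refine ⟨Φ4, ?_, ?_, ?_, ?_, hΦ4'⟩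
    · intro k
      show Φ4 (o4 (o3 (o2 (o1 k)))) = _
      rw [hΦ4, hΦ3, hΦ2, hΦ1]
    · rw [hΦ4, hΦ3, hΦ2, hΦ1']
    · rw [hΦ4, hΦ3, hΦ2']
    · rw [hΦ4, hΦ3']
  · intro n hn0 hn g hg hg'
    let sn : K := s x t n
    let w' : K2 := (o2 (o1 sn))⁻¹ * o2 t1 * o2 (o1 sn)
    let z' : V := o3 w'
    have hz'1 : z' ≠ 1 := by
      intro h
      have h1 : w' = 1 := HNNExtension.of_injective _ (h.trans (map_one _).symm)
      have h2 : o2 t1 = 1 := by
        have := congrArg (fun k => o2 (o1 sn) * k * (o2 (o1 sn))⁻¹) h1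
        simpa [w', mul_assoc] using this
      have h3 : t1 = 1 := HNNExtension.of_injective _ (h2.trans (map_one _).symm)
      exact t_ne_one Q h3
    have hinj : Function.Injective (zpowersHom V z') := by
      rw [injective_iff_map_eq_one]
      intro a ha
      rw [zpowersHom_apply] at ha
      by_contra hne
      have h1 : a.toAdd ≠ 0 := fun h => hne (by
        apply Multiplicative.toAdd.injective
        exact h)
      apply hz'1
      apply tf3
      rw [isOfFinOrder_iff_zpow_eq_one]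
      exact ⟨_, h1, ha⟩
    have key : ∀ a : Multiplicative ℤ, zpowersHom V z' a ∈ Cτ ↔
        a ∈ Subgroup.zpowers (Multiplicative.ofAdd g) := by
      intro a
      constructor
      · intro ha
        rw [zpowersHom_apply] at ha
        let M : Subgroup K2 := o2.range
        let L : Subgroup K2 := Subgroup.closure (((Sv ⊓ M : Subgroup K2) : Set K2) ∪
          (fun ρ : K => o2 (o1 ρ)) '' Rr)
        have hLM : L ≤ M := by
          rw [Subgroup.closure_le]
          rintro b (hb | ⟨ρ, -, rfl⟩)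
          · exact hb.2
          · exact ⟨_, rfl⟩
        have hSL : Sv ⊓ M ≤ L := fun b hb => Subgroup.subset_closure (Or.inl hb)
        have h1 := lemA K2 Sv M L hSL hLM (w' ^ a.toAdd) (by
          have h2 : Cτ ≤ Subgroup.closure
              ((fun g : K2 => (HNNExtension.t * HNNExtension.of g * HNNExtension.t⁻¹ : CE K2 Sv)) '' M ∪
                (fun g : K2 => (HNNExtension.of g : CE K2 Sv)) '' L) := by
            rw [Subgroup.closure_le]
            rintro b (⟨b, rfl⟩ | ⟨ρ, hρ, rfl⟩)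
            · exact Subgroup.subset_closure (Or.inl ⟨o2 b, ⟨b, rfl⟩, rfl⟩)
            · refine Subgroup.subset_closure (Or.inr ⟨o2 (o1 ρ), ?_, rfl⟩)
              exact Subgroup.subset_closure (Or.inr ⟨ρ, hρ, rfl⟩)
          have h3 := h2 ha
          rw [← map_zpow] at h3
          exact h3)
        obtain ⟨MM', hMM, φm, zm, um, hm1, hm2, hm3, hm4⟩ := gmodel K Q Rr π x t hB
        -- the map to the model
        let Φ1 : CE K Q →* MM' := HNNExtension.lift φm zm (fun a => hm1 a.1 a.2)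
        have hΦ1 : ∀ k, Φ1 (o1 k) = φm k := fun k => HNNExtension.lift_of _ _ _ _
        have hΦ1' : Φ1 t1 = zm := HNNExtension.lift_t _ _ _
        have hcon : ∀ g : CE K Q, um * Φ1 (ψ g) = Φ1 g * um := by
          intro g
          have h1 : ((MulAut.conj um).toMonoidHom.comp (Φ1.comp ψ)) = Φ1 := by
            apply HNNExtension.hom_ext
            · ext k
              show um * Φ1 (ψ (o1 k)) * um⁻¹ = Φ1 (o1 k)
              rw [show ψ (o1 k) = o1 k from hψ1 k, hΦ1, (hm2 k).eq]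
              group
            · show um * Φ1 (ψ t1) * um⁻¹ = Φ1 t1
              rw [show ψ t1 = t1 ^ 2 from hψ2, map_pow, hΦ1', ← hm3]
              group
          have h2 := DFunLike.congr_fun h1 g
          have h3 : um * Φ1 (ψ g) * um⁻¹ = Φ1 g := h2
          rw [← h3]
          group
        let Φ2 : K2 →* MM' := HNNExtension.lift Φ1 um (by
          intro a
          obtain ⟨g, rfl⟩ := e.surjective a
          rw [hf]
          exact hcon g)
        have hΦ2 : ∀ k, Φ2 (o2 k) = Φ1 k := fun k => HNNExtension.lift_of _ _ _ _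
        have hΦ2' : Φ2 t2 = um := HNNExtension.lift_t _ _ _
        have h4 : Φ2 (w' ^ a.toAdd) = ((φm sn)⁻¹ * zm * φm sn) ^ a.toAdd := by
          simp only [w', map_zpow, map_mul, map_inv, hΦ2, hΦ1, hΦ1']
        have h5 := hm4 n hn a.toAdd (by
          rw [← h4]
          have h6 : L ≤ (Subgroup.closure
              (((Subgroup.closure {φm x * um, (φm t)⁻¹ * zm ^ 2 * φm t} ⊓
                Subgroup.closure (Set.range φm ∪ {zm}) : Subgroup MM') : Set MM') ∪
                  φm '' Rr)).comap Φ2 := by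
            rw [Subgroup.closure_le]
            rintro b (⟨hb1, hb2⟩ | ⟨ρ, hρ, rfl⟩)
            · refine Subgroup.subset_closure (Or.inl ⟨?_, ?_⟩)
              · have h7 : Sv ≤ (Subgroup.closure {φm x * um, (φm t)⁻¹ * zm ^ 2 * φm t}).comap Φ2 := by
                  rw [Subgroup.closure_le]
                  rintro c (rfl | rfl)
                  · refine Subgroup.subset_closure (Or.inl ?_)
                    simp only [y, map_mul, hΦ2, hΦ1, hΦ2']
                  · refine Subgroup.subset_closure (Or.inr ?_)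
                    simp only [w, map_mul, map_inv, map_pow, hΦ2, hΦ1, hΦ1']
                    rfl
                exact h7 hb1
              · obtain ⟨b, rfl⟩ := hb2
                rw [SetLike.mem_coe, hΦ2]
                have h0 : Subgroup.closure ((HNNExtension.of : K →* CE K Q) '' Set.univ ∪
                    {HNNExtension.t}) = ⊤ :=
                  hnn_closure (MulEquiv.refl Q) _ Subgroup.closure_univ
                have h8 : (⊤ : Subgroup (CE K Q)) ≤
                    (Subgroup.closure (Set.range φm ∪ {zm})).comap Φ1 := by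
                  rw [← h0, Subgroup.closure_le]
                  rintro c (⟨c, -, rfl⟩ | rfl)
                  · exact Subgroup.subset_closure (Or.inl ⟨c, (hΦ1 c).symm⟩)
                  · exact Subgroup.subset_closure (Or.inr hΦ1')
                exact h8 (Subgroup.mem_top b)
            · refine Subgroup.subset_closure (Or.inr ⟨ρ, hρ, ?_⟩)
              show _ = Φ2 (o2 (o1 ρ))
              rw [hΦ2, hΦ1]
          exact h6 h1) g hg
        obtain ⟨b, hb⟩ := h5
        rw [Subgroup.mem_zpowers_iff]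
        refine ⟨b, ?_⟩
        apply Multiplicative.toAdd.injective
        rw [toAdd_zpow, toAdd_ofAdd, hb]
        simp [mul_comm]
      · intro ha
        obtain ⟨b, rfl⟩ := Subgroup.mem_zpowers_iff.1 ha
        rw [map_zpow]
        refine Cτ.zpow_mem ?_ b
        rw [zpowersHom_apply, toAdd_ofAdd]
        obtain ⟨m, hm, hgm⟩ := hg'
        have hm0 := hn m hm
        obtain ⟨m', rfl⟩ := Int.eq_ofNat_of_zero_le hm0
        obtain ⟨ρ, hρ, hρ'⟩ := hm
        have hcalc := tower_calc (o2.comp o1) x t (o2 t1) t2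
          ((c1 x hB.x_mem).map o2) c2 c2' m'
        have hmem : (o2 (o1 (s x t m')))⁻¹ * (o2 t1) ^ (2 ^ (m' + 1)) * o2 (o1 (s x t m')) ∈ Sv := by
          rw [show (o2 (o1 (s x t m')))⁻¹ * (o2 t1) ^ (2 ^ (m' + 1)) * o2 (o1 (s x t m')) =
            y ^ (-(m' : ℤ)) * w * y ^ (m' : ℤ) from hcalc.symm]
          refine Sv.mul_mem (Sv.mul_mem ?_ ?_) ?_
          · exact Sv.zpow_mem (Subgroup.subset_closure (by simp)) _
          · exact Subgroup.subset_closure (by simp)
          · exact Sv.zpow_mem (Subgroup.subset_closure (by simp)) _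
        have hg2 : g = ((2 ^ (m' + 1) : ℕ) : ℤ) := by
          rw [hgm]; simp
        have hcρ : Commute (o2 t1) (o2 (o1 ρ)) := (c1 ρ (hB.le hρ)).map o2
        have e5 : w' ^ g = o2 (o1 ρ) * ((o2 (o1 (s x t m')))⁻¹ * (o2 t1) ^ (2 ^ (m' + 1)) *
            o2 (o1 (s x t m'))) * (o2 (o1 ρ))⁻¹ := by
          have e6 : w' ^ g = (o2 (o1 sn))⁻¹ * (o2 t1) ^ g * o2 (o1 sn) := by
            have := conj_zpow (a := (o2 (o1 sn))⁻¹) (b := o2 t1) (i := g)
            rw [inv_inv] at this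
            exact this
          rw [e6, show sn = ρ * s x t m' * ρ⁻¹ from hρ', hg2, zpow_natCast]
          have hc : Commute ((o2 t1) ^ (2 ^ (m' + 1))) (o2 (o1 ρ)) := hcρ.pow_left _
          simp only [map_mul, map_inv, mul_inv_rev, inv_inv]
          calc o2 (o1 ρ) * ((o2 (o1 (s x t m')))⁻¹ * (o2 (o1 ρ))⁻¹) * (o2 t1) ^ (2 ^ (m' + 1)) *
                (o2 (o1 ρ) * o2 (o1 (s x t m')) * (o2 (o1 ρ))⁻¹)
              = o2 (o1 ρ) * (o2 (o1 (s x t m')))⁻¹ * ((o2 (o1 ρ))⁻¹ * ((o2 t1) ^ (2 ^ (m' + 1)) *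
                o2 (o1 ρ))) * o2 (o1 (s x t m')) * (o2 (o1 ρ))⁻¹ := by group
            _ = o2 (o1 ρ) * (o2 (o1 (s x t m')))⁻¹ * ((o2 (o1 ρ))⁻¹ * (o2 (o1 ρ) *
                (o2 t1) ^ (2 ^ (m' + 1)))) * o2 (o1 (s x t m')) * (o2 (o1 ρ))⁻¹ := by rw [hc.eq]
            _ = _ := by group
        show z' ^ g ∈ Cτ
        rw [show z' ^ g = o3 (w' ^ g) from (map_zpow o3 w' g).symm, e5, map_mul, map_mul, map_inv]
        refine Cτ.mul_mem (Cτ.mul_mem (mC2 ρ hρ) ?_) (Cτ.inv_mem (mC2 ρ hρ))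
        have h7 := c3 _ hmem
        have h8 : o3 ((o2 (o1 (s x t m')))⁻¹ * (o2 t1) ^ (2 ^ (m' + 1)) * o2 (o1 (s x t m'))) =
            t3 * o3 (o2 ((o1 (s x t m'))⁻¹ * t1 ^ (2 ^ (m' + 1)) * o1 (s x t m'))) * t3⁻¹ := by
          rw [map_mul o2, map_mul o2, map_inv o2, map_pow o2, h7.eq]
          group
        rw [h8]
        exact mC1 _
    obtain ⟨Φ, hΦ1, hΦ2, hΦ3⟩ := subHNN (Multiplicative ℤ) V (zpowersHom V z')
      (Subgroup.zpowers (Multiplicative.ofAdd g)) Cτ hinj key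
    refine ⟨(MulAut.conj (φ sn)).toMonoidHom.comp Φ, (MulAut.conj (φ sn)).injective.comp hΦ1, ?_, ?_⟩
    · show φ sn * Φ (HNNExtension.of (Multiplicative.ofAdd 1)) * (φ sn)⁻¹ = _
      rw [hΦ2, zpowersHom_apply, toAdd_ofAdd, zpow_one]
      show φ sn * o4 (o3 w') * (φ sn)⁻¹ = _
      simp only [w', map_mul, map_inv]
      show φ sn * ((φ sn)⁻¹ * o4 (o3 (o2 t1)) * φ sn) * (φ sn)⁻¹ = _
      group
    · show φ sn * Φ HNNExtension.t * (φ sn)⁻¹ = _
      rw [hΦ3]

end Pool.Agent.T2H50.ISO
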