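import Pool.Agent.Y786.ISO.Arith
import Pool.Agent.T2H50.ISO.Graph
import Pool.Agent.T2H50.ISO.KK
import Pool.Agent.T2H50.ISO.Tower
import Pool.Agent.T2H50.ISO.Inv
import Pool.Agent.T2H50.ISO.Code
import Pool.Agent.T2H50.ISO.Pres
import Pool.Agent.T2H50.ISO.RE

/-!
Project ISO (frozen statement S14615): the assembly.
-/

set_option autoImplicit false

namespace Pool.Agent.T2H50.ISO

open Pool.Agent.Y817.ISO

/-- the word of a power -/
theorem lift_rep {A H : Type} [Group H] (h : A → H) (x : A) (b : Bool) (n : ℕ) :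
    FreeGroup.lift h (FreeGroup.mk (List.replicate n (x, b))) =
      (if b = true then h x else (h x)⁻¹) ^ n := by
  induction n with
  | zero =>
    rw [List.replicate_zero, pow_zero, ← FreeGroup.one_eq_mk, map_one]
  | succ n ih =>
    have h1 : (FreeGroup.mk (List.replicate (n + 1) (x, b)) : FreeGroup A) =
        FreeGroup.mk [(x, b)] * FreeGroup.mk (List.replicate n (x, b)) := by
      rw [FreeGroup.mul_mk]; rfl
    rw [h1, map_mul, ih, pow_succ']
    congr 1
    cases b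
    · simp
    · simp

theorem lift_cons {A H : Type} [Group H] (h : A → H) (x : A) (b : Bool) (w : List (A × Bool)) :
    FreeGroup.lift h (FreeGroup.mk ((x, b) :: w)) =
      (if b = true then h x else (h x)⁻¹) * FreeGroup.lift h (FreeGroup.mk w) := by
  have h1 : (FreeGroup.mk ((x, b) :: w) : FreeGroup A) =
      FreeGroup.mk [(x, b)] * FreeGroup.mk w := by
    rw [FreeGroup.mul_mk]; rfl
  rw [h1, map_mul]
  congr 1
  cases b
  · simp
  · simp

theorem lift_app {A H : Type} [Group H] (h : A → H) (v w : List (A × Bool)) :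
    FreeGroup.lift h (FreeGroup.mk (v ++ w)) =
      FreeGroup.lift h (FreeGroup.mk v) * FreeGroup.lift h (FreeGroup.mk w) := by
  rw [← map_mul, FreeGroup.mul_mk]

theorem lift_W {A H : Type} [Group H] (h : A → H) (c x t τ : A) (n : ℕ) :
    FreeGroup.lift h (FreeGroup.mk (W c x t τ n)) = 1 ↔
      Commute (h c) (s (h x) (h t) n * h τ * (s (h x) (h t) n)⁻¹) := by
  have e : FreeGroup.lift h (FreeGroup.mk (W c x t τ n)) =
      h c * (s (h x) (h t) n * h τ * (s (h x) (h t) n)⁻¹) * (h c)⁻¹ *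
        (s (h x) (h t) n * h τ * (s (h x) (h t) n)⁻¹)⁻¹ := by
    unfold W s
    simp only [lift_cons, lift_app, lift_rep]
    simp only [if_true, Bool.false_eq_true, if_false, inv_pow, zpow_neg, zpow_natCast, mul_inv_rev,
      inv_inv, mul_assoc]
  rw [e, mul_inv_eq_one, mul_inv_eq_iff_eq_mul]
  exact Iff.rfl

/-- the elements of `B_g` -/
theorem bg_ind {g : ℤ} (C : Subgroup (Bg g))
    (h1 : (HNNExtension.of (Multiplicative.ofAdd (1 : ℤ)) : Bg g) ∈ C)
    (h2 : (HNNExtension.t : Bg g) ∈ C) (x : Bg g) : x ∈ C := by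
  induction x using HNNExtension.induction_on with
  | of k =>
    have : k = (Multiplicative.ofAdd (1 : ℤ)) ^ k.toAdd := by
      rw [← ofAdd_zsmul]; simp
    rw [this, map_zpow]
    exact C.zpow_mem h1 _
  | t => exact h2
  | mul x y hx hy => exact C.mul_mem hx hy
  | inv x hx => exact C.inv_mem hx

/-- the amalgams over conjugate subgroups -/
theorem amal_iso {E E' U : Type} [Group E] [Group E'] [Group U] (β : E →* U) (β' : E' →* U) (ρ : U)
    (h1 : ∀ e, ∃ e', β e = ρ * β' e' * ρ⁻¹) (h2 : ∀ e', ∃ e, β e = ρ * β' e' * ρ⁻¹) :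
    Nonempty (Amal β ≃* Amal β') := by
  obtain ⟨ο, c, hc5, hc, hcl, hup⟩ := amUP E U β
  obtain ⟨ο', c', hc5', hc', hcl', hup'⟩ := amUP E' U β'
  obtain ⟨Φ, hΦ, hΦc⟩ := hup (Amal β') ο' (ο' ρ * c' * (ο' ρ)⁻¹)
    (by rw [conj_pow, hc5', mul_one, mul_inv_cancel]) (by
      intro e
      obtain ⟨e', he⟩ := h1 e
      have := (hc' e').eq
      rw [he]
      show _ * _ = _ * _
      simp only [map_mul, map_inv, mul_assoc, inv_mul_cancel_left]
      rw [← mul_assoc c', this, mul_assoc])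
  obtain ⟨Ψ, hΨ, hΨc⟩ := hup' (Amal β) ο ((ο ρ)⁻¹ * c * (ο ρ))
    (by
      have : (ο ρ)⁻¹ * c * (ο ρ) = (ο ρ)⁻¹ * c * ((ο ρ)⁻¹)⁻¹ := by rw [inv_inv]
      rw [this, conj_pow, hc5, mul_one, mul_inv_cancel]) (by
      intro e'
      obtain ⟨e, he⟩ := h2 e'
      have h3 : β' e' = ρ⁻¹ * β e * ρ := by rw [he]; group
      have := (hc e).eq
      rw [h3]
      show _ * _ = _ * _
      simp only [map_mul, map_inv, mul_assoc, mul_inv_cancel_left]
      rw [← mul_assoc c, this, mul_assoc])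
  refine ⟨MonoidHom.toMulEquiv Φ Ψ ?_ ?_⟩
  · refine MonoidHom.eq_of_eqOn_dense hcl ?_
    rintro y (⟨x, rfl⟩ | rfl)
    · simp [hΦ, hΨ]
    · simp only [MonoidHom.comp_apply, hΦc, map_mul, map_inv, hΨ, hΨc, MonoidHom.id_apply]
      group
  · refine MonoidHom.eq_of_eqOn_dense hcl' ?_
    rintro y (⟨x, rfl⟩ | rfl)
    · simp [hΦ, hΨ]
    · simp only [MonoidHom.comp_apply, hΨc, map_mul, map_inv, hΦ, hΦc, MonoidHom.id_apply]
      group

theorem rel_map {P ι J : Type} {D : Rules P ι J} {H H' : Type} [Group H] [Group H']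
    {X : Multiplicative (J → ℤ) →* H} {t : P → H} {r : ι → H} (h : Rel D H X t r) (f : H →* H') :
    Rel D H' (f.comp X) (fun p => f (t p)) (fun i => f (r i)) := by
  refine ⟨fun i w => ?_, fun i => ?_⟩
  · have := congrArg f (h.shift i w)
    simp only [map_mul] at this
    exact this
  · have := congrArg f (h.rule i)
    simp only [T, map_mul, map_inv] at this
    exact this

theorem X_mem {J : Type} [Fintype J] [DecidableEq J] {H : Type} [Group H]
    (X : Multiplicative (J → ℤ) →* H) (S : Subgroup H)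
    (h : ∀ j, X (Multiplicative.ofAdd (Pi.single j 1)) ∈ S) (w : Multiplicative (J → ℤ)) :
    X w ∈ S := by
  have h1 := X_list X w.toAdd
  rw [ofAdd_toAdd] at h1
  rw [h1]
  apply Subgroup.list_prod_mem
  intro y hy
  obtain ⟨j, -, rfl⟩ := List.mem_map.1 hy
  exact S.zpow_mem (h j) _

/-- the group of the data is the amalgam -/
theorem pres_iso {P ι J : Type} [Fintype P] [Fintype ι] [Fintype J] [DecidableEq J]
    (D : Rules P ι J) (B : P) (e : J)
    (L : List (List (Gen P ι J × Bool)))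
    (hL : ∀ (H : Type) [Group H] (h : Gen P ι J → H),
      (∀ w ∈ L, FreeGroup.lift h (FreeGroup.mk w) = 1) ↔
      ∃ X : Multiplicative (J → ℤ) →* H,
        (∀ j, X (Multiplicative.ofAdd (Pi.single j 1)) = h (Sum.inl j)) ∧
        GenRel D B e H X (fun p => h (Sum.inr (Sum.inl p)))
          (fun i => h (Sum.inr (Sum.inr (Sum.inl i)))) (h (Sum.inr (Sum.inr (Sum.inr 0))))
          (h (Sum.inr (Sum.inr (Sum.inr 1)))) (h (Sum.inr (Sum.inr (Sum.inr 2))))
          (h (Sum.inr (Sum.inr (Sum.inr 3)))) (h (Sum.inr (Sum.inr (Sum.inr 4)))))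
    {K : Type} [Group K] (X : Multiplicative (J → ℤ) →* K) (t : P → K) (r : ι → K)
    (hrel : Rel D K X t r)
    (hgen : Subgroup.closure (Set.range X ∪ Set.range t ∪ Set.range r) = ⊤)
    (hup : ∀ (H : Type) [Group H] (X' : Multiplicative (J → ℤ) →* H) (t' : P → H) (r' : ι → H),
      Rel D H X' t' r' → ∃ Φ : K →* H, (∀ v, Φ (X v) = X' v) ∧ (∀ p, Φ (t p) = t' p) ∧
        ∀ i, Φ (r i) = r' i)
    (Q Rr : Subgroup K) (hQ : Q = Subgroup.closure (Set.range X ∪ Set.range r))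
    (hR : Rr = Subgroup.closure (Set.range r))
    {U : Type} [Group U] (φ : K →* U) (z u v τ : U)
    (hU : RelU Q Rr (X (Multiplicative.ofAdd (Pi.single e 1))) (t B) U φ z u v τ)
    (hUgen : Subgroup.closure (Set.range φ ∪ {z, u, v, τ}) = ⊤)
    (hUup : ∀ (H : Type) [Group H] (φ' : K →* H) (z' u' v' τ' : H),
      RelU Q Rr (X (Multiplicative.ofAdd (Pi.single e 1))) (t B) H φ' z' u' v' τ' →
      ∃ Φ : U →* H, (∀ k, Φ (φ k) = φ' k) ∧ Φ z = z' ∧ Φ u = u' ∧ Φ v = v' ∧ Φ τ = τ')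
    (n : ℕ) {g : ℤ} (β : Bg g →* U)
    (hβ1 : β (HNNExtension.of (Multiplicative.ofAdd 1)) = z)
    (hβt : β HNNExtension.t = φ (s (X (Multiplicative.ofAdd (Pi.single e 1))) (t B) n) * τ *
      (φ (s (X (Multiplicative.ofAdd (Pi.single e 1))) (t B) n))⁻¹) :
    Nonempty (PresentedGroup {g : FreeGroup (Gen P ι J) | ∃ w ∈ W (Sum.inr (Sum.inr (Sum.inr 4)))
      (Sum.inl e) (Sum.inr (Sum.inl B)) (Sum.inr (Sum.inr (Sum.inr 3))) n :: L,
        g = FreeGroup.mk w} ≃* Amal β) := by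
  classical
  obtain ⟨ο, c, hc5, hc, hcl, hAup⟩ := amUP (Bg g) U β
  -- the generators in the amalgam
  let h : Gen P ι J → Amal β := Sum.elim (fun j => ο (φ (X (Multiplicative.ofAdd (Pi.single j 1)))))
    (Sum.elim (fun p => ο (φ (t p))) (Sum.elim (fun i => ο (φ (r i)))
      (fun i => ![ο z, ο u, ο v, ο τ, c] i)))
  have hs : ∀ (H : Type) [Group H] (f : K →* H) (x y : K) (n : ℤ),
      s (f x) (f y) n = f (s x y n) := by
    intro H _ f x y n
    simp [s]
  have hcz : Commute c (ο z) := by rw [← hβ1]; exact hc _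
  have hcκ : Commute c (ο (φ (s (X (Multiplicative.ofAdd (Pi.single e 1))) (t B) n) * τ *
      (φ (s (X (Multiplicative.ofAdd (Pi.single e 1))) (t B) n))⁻¹)) := by
    rw [← hβt]; exact hc _
  have hXQ : ∀ w, X w ∈ Q := fun w => by
    rw [hQ]; exact Subgroup.subset_closure (Or.inl ⟨w, rfl⟩)
  have hrQ : ∀ i, r i ∈ Q := fun i => by
    rw [hQ]; exact Subgroup.subset_closure (Or.inr ⟨i, rfl⟩)
  have hrR : ∀ i, r i ∈ Rr := fun i => by
    rw [hR]; exact Subgroup.subset_closure ⟨i, rfl⟩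
  have hgr : GenRel D B e (Amal β) ((ο.comp φ).comp X) (fun p => h (Sum.inr (Sum.inl p)))
          (fun i => h (Sum.inr (Sum.inr (Sum.inl i)))) (h (Sum.inr (Sum.inr (Sum.inr 0))))
          (h (Sum.inr (Sum.inr (Sum.inr 1)))) (h (Sum.inr (Sum.inr (Sum.inr 2))))
          (h (Sum.inr (Sum.inr (Sum.inr 3)))) (h (Sum.inr (Sum.inr (Sum.inr 4)))) := by
    have hcm : ∀ {a b : U}, Commute a b → Commute (ο a) (ο b) := fun h => h.map ο
    have e1 : ∀ k, ο v * ο (φ k) * (ο v)⁻¹ = ο (v * φ k * v⁻¹) := fun k => by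
      simp only [map_mul, map_inv]
    refine ⟨rel_map hrel (ο.comp φ), ?_, ?_, ?_, ?_, ?_, ?_, ?_, ?_, ?_, ?_, ?_, ?_, ?_, hc5, hcz⟩
    · exact fun w => hcm (hU.zq _ (hXQ w))
    · exact fun i => hcm (hU.zq _ (hrQ i))
    · exact fun w => hcm (hU.uk _)
    · exact fun w => hcm (hU.uk _)
    · exact fun w => hcm (hU.uk _)
    · have := congrArg ο hU.uz
      simp only [map_mul, map_inv, map_pow] at this
      exact this
    · have := hcm hU.vx
      rw [map_mul] at this
      exact this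
    · have := hcm hU.vt
      simp only [map_mul, map_inv, map_pow] at this
      exact this
    · intro w
      have := hcm (hU.τk (X w))
      rw [← e1] at this
      exact this
    · intro w
      have := hcm (hU.τk (t w))
      rw [← e1] at this
      exact this
    · intro w
      have := hcm (hU.τk (r w))
      rw [← e1] at this
      exact this
    · have := hcm hU.τz
      simp only [map_mul, map_inv] at this
      exact this
    · exact fun i => hcm (hU.τr _ (hrR i))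
  have hall : ∀ y ∈ {g : FreeGroup (Gen P ι J) | ∃ w ∈ W (Sum.inr (Sum.inr (Sum.inr 4)))
      (Sum.inl e) (Sum.inr (Sum.inl B)) (Sum.inr (Sum.inr (Sum.inr 3))) n :: L,
        g = FreeGroup.mk w}, FreeGroup.lift h y = 1 := by
    rintro y ⟨w, hw, rfl⟩
    rcases List.mem_cons.1 hw with rfl | hw
    · rw [lift_W]
      show Commute c (s (ο (φ (X (Multiplicative.ofAdd (Pi.single e 1))))) (ο (φ (t B))) n * ο τ *
        (s (ο (φ (X (Multiplicative.ofAdd (Pi.single e 1))))) (ο (φ (t B))) n)⁻¹)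
      have := hs (Amal β) (ο.comp φ) (X (Multiplicative.ofAdd (Pi.single e 1))) (t B) n
      simp only [MonoidHom.comp_apply] at this
      rw [this, ← map_inv, ← map_mul, ← map_mul]
      exact hcκ
    · exact (hL (Amal β) h).2 ⟨(ο.comp φ).comp X, fun j => rfl, hgr⟩ w hw
  -- the inverse
  set RS := {g : FreeGroup (Gen P ι J) | ∃ w ∈ W (Sum.inr (Sum.inr (Sum.inr 4)))
      (Sum.inl e) (Sum.inr (Sum.inl B)) (Sum.inr (Sum.inr (Sum.inr 3))) n :: L,
        g = FreeGroup.mk w} with hRS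
  let h' : Gen P ι J → PresentedGroup RS := PresentedGroup.of
  have hlift : ∀ y, FreeGroup.lift h' y = PresentedGroup.mk RS y := by
    intro y
    have : FreeGroup.lift h' = PresentedGroup.mk RS := by
      apply FreeGroup.ext_hom
      intro i
      rw [FreeGroup.lift_apply_of]
      rfl
    rw [this]
  have hone : ∀ w ∈ W (Sum.inr (Sum.inr (Sum.inr 4)))
      (Sum.inl e) (Sum.inr (Sum.inl B)) (Sum.inr (Sum.inr (Sum.inr 3))) n :: L,
      FreeGroup.lift h' (FreeGroup.mk w) = 1 := by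
    intro w hw
    rw [hlift]
    exact PresentedGroup.mk_eq_one_iff.2 (Subgroup.subset_normalClosure ⟨w, hw, rfl⟩)
  obtain ⟨X', hX', hg'⟩ := (hL (PresentedGroup RS) h').1
    (fun w hw => hone w (List.mem_cons_of_mem _ hw))
  have hW' := (lift_W h' (Sum.inr (Sum.inr (Sum.inr 4))) (Sum.inl e) (Sum.inr (Sum.inl B))
    (Sum.inr (Sum.inr (Sum.inr 3))) n).1 (hone _ List.mem_cons_self)
  obtain ⟨f1, f1X, f1t, f1r⟩ := hup (PresentedGroup RS) X' _ _ hg'.rel
  have cent : ∀ (a : PresentedGroup RS) (f : K →* PresentedGroup RS) (Z : Set K),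
      (∀ k ∈ Z, Commute a (f k)) → ∀ k ∈ Subgroup.closure Z, Commute a (f k) := by
    intro a f Z hZ k hk
    have h1 : Subgroup.closure Z ≤ (Subgroup.centralizer {a}).comap f := by
      rw [Subgroup.closure_le]
      intro k hk
      show f k ∈ Subgroup.centralizer {a}
      rw [Subgroup.mem_centralizer_singleton_iff]
      exact (hZ k hk).eq.symm
    have h2 := h1 hk
    rw [Subgroup.mem_comap, Subgroup.mem_centralizer_singleton_iff] at h2
    exact h2.symm
  have cj : ∀ (y : PresentedGroup RS) (k : K), ((MulAut.conj y).toMonoidHom.comp f1) k =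
      y * f1 k * y⁻¹ := fun y k => rfl
  have hU' : RelU Q Rr (X (Multiplicative.ofAdd (Pi.single e 1))) (t B) (PresentedGroup RS) f1
      (h' (Sum.inr (Sum.inr (Sum.inr 0)))) (h' (Sum.inr (Sum.inr (Sum.inr 1))))
      (h' (Sum.inr (Sum.inr (Sum.inr 2)))) (h' (Sum.inr (Sum.inr (Sum.inr 3)))) := by
    refine ⟨?_, ?_, hg'.uz, ?_, ?_, ?_, hg'.τz, ?_⟩
    · intro q hq
      rw [hQ] at hq
      refine cent _ f1 _ ?_ q hq
      rintro k (⟨w, rfl⟩ | ⟨i, rfl⟩)
      · rw [f1X]; exact hg'.zx w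
      · rw [f1r]; exact hg'.zr i
    · intro k
      refine cent _ f1 _ ?_ k (hgen ▸ Subgroup.mem_top k)
      rintro k ((⟨w, rfl⟩ | ⟨i, rfl⟩) | ⟨i, rfl⟩)
      · rw [f1X]; exact hg'.ux w
      · rw [f1t]; exact hg'.ut i
      · rw [f1r]; exact hg'.ur i
    · rw [f1X]; exact hg'.vx
    · rw [f1t]; exact hg'.vt
    · intro k
      rw [← cj]
      refine cent _ _ _ ?_ k (hgen ▸ Subgroup.mem_top k)
      rintro k ((⟨w, rfl⟩ | ⟨i, rfl⟩) | ⟨i, rfl⟩)
      · rw [cj, f1X]; exact hg'.τx w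
      · rw [cj, f1t]; exact hg'.τt i
      · rw [cj, f1r]; exact hg'.τr' i
    · intro k hk
      rw [hR] at hk
      refine cent _ f1 _ ?_ k hk
      rintro k ⟨i, rfl⟩
      rw [f1r]; exact hg'.τr i
  obtain ⟨f2, f2φ, f2z, f2u, f2v, f2τ⟩ := hUup (PresentedGroup RS) f1 _ _ _ _ hU'
  have hcomm : ∀ y : Bg g, Commute (h' (Sum.inr (Sum.inr (Sum.inr 4)))) (f2 (β y)) := by
    intro y
    have h1 := bg_ind ((Subgroup.centralizer {h' (Sum.inr (Sum.inr (Sum.inr 4)))}).comap
      (f2.comp β)) ?_ ?_ y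
    · rw [Subgroup.mem_comap, Subgroup.mem_centralizer_singleton_iff] at h1
      exact h1.symm
    · rw [Subgroup.mem_comap, Subgroup.mem_centralizer_singleton_iff, MonoidHom.comp_apply, hβ1,
        f2z]
      exact hg'.cz.eq.symm
    · rw [Subgroup.mem_comap, Subgroup.mem_centralizer_singleton_iff, MonoidHom.comp_apply, hβt,
        map_mul, map_mul, map_inv, f2τ, f2φ, ← hs, f1X, f1t, hX']
      exact hW'.eq.symm
  obtain ⟨f3, f3ο, f3c⟩ := hAup (PresentedGroup RS) f2 (h' (Sum.inr (Sum.inr (Sum.inr 4))))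
    hg'.c5 hcomm
  have hinj : Function.Injective (PresentedGroup.toGroup hall) := by
    have h1 : f3.comp (PresentedGroup.toGroup hall) = MonoidHom.id _ := by
      apply PresentedGroup.ext
      intro a
      rw [MonoidHom.comp_apply, PresentedGroup.toGroup.of]
      rcases a with j | p | i | k
      · show f3 (ο (φ (X (Multiplicative.ofAdd (Pi.single j 1))))) = h' (Sum.inl j)
        rw [f3ο, f2φ, f1X, hX']
      · show f3 (ο (φ (t p))) = h' (Sum.inr (Sum.inl p))
        rw [f3ο, f2φ, f1t]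
      · show f3 (ο (φ (r i))) = h' (Sum.inr (Sum.inr (Sum.inl i)))
        rw [f3ο, f2φ, f1r]
      · fin_cases k
        · show f3 (ο z) = h' (Sum.inr (Sum.inr (Sum.inr 0)))
          rw [f3ο, f2z]
        · show f3 (ο u) = h' (Sum.inr (Sum.inr (Sum.inr 1)))
          rw [f3ο, f2u]
        · show f3 (ο v) = h' (Sum.inr (Sum.inr (Sum.inr 2)))
          rw [f3ο, f2v]
        · show f3 (ο τ) = h' (Sum.inr (Sum.inr (Sum.inr 3)))
          rw [f3ο, f2τ]
        · exact f3c
    intro a b hab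
    have ha := DFunLike.congr_fun h1 a
    have hb := DFunLike.congr_fun h1 b
    rw [MonoidHom.comp_apply, MonoidHom.id_apply] at ha hb
    rw [← ha, ← hb, hab]
  have hsurj : Function.Surjective (PresentedGroup.toGroup hall) := by
    rw [← MonoidHom.range_eq_top, eq_top_iff, ← hcl, Subgroup.closure_le]
    have hm : ∀ a, h a ∈ (PresentedGroup.toGroup hall).range := fun a =>
      ⟨PresentedGroup.of a, PresentedGroup.toGroup.of hall⟩
    have hK : ∀ k, ο (φ k) ∈ (PresentedGroup.toGroup hall).range := by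
      have h1 : Subgroup.closure (Set.range X ∪ Set.range t ∪ Set.range r) ≤
          ((PresentedGroup.toGroup hall).range).comap (ο.comp φ) := by
        rw [Subgroup.closure_le]
        rintro k ((⟨w, rfl⟩ | ⟨i, rfl⟩) | ⟨i, rfl⟩)
        · exact X_mem ((ο.comp φ).comp X) _ (fun j => hm (Sum.inl j)) w
        · exact hm (Sum.inr (Sum.inl i))
        · exact hm (Sum.inr (Sum.inr (Sum.inl i)))
      intro k
      exact h1 (hgen ▸ Subgroup.mem_top k)
    have hUU : ∀ k, ο k ∈ (PresentedGroup.toGroup hall).range := by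
      have h1 : Subgroup.closure (Set.range φ ∪ {z, u, v, τ}) ≤
          ((PresentedGroup.toGroup hall).range).comap ο := by
        rw [Subgroup.closure_le]
        rintro k (⟨w, rfl⟩ | hk)
        · exact hK w
        · rcases hk with rfl | rfl | rfl | rfl
          · exact hm (Sum.inr (Sum.inr (Sum.inr 0)))
          · exact hm (Sum.inr (Sum.inr (Sum.inr 1)))
          · exact hm (Sum.inr (Sum.inr (Sum.inr 2)))
          · exact hm (Sum.inr (Sum.inr (Sum.inr 3)))
      intro k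
      exact h1 (hUgen ▸ Subgroup.mem_top k)
    rintro y (⟨k, rfl⟩ | rfl)
    · exact hUU k
    · exact hm (Sum.inr (Sum.inr (Sum.inr 4)))
  exact ⟨MulEquiv.ofBijective _ ⟨hinj, hsurj⟩⟩

theorem zpow_X {J : Type} [DecidableEq J] {H : Type} [Group H]
    (X : Multiplicative (J → ℤ) →* H) (e : J) (n : ℤ) :
    X (Multiplicative.ofAdd (Pi.single e 1)) ^ n = X (Multiplicative.ofAdd (Pi.single e n)) := by
  rw [← map_zpow, ← ofAdd_zsmul]
  congr 2
  rw [← Pi.single_smul]
  simp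

theorem s_eq {P J : Type} [DecidableEq J] {H : Type} [Group H]
    (X : Multiplicative (J → ℤ) →* H) (t : P → H) (e : J) (B : P) (n : ℤ) :
    s (X (Multiplicative.ofAdd (Pi.single e 1))) (t B) n = T X t B (Pi.single e n) := by
  unfold s T
  rw [zpow_neg, zpow_X]

theorem hard (R : ℕ → ℕ → Prop) (hE : Equivalence R) (hR : REPred (fun p : ℕ × ℕ => R p.1 p.2)) :
    ∃ f : ℕ → ℕ × List (List (ℕ × Bool)), Computable f ∧
      ∀ x y, R x y ↔ Nonempty (PG (f x) ≃* PG (f y)) := by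
  classical
  obtain ⟨V, iV, n0, m0, L0, hnm, hdef⟩ := Pool.Agent.Y786.ISO.t R hR
  obtain ⟨P, ι, J, iP, iI, iJ, dJ, D, B, e, hconn⟩ := graph R hE V n0 m0 L0 hnm hdef
  obtain ⟨K, gK, X, t, r, hrel, hTF, hgen, hup, hcon⟩ := kk P ι J D
  obtain ⟨L, hL⟩ := pres P ι J D B e
  obtain ⟨f, hf, hfi⟩ := code (Gen P ι J) (Sum.inr (Sum.inr (Sum.inr 4))) (Sum.inl e)
    (Sum.inr (Sum.inl B)) (Sum.inr (Sum.inr (Sum.inr 3))) L
  refine ⟨f, hf, ?_⟩
  set Rr := Subgroup.closure (Set.range r) with hRr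
  set Q := Subgroup.closure (Set.range X ∪ Set.range r) with hQ
  -- the retraction
  obtain ⟨π, πX, πt, πr⟩ := hup K X (fun _ => 1) r ⟨hrel.shift, fun i => by
    simp [T]⟩
  have hXQ : ∀ w, X w ∈ Q := fun w => Subgroup.subset_closure (Or.inl ⟨w, rfl⟩)
  have hrQ : ∀ i, r i ∈ Q := fun i => Subgroup.subset_closure (Or.inr ⟨i, rfl⟩)
  have bot : Bot K Q Rr π (X (Multiplicative.ofAdd (Pi.single e 1))) (t B) := by
    refine ⟨hTF, ?_, ?_, ?_, hXQ _, πt B⟩
    · have h1 : Subgroup.closure (Set.range X ∪ Set.range t ∪ Set.range r) ≤ Q.comap π := by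
        rw [Subgroup.closure_le]
        rintro k ((⟨w, rfl⟩ | ⟨i, rfl⟩) | ⟨i, rfl⟩)
        · show π (X w) ∈ Q
          rw [πX]; exact hXQ w
        · show π (t i) ∈ Q
          rw [πt]; exact Q.one_mem
        · show π (r i) ∈ Q
          rw [πr]; exact hrQ i
      intro k
      exact h1 (hgen ▸ Subgroup.mem_top k)
    · have h1 : Q ≤ MonoidHom.eqLocus π (MonoidHom.id K) := by
        rw [hQ, Subgroup.closure_le]
        rintro k (⟨w, rfl⟩ | ⟨i, rfl⟩)
        · exact πX w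
        · exact πr i
      intro q hq
      exact h1 hq
    · rw [hRr, hQ]
      exact Subgroup.closure_mono Set.subset_union_right
  obtain ⟨U, gU, φ, z, u, v, τ, hTU, hU, hUgen, hUup, hβ⟩ := tower K Q Rr π _ _ bot
  -- connectedness
  have hC : ∀ k k' : ℤ, Conn Rr (X (Multiplicative.ofAdd (Pi.single e 1))) (t B) k k' ↔
      (k = k' ∨ ∃ a b : ℕ, k = a ∧ k' = b ∧ R a b) := by
    intro k k'
    rw [← hconn k k', ← hcon B B]
    unfold Conn
    simp only [s_eq]
  -- the minimum of the class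
  have hex : ∀ n, ∃ m, R n m := fun n => ⟨n, hE.refl n⟩
  let mn : ℕ → ℕ := fun n => Nat.find (hex n)
  have hmn : ∀ n, R n (mn n) := fun n => Nat.find_spec (hex n)
  have hmle : ∀ n m, R n m → mn n ≤ m := fun n m h => Nat.find_min' (hex n) h
  have hCn : ∀ (n : ℕ) (m : ℤ), Conn Rr (X (Multiplicative.ofAdd (Pi.single e 1))) (t B) n m →
      ∃ b : ℕ, m = b ∧ R n b := by
    intro n m h
    rcases (hC _ _).1 h with h | ⟨a, b, ha, hb, hab⟩
    · exact ⟨n, h.symm, hE.refl n⟩
    · have : n = a := by exact_mod_cast ha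
      subst this
      exact ⟨b, hb, hab⟩
  have hβ' : ∀ n : ℕ, ∃ β : Bg (2 ^ (mn n + 1)) →* U, Function.Injective β ∧
      β (HNNExtension.of (Multiplicative.ofAdd 1)) = z ∧
      β HNNExtension.t = φ (s (X (Multiplicative.ofAdd (Pi.single e 1))) (t B) n) * τ *
        (φ (s (X (Multiplicative.ofAdd (Pi.single e 1))) (t B) n))⁻¹ := by
    intro n
    refine hβ n (Int.natCast_nonneg n) ?_ _ ?_ ?_
    · intro m hm
      obtain ⟨b, rfl, -⟩ := hCn n m hm
      exact Int.natCast_nonneg b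
    · intro m hm
      obtain ⟨b, rfl, hb⟩ := hCn n m hm
      rw [Int.toNat_natCast]
      exact pow_dvd_pow 2 (Nat.succ_le_succ (hmle n b hb))
    · refine ⟨(mn n : ℤ), (hC _ _).2 (Or.inr ⟨n, mn n, rfl, rfl, hmn n⟩), ?_⟩
      rw [Int.toNat_natCast]
  choose β hβi hβ1 hβt using hβ'
  have hiso : ∀ n, Nonempty (PG (f n) ≃* Amal (β n)) := by
    intro n
    obtain ⟨e1⟩ := hfi n
    obtain ⟨e2⟩ := pres_iso D B e L hL X t r hrel hgen hup Q Rr hQ hRr φ z u v τ hU hUgen hUup n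
      (β n) (hβ1 n) (hβt n)
    exact ⟨e1.trans e2⟩
  have hrange : ∀ n, (β n).range = Subgroup.closure {z,
      φ (s (X (Multiplicative.ofAdd (Pi.single e 1))) (t B) n) * τ *
        (φ (s (X (Multiplicative.ofAdd (Pi.single e 1))) (t B) n))⁻¹} := by
    intro n
    apply le_antisymm
    · rintro _ ⟨y, rfl⟩
      exact bg_ind ((Subgroup.closure {z,
        φ (s (X (Multiplicative.ofAdd (Pi.single e 1))) (t B) n) * τ *
        (φ (s (X (Multiplicative.ofAdd (Pi.single e 1))) (t B) n))⁻¹}).comap (β n))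
        (by rw [Subgroup.mem_comap, hβ1]; exact Subgroup.subset_closure (Or.inl rfl))
        (by rw [Subgroup.mem_comap, hβt]; exact Subgroup.subset_closure (Or.inr rfl)) y
    · rw [Subgroup.closure_le]
      rintro y (rfl | rfl)
      · exact ⟨_, hβ1 n⟩
      · exact ⟨_, hβt n⟩
  intro n m
  constructor
  · intro hnm'
    obtain ⟨ρ, hρ, hs⟩ := (hC (n : ℤ) (m : ℤ)).2 (Or.inr ⟨n, m, rfl, rfl, hnm'⟩)
    obtain ⟨e1⟩ := hiso n
    obtain ⟨e2⟩ := hiso m
    have hzρ : Commute z (φ ρ) := hU.zq ρ (bot.le hρ)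
    have hτρ : Commute τ (φ ρ) := hU.τr ρ hρ
    have hcon1 : z = φ ρ * z * (φ ρ)⁻¹ := by
      rw [← hzρ.eq, mul_inv_cancel_right]
    have hcon2 : φ (s (X (Multiplicative.ofAdd (Pi.single e 1))) (t B) n) * τ *
        (φ (s (X (Multiplicative.ofAdd (Pi.single e 1))) (t B) n))⁻¹ = φ ρ *
        (φ (s (X (Multiplicative.ofAdd (Pi.single e 1))) (t B) m) * τ *
        (φ (s (X (Multiplicative.ofAdd (Pi.single e 1))) (t B) m))⁻¹) * (φ ρ)⁻¹ := by
      rw [hs]
      have h1 : (φ ρ)⁻¹ * τ * φ ρ = τ := by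
        rw [mul_assoc, hτρ.eq, inv_mul_cancel_left]
      simp only [map_mul, map_inv, mul_inv_rev, inv_inv]
      calc φ ρ * φ (s (X (Multiplicative.ofAdd (Pi.single e 1))) (t B) ↑m) * (φ ρ)⁻¹ * τ *
            (φ ρ * ((φ (s (X (Multiplicative.ofAdd (Pi.single e 1))) (t B) ↑m))⁻¹ * (φ ρ)⁻¹)) =
          φ ρ * φ (s (X (Multiplicative.ofAdd (Pi.single e 1))) (t B) ↑m) *
            ((φ ρ)⁻¹ * τ * φ ρ) * ((φ (s (X (Multiplicative.ofAdd (Pi.single e 1))) (t B) ↑m))⁻¹ *
              (φ ρ)⁻¹) := by group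
        _ = _ := by rw [h1]; group
    have hr2 : (β n).range = ((β m).range).map (MulAut.conj (φ ρ)).toMonoidHom := by
      rw [hrange, hrange, MonoidHom.map_closure, Set.image_pair]
      congr 1
      have e1 : (MulAut.conj (φ ρ)).toMonoidHom z = z := by
        show φ ρ * z * (φ ρ)⁻¹ = z
        exact hcon1.symm
      rw [e1, hcon2]
      rfl
    have hA := amal_iso (β n) (β m) (φ ρ) (by
      intro y
      have h1 : β n y ∈ (β n).range := ⟨y, rfl⟩
      rw [hr2] at h1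
      obtain ⟨_, ⟨y', rfl⟩, hy⟩ := h1
      exact ⟨y', hy.symm⟩) (by
      intro y'
      have h1 : φ ρ * β m y' * (φ ρ)⁻¹ ∈ (β n).range := by
        rw [hr2]
        exact ⟨β m y', ⟨y', rfl⟩, rfl⟩
      exact h1)
    obtain ⟨e3⟩ := hA
    exact ⟨e1.trans (e3.trans e2.symm)⟩
  · rintro ⟨ee⟩
    obtain ⟨e1⟩ := hiso n
    obtain ⟨e2⟩ := hiso m
    have h1 := inv U (mn n) (mn m) (β n) (β m) hTU (hβi n) (hβi m)
      ⟨e1.symm.trans (ee.trans e2)⟩
    have h2 := hmn m
    rw [← h1] at h2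
    exact hE.trans (hmn n) (hE.symm h2)

end Pool.Agent.T2H50.ISO
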