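import Pool.Agent.Y817.ISO.Stm
import Pool.Agent.Helper694.CS.J_hnn_tf

/-!
Parts LEMA, SUBHNN, SQUARE of project ISO (frozen statement S14615).
-/

set_option autoImplicit false

namespace Pool.Agent.T2H50.ISO

open Pool.Agent.Y817.ISO HNNExtension HNNExtension.NormalWord

theorem tf_iff {G : Type} [Group G] : TF G ↔ ∀ k : G, k ≠ 1 → ¬ IsOfFinOrder k := by
  constructor
  · intro h k hk hf
    exact hk (h k hf)
  · intro h x hx
    by_contra hne
    exact h x hne hx

theorem tf_hnn {G : Type} [Group G] {A B : Subgroup G} (φ : A ≃* B) (h : TF G) :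
    TF (HNNExtension G A B φ) := by
  rw [tf_iff] at h ⊢
  intro k hk
  exact Pool.CS.hnn_tf φ h k hk

section
variable {G : Type} [Group G] {S : Subgroup G}

theorem t_comm (s : G) (hs : s ∈ S) :
    (t : CE G S) * of s = of s * t := by
  have h := t_mul_of (φ := MulEquiv.refl S) ⟨s, hs⟩
  exact h

theorem tinv_comm (s : G) (hs : s ∈ S) :
    (t⁻¹ : CE G S) * of s = of s * t⁻¹ := by
  have h := t_comm s hs
  rw [inv_mul_eq_iff_eq_mul, ← mul_assoc, h, mul_assoc, mul_inv_cancel, mul_one]

theorem tz_comm (s : G) (hs : s ∈ S) (k : ℤ) :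
    (t ^ k : CE G S) * of s = of s * t ^ k := by
  have h : Commute (t : CE G S) (of s) := t_comm s hs
  exact (h.zpow_left k).eq

theorem toSub (u : ℤˣ) : toSubgroup S S u = S := by
  rcases Int.units_eq_one_or u with rfl | rfl
  · rfl
  · rfl

/-- product of a list of letters -/
noncomputable def lp (S : Subgroup G) (l : List (ℤˣ × G)) : CE G S :=
  (l.map (fun x => t ^ (x.1 : ℤ) * of x.2)).prod

@[simp] theorem lp_nil : lp S [] = 1 := rfl

@[simp] theorem lp_cons (a : ℤˣ × G) (l : List (ℤˣ × G)) :
    lp S (a :: l) = t ^ (a.1 : ℤ) * of a.2 * lp S l := by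
  simp [lp]

@[simp] theorem lp_append (l l' : List (ℤˣ × G)) : lp S (l ++ l') = lp S l * lp S l' := by
  simp [lp]

/-- no pinches -/
def NP (S : Subgroup G) (a b : ℤˣ × G) : Prop := a.2 ∈ S → a.1 = b.1

theorem britton {l : List (ℤˣ × G)} (hl : l.IsChain (NP S)) (h : G)
    (hm : of h * lp S l ∈ (of : G →* CE G S).range) : l = [] := by
  have h1 := ReducedWord.toList_eq_nil_of_mem_of_range (MulEquiv.refl S)
    (⟨h, l, by
      refine hl.imp ?_
      intro a b hab hm
      exact hab (by rwa [toSub] at hm)⟩ : ReducedWord G S S) hm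
  exact h1

theorem exists_word (g : CE G S) : ∃ (h : G) (l : List (ℤˣ × G)), l.IsChain (NP S) ∧
    g = of h * lp S l := by
  obtain ⟨w, hw⟩ := Pool.CS.hnn_word (MulEquiv.refl S) g
  refine ⟨w.head, w.toList, ?_, hw.symm⟩
  refine w.chain.imp ?_
  intro a b hab hm
  exact hab (by rwa [toSub])

end

/-! ### LEMA -/

section
variable {G : Type} [Group G] (S M L : Subgroup G)

/-- product of a list of pairs -/
noncomputable def pp (l : List (G × G)) : CE G S :=
  (l.map (fun p => t * of p.1 * t⁻¹ * of p.2)).prod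

/-- normal forms -/
def IsNF (x : CE G S) : Prop := ∃ (l0 : G) (ps : List (G × G)), l0 ∈ L ∧
  (∀ p ∈ ps, p.1 ∈ M ∧ p.1 ∉ S ∧ p.2 ∈ L) ∧ ps.IsChain (fun p _ => p.2 ∉ S) ∧
  x = of l0 * pp S ps

/-- the list of letters of a list of pairs -/
def flat (l : List (G × G)) : List (ℤˣ × G) := l.flatMap (fun p => [(1, p.1), (-1, p.2)])

omit [Group G] in
theorem flat_cons (p : G × G) (l : List (G × G)) :
    flat (p :: l) = (1, p.1) :: (-1, p.2) :: flat l := by
  simp [flat]

theorem lp_flat (l : List (G × G)) : lp S (flat l) = pp S l := by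
  induction l with
  | nil => simp [flat, pp]
  | cons p l ih =>
    rw [flat_cons, lp_cons, lp_cons, ih]
    simp [pp, mul_assoc]

theorem flat_chain (l : List (G × G)) (h1 : ∀ p ∈ l, p.1 ∉ S)
    (h2 : l.IsChain (fun p _ => p.2 ∉ S)) : (flat l).IsChain (NP S) := by
  induction l with
  | nil => simp [flat]
  | cons p l ih =>
    rw [flat_cons, List.isChain_cons_cons]
    rw [List.isChain_cons] at h2
    refine ⟨fun h => absurd h (h1 p (by simp)), ?_⟩
    rw [List.isChain_cons]
    refine ⟨?_, ih (fun q hq => h1 q (List.mem_cons_of_mem _ hq)) h2.2⟩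
    intro y hy h3
    cases l with
    | nil => simp [flat] at hy
    | cons q l => exact absurd h3 (h2.1 q (by simp))

theorem nf_mul (h1 : S ⊓ M ≤ L) (h2 : L ≤ M) (m : G) (hm : m ∈ M) (x : CE G S)
    (hx : IsNF S M L x) : IsNF S M L (t * of m * t⁻¹ * x) := by
  obtain ⟨l0, ps, hl0, hps, hc, rfl⟩ := hx
  by_cases hmS : m ∈ S
  · refine ⟨m * l0, ps, L.mul_mem (h1 ⟨hmS, hm⟩) hl0, hps, hc, ?_⟩
    rw [t_comm m hmS, map_mul]
    group
  · rcases ps with _ | ⟨p, ps⟩
    · refine ⟨1, [(m, l0)], L.one_mem, ?_, by simp, ?_⟩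
      · intro p hp
        rw [List.mem_singleton] at hp
        subst hp
        exact ⟨hm, hmS, hl0⟩
      · simp [pp, mul_assoc]
    · by_cases hS : l0 ∈ S
      · have hp := hps p (by simp)
        have e1 : (t * of m * t⁻¹ * (of l0 * pp S (p :: ps)) : CE G S) =
            t * of (m * l0 * p.1) * t⁻¹ * of p.2 * pp S ps := by
          have e2 := tinv_comm l0 hS
          have e3 : (t⁻¹ : CE G S) * (of l0 * pp S (p :: ps)) = of l0 * of p.1 * t⁻¹ * of p.2 * pp S ps := by
            rw [← mul_assoc, e2]
            simp only [pp, List.map_cons, List.prod_cons]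
            group
          calc (t * of m * t⁻¹ * (of l0 * pp S (p :: ps)) : CE G S)
              = t * of m * (t⁻¹ * (of l0 * pp S (p :: ps))) := by group
            _ = t * of m * (of l0 * of p.1 * t⁻¹ * of p.2 * pp S ps) := by rw [e3]
            _ = _ := by rw [map_mul, map_mul]; group
        have hm' : m * l0 * p.1 ∈ M := M.mul_mem (M.mul_mem hm (h2 hl0)) hp.1
        rw [e1]
        by_cases hS' : m * l0 * p.1 ∈ S
        · refine ⟨m * l0 * p.1 * p.2, ps, L.mul_mem (h1 ⟨hS', hm'⟩) hp.2.2,
            fun q hq => hps q (List.mem_cons_of_mem _ hq), (List.isChain_cons.1 hc).2, ?_⟩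
          rw [t_comm _ hS', map_mul (of : G →* CE G S) (m * l0 * p.1) p.2]
          group
        · refine ⟨1, (m * l0 * p.1, p.2) :: ps, L.one_mem, ?_, ?_, ?_⟩
          · intro q hq
            rcases List.mem_cons.1 hq with rfl | hq
            · exact ⟨hm', hS', hp.2.2⟩
            · exact hps q (List.mem_cons_of_mem _ hq)
          · rw [List.isChain_cons] at hc ⊢
            exact hc
          · simp [pp, mul_assoc]
      · refine ⟨1, (m, l0) :: p :: ps, L.one_mem, ?_, ?_, ?_⟩
        · intro q hq
          rcases List.mem_cons.1 hq with rfl | hq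
          · exact ⟨hm, hmS, hl0⟩
          · exact hps q hq
        · rw [List.isChain_cons]
          exact ⟨fun _ _ => hS, hc⟩
        · simp [pp, mul_assoc]

theorem nf_mulL (l : G) (hl : l ∈ L) (x : CE G S)
    (hx : IsNF S M L x) : IsNF S M L (of l * x) := by
  obtain ⟨l0, ps, hl0, hps, hc, rfl⟩ := hx
  exact ⟨l * l0, ps, L.mul_mem hl hl0, hps, hc, by rw [map_mul, mul_assoc]⟩

end

theorem lemA : StmLemA := by
  intro G _ S M L h1 h2 x hx
  have key : ∀ y : CE G S, y ∈ Subgroup.closure
    ((fun g : G => (HNNExtension.t * HNNExtension.of g * HNNExtension.t⁻¹ : CE G S)) '' M ∪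
      (fun g : G => (HNNExtension.of g : CE G S)) '' L) → IsNF S M L y := by
    intro y hy
    induction hy using Subgroup.closure_induction_left with
    | one => exact ⟨1, [], L.one_mem, by simp, by simp, by simp [pp]⟩
    | mul_left a ha b hb ih =>
      rcases ha with ⟨m, hm, rfl⟩ | ⟨l, hl, rfl⟩
      · exact nf_mul S M L h1 h2 m hm b ih
      · exact nf_mulL S M L l hl b ih
    | inv_mul_cancel a ha b hb ih =>
      rcases ha with ⟨m, hm, rfl⟩ | ⟨l, hl, rfl⟩
      · have := nf_mul S M L h1 h2 m⁻¹ (M.inv_mem hm) b ih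
        have e : (t * of m⁻¹ * t⁻¹ * b : CE G S) = (t * of m * t⁻¹)⁻¹ * b := by
          rw [map_inv]; group
        rw [e] at this
        exact this
      · have := nf_mulL S M L l⁻¹ (L.inv_mem hl) b ih
        rwa [map_inv] at this
  obtain ⟨l0, ps, hl0, hps, hc, e⟩ := key _ hx
  have h3 : flat ps = [] := by
    refine britton (S := S) (flat_chain S ps (fun p hp => (hps p hp).2.1) hc) l0 ?_
    rw [lp_flat, ← e]
    exact ⟨x, rfl⟩
  have h4 : ps = [] := by
    cases ps with
    | nil => rfl
    | cons p ps => simp [flat_cons] at h3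
  subst h4
  have h5 : (of x : CE G S) = of l0 := by simpa [pp] using e
  rw [HNNExtension.of_injective _ h5]
  exact hl0

/-! ### SUBHNN -/

theorem subHNN : StmSubHNN := by
  intro A G _ _ α SA S hα hS
  have hrel : ∀ a : SA, (t : CE G S) * (of.comp α) (a : A) = (of.comp α) ((MulEquiv.refl SA a : SA) : A) * t := by
    intro a
    exact t_comm (α a) ((hS a).2 a.2)
  refine ⟨HNNExtension.lift (of.comp α) t hrel, ?_, fun a => ?_, ?_⟩
  · rw [injective_iff_map_eq_one]
    intro w hw
    obtain ⟨h, l, hl, rfl⟩ := exists_word w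
    have e : (HNNExtension.lift (of.comp α) t hrel) (of h * lp SA l) =
        of (α h) * lp S (l.map (fun p => (p.1, α p.2))) := by
      rw [map_mul, HNNExtension.lift_of]
      congr 1
      clear hl hw
      induction l with
      | nil => simp
      | cons p l ih =>
        simp only [lp_cons, List.map_cons, map_mul, map_zpow, HNNExtension.lift_t,
          HNNExtension.lift_of, ih]
        rfl
    rw [e] at hw
    have h1 := britton (S := S) (l := l.map (fun p => (p.1, α p.2))) (by
      rw [List.isChain_map]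
      refine hl.imp ?_
      intro a b hab hm
      exact hab ((hS a.2).1 hm)) (α h) (by rw [hw]; exact one_mem _)
    have h2 : l = [] := by simpa using h1
    subst h2
    simp only [List.map_nil, lp_nil, mul_one] at hw ⊢
    have h3 : α h = 1 := by
      have := HNNExtension.of_injective (MulEquiv.refl S) (hw.trans (map_one _).symm)
      exact this
    have h4 : h = 1 := hα (h3.trans (map_one α).symm)
    rw [h4, map_one]
  · rw [HNNExtension.lift_of]; rfl
  · rw [HNNExtension.lift_t]

/-! ### SQUARE -/

/-- doubling of the letters -/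
def dbl {G : Type} [Group G] (l : List (ℤˣ × G)) : List (ℤˣ × G) :=
  l.flatMap (fun p => [(p.1, 1), p])

theorem dbl_cons {G : Type} [Group G] (p : ℤˣ × G) (l : List (ℤˣ × G)) :
    dbl (p :: l) = (p.1, 1) :: p :: dbl l := by
  simp [dbl]

theorem dbl_chain {G : Type} [Group G] {S : Subgroup G} (l : List (ℤˣ × G))
    (hl : l.IsChain (NP S)) : (dbl l).IsChain (NP S) := by
  induction l with
  | nil => simp [dbl]
  | cons p l ih =>
    rw [List.isChain_cons] at hl
    rw [dbl_cons, List.isChain_cons_cons]
    refine ⟨fun _ => rfl, ?_⟩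
    rw [List.isChain_cons]
    refine ⟨?_, ih hl.2⟩
    intro y hy hm
    cases l with
    | nil => simp [dbl] at hy
    | cons q l =>
      rw [dbl_cons] at hy
      simp only [List.head?_cons, Option.mem_def, Option.some.injEq] at hy
      subst hy
      exact hl.1 q (by simp) hm

theorem square : StmSquare := by
  intro K _ Q
  have hrel : ∀ a : Q, (t ^ 2 : CE K Q) * (of : K →* CE K Q) (a : K) =
      (of : K →* CE K Q) ((MulEquiv.refl Q a : Q) : K) * t ^ 2 := by
    intro a
    have := tz_comm (S := Q) a.1 a.2 2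
    exact_mod_cast this
  refine ⟨HNNExtension.lift of (t ^ 2) hrel, ?_, fun k => ?_, ?_⟩
  · rw [injective_iff_map_eq_one]
    intro w hw
    obtain ⟨h, l, hl, rfl⟩ := exists_word w
    have e : (HNNExtension.lift of (t ^ 2) hrel) (of h * lp Q l) = of h * lp Q (dbl l) := by
      rw [map_mul, HNNExtension.lift_of]
      congr 1
      clear hl hw
      induction l with
      | nil => simp [dbl]
      | cons p l ih =>
        rw [dbl_cons]
        simp only [lp_cons, map_mul, map_zpow, HNNExtension.lift_t,
          HNNExtension.lift_of, ih, map_one, mul_one]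
        have e2 : ((t : CE K Q) ^ 2) ^ (p.1 : ℤ) = t ^ (p.1 : ℤ) * t ^ (p.1 : ℤ) := by
          rw [← zpow_natCast, ← zpow_mul, ← zpow_add]
          congr 1
          push_cast
          ring
        rw [e2]
        group
    rw [e] at hw
    have h1 := britton (S := Q) (dbl_chain l hl) h (by rw [hw]; exact one_mem _)
    have h2 : l = [] := by
      cases l with
      | nil => rfl
      | cons p l => simp [dbl_cons] at h1
    subst h2
    simpa [dbl] using hw
  · rw [HNNExtension.lift_of]
  · rw [HNNExtension.lift_t]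

end Pool.Agent.T2H50.ISO
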