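import Pool.Agent.T2H50.ISO.Hnn

/-!
Part MHNN of project ISO (frozen statement S14615).
-/

set_option autoImplicit false

namespace Pool.Agent.T2H50.ISO

open Pool.Agent.Y817.ISO

/-- the conclusion of MHNN -/
def Con (G : Type) [Group G] (ι : Type) (Q : ι → Type)
  [∀ i, Group (Q i)] (f g : ∀ i, Q i →* G) : Prop :=
  ∃ (K : Type) (_ : Group K) (of : G →* K) (r : ι → K), Function.Injective of ∧
    (∀ i q, r i * of (f i q) = of (g i q) * r i) ∧ (TF G → TF K) ∧
    Subgroup.closure (Set.range of ∪ Set.range r) = ⊤ ∧
    ∀ (H : Type) [Group H] (φ : G →* H) (s : ι → H),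
      (∀ i q, s i * φ (f i q) = φ (g i q) * s i) →
      ∃ Φ : K →* H, (∀ x, Φ (of x) = φ x) ∧ ∀ i, Φ (r i) = s i

theorem hnn_closure {G : Type} [Group G] {A B : Subgroup G} (φ : A ≃* B) (S : Set G)
    (hS : Subgroup.closure S = ⊤) :
    Subgroup.closure ((HNNExtension.of : G →* HNNExtension G A B φ) '' S ∪ {HNNExtension.t}) = ⊤ := by
  rw [eq_top_iff]
  intro x _
  have h1 : ∀ g : G, (HNNExtension.of g : HNNExtension G A B φ) ∈
      Subgroup.closure ((HNNExtension.of : G →* HNNExtension G A B φ) '' S ∪ {HNNExtension.t}) := by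
    intro g
    have h2 : (HNNExtension.of g : HNNExtension G A B φ) ∈
        (Subgroup.closure S).map (HNNExtension.of : G →* HNNExtension G A B φ) := by
      rw [hS]
      exact ⟨g, trivial, rfl⟩
    rw [MonoidHom.map_closure] at h2
    exact Subgroup.closure_mono Set.subset_union_left h2
  induction x using HNNExtension.induction_on with
  | of g => exact h1 g
  | t => exact Subgroup.subset_closure (Or.inr rfl)
  | mul x y hx hy => exact Subgroup.mul_mem _ (hx trivial) (hy trivial)
  | inv x hx => exact Subgroup.inv_mem _ (hx trivial)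

theorem mhnn : StmMHNN := by
  suffices H : ∀ (ι : Type) [Finite ι] (G : Type) [Group G] (Q : ι → Type)
      [∀ i, Group (Q i)] (f g : ∀ i, Q i →* G), (∀ i, Function.Injective (f i)) →
      (∀ i, Function.Injective (g i)) → Con G ι Q f g from
    fun G _ ι _ Q _ f g hf hg => H ι G Q f g hf hg
  intro ι hι
  induction ι using Finite.induction_empty_option with
  | of_equiv e ih =>
    intro G _ Q _ f g hf hg
    obtain ⟨K, hK, of, r, h1, h2, h3, h4, h5⟩ := ih G (fun i => Q (e i)) (fun i => f (e i))
      (fun i => g (e i)) (fun i => hf _) (fun i => hg _)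
    refine ⟨K, hK, of, fun j => r (e.symm j), h1, ?_, h3, ?_, ?_⟩
    · intro j q
      obtain ⟨i, rfl⟩ := e.surjective j
      have := h2 i q
      simpa using this
    · have : Set.range (fun j => r (e.symm j)) = Set.range r := by
        ext x
        constructor
        · rintro ⟨j, rfl⟩; exact ⟨_, rfl⟩
        · rintro ⟨i, rfl⟩; exact ⟨e i, by simp⟩
      rw [this]
      exact h4
    · intro H _ φ s hs
      obtain ⟨Φ, hΦ1, hΦ2⟩ := h5 H φ (fun i => s (e i)) (fun i q => hs (e i) q)
      exact ⟨Φ, hΦ1, fun j => by rw [hΦ2]; simp⟩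
  | h_empty =>
    intro G _ Q _ f g hf hg
    refine ⟨G, inferInstance, MonoidHom.id G, fun i => i.elim, Function.injective_id, ?_, id, ?_, ?_⟩
    · intro i; exact i.elim
    · rw [eq_top_iff]
      intro x _
      exact Subgroup.subset_closure (Or.inl ⟨x, rfl⟩)
    · intro H _ φ s _
      exact ⟨φ, fun _ => rfl, fun i => i.elim⟩
  | h_option ih =>
    intro G _ Q _ f g hf hg
    obtain ⟨K, hK, of, r, h1, h2, h3, h4, h5⟩ := ih G (fun i => Q (some i)) (fun i => f (some i))
      (fun i => g (some i)) (fun i => hf _) (fun i => hg _)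
    let e1 : Q none ≃* (of.comp (f none)).range := MonoidHom.ofInjective (h1.comp (hf none))
    let e2 : Q none ≃* (of.comp (g none)).range := MonoidHom.ofInjective (h1.comp (hg none))
    let φ : (of.comp (f none)).range ≃* (of.comp (g none)).range := e1.symm.trans e2
    have hφ : ∀ q : Q none, φ (e1 q) = e2 q := by
      intro q
      simp [φ]
    refine ⟨HNNExtension K _ _ φ, inferInstance, HNNExtension.of.comp of,
      fun i => i.elim HNNExtension.t (fun j => HNNExtension.of (r j)),
      (HNNExtension.of_injective φ).comp h1, ?_, ?_, ?_, ?_⟩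
    · intro i q
      cases i with
      | none =>
        have h := HNNExtension.t_mul_of (φ := φ) (e1 q)
        rw [hφ] at h
        exact h
      | some i =>
        show HNNExtension.of (r i) * HNNExtension.of (of (f (some i) q)) =
          HNNExtension.of (of (g (some i) q)) * HNNExtension.of (r i)
        rw [← map_mul, h2, map_mul]
    · intro h
      exact tf_hnn φ (h3 h)
    · have h6 := hnn_closure φ _ h4
      rw [eq_top_iff, ← h6, Subgroup.closure_le]
      rintro x (⟨y, (⟨g, rfl⟩ | ⟨i, rfl⟩), rfl⟩ | rfl)
      · exact Subgroup.subset_closure (Or.inl ⟨g, rfl⟩)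
      · exact Subgroup.subset_closure (Or.inr ⟨some i, rfl⟩)
      · exact Subgroup.subset_closure (Or.inr ⟨none, rfl⟩)
    · intro H _ ψ s hs
      obtain ⟨Φ, hΦ1, hΦ2⟩ := h5 H ψ (fun i => s (some i)) (fun i q => hs (some i) q)
      have hrel : ∀ a : (of.comp (f none)).range, s none * Φ a = Φ (φ a : K) * s none := by
        intro a
        obtain ⟨q, rfl⟩ := e1.surjective a
        rw [hφ]
        show s none * Φ (of (f none q)) = Φ (of (g none q)) * s none
        rw [hΦ1, hΦ1]
        exact hs none q
      refine ⟨HNNExtension.lift Φ (s none) hrel, ?_, ?_⟩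
      · intro x
        show HNNExtension.lift Φ (s none) hrel (HNNExtension.of (of x)) = _
        rw [HNNExtension.lift_of, hΦ1]
      · intro i
        cases i with
        | none => exact HNNExtension.lift_t _ _ _
        | some i =>
          show HNNExtension.lift Φ (s none) hrel (HNNExtension.of (r i)) = _
          rw [HNNExtension.lift_of, hΦ2]

end Pool.Agent.T2H50.ISO
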